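import Mathlib

/-!
# Isolated eigenvalues which do not move to first order
-/

set_option autoImplicit false
set_option linter.unusedSectionVars false

namespace Pool.Agent.H60OE

open Module

section

variable {K V : Type*} [Field K] [AddCommGroup V] [Module K V]

/-- conjugation -/
def cj (f f' : Module.End K V) : Module.End K (Module.End K V) where
  toFun X := f * X * f'
  map_add' X Y := by rw [mul_add, add_mul]
  map_smul' c X := by rw [mul_smul_comm, smul_mul_assoc]; rfl

theorem cj_apply (f f' X : Module.End K V) : cj f f' X = f * X * f' := rfl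

theorem pair_pow (f f' : Module.End K V) (hf : f' * f = 1) (a c : K) : ∀ (N A B : ℕ), A + B = N →
    ∀ (X : Module.End K V) (u : V), ((cj f f' - a • (1 : Module.End K (Module.End K V))) ^ A) X = 0 →
      ((f - c • (1 : Module.End K V)) ^ B) u = 0 → ((f - (a * c) • (1 : Module.End K V)) ^ N) (X u) = 0 := by
  intro N
  induction N with
  | zero =>
    intro A B hAB X u hX _
    have hA : A = 0 := by omega
    subst hA
    rw [pow_zero, Module.End.one_apply] at hX
    rw [hX, LinearMap.zero_apply, map_zero]
  | succ N ih =>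
    intro A B hAB X u hX hu
    rcases A with _ | A
    · rw [pow_zero, Module.End.one_apply] at hX
      rw [hX, LinearMap.zero_apply, map_zero]
    rcases B with _ | B
    · rw [pow_zero, Module.End.one_apply] at hu
      rw [hu, map_zero, map_zero]
    have key : (f - (a * c) • (1 : Module.End K V)) (X u) = (cj f f' X) ((f - c • (1 : Module.End K V)) u) +
        c • (((cj f f' - a • (1 : Module.End K (Module.End K V))) X) u) := by
      have h1 : (cj f f' X) (f u) = f (X u) := by
        have h2 : (f * X * f') * f = f * X := by rw [mul_assoc, hf, mul_one]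
        exact congrArg (fun T : Module.End K V => T u) h2
      simp only [LinearMap.sub_apply, LinearMap.smul_apply, Module.End.one_apply, map_sub, map_smul, h1]
      module
    rw [pow_succ, Module.End.mul_apply, key, map_add, map_smul]
    have hcom : Commute (cj f f') ((cj f f' - a • (1 : Module.End K (Module.End K V))) ^ (A + 1)) := by
      apply Commute.pow_right
      exact (Commute.refl _).sub_right ((Commute.one_right _).smul_right a)
    have h1 : ((cj f f' - a • (1 : Module.End K (Module.End K V))) ^ (A + 1)) (cj f f' X) = 0 := by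
      rw [← Module.End.mul_apply, ← hcom.eq, Module.End.mul_apply, hX, map_zero]
    have h2 : ((f - c • (1 : Module.End K V)) ^ B) ((f - c • (1 : Module.End K V)) u) = 0 := by
      rw [← Module.End.mul_apply, ← pow_succ]
      exact hu
    have h3 : ((cj f f' - a • (1 : Module.End K (Module.End K V))) ^ A)
        ((cj f f' - a • (1 : Module.End K (Module.End K V))) X) = 0 := by
      rw [← Module.End.mul_apply, ← pow_succ]
      exact hX
    rw [ih (A + 1) B (by omega) _ _ h1 h2, ih A (B + 1) (by omega) _ u h3 hu, smul_zero, add_zero]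

theorem mem_pair (f f' : Module.End K V) (hf : f' * f = 1) (a c : K) (X : Module.End K V) (u : V)
    (hX : X ∈ (cj f f').maxGenEigenspace a) (hu : u ∈ f.maxGenEigenspace c) : X u ∈ f.maxGenEigenspace (a * c) := by
  rw [Module.End.mem_maxGenEigenspace] at hX hu ⊢
  obtain ⟨A, hA⟩ := hX
  obtain ⟨B, hB⟩ := hu
  exact ⟨A + B, pair_pow f f' hf a c (A + B) A B rfl X u hA hB⟩

theorem w_zero (f : Module.End K V) (w : V →ₗ[K] K) (z : K) (hw : ∀ u, w (f u) = z * w u) (c : K) (hc : c ≠ z) (u : V)
    (hu : u ∈ f.maxGenEigenspace c) : w u = 0 := by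
  rw [Module.End.mem_maxGenEigenspace] at hu
  obtain ⟨k, hk⟩ := hu
  have h1 : ∀ (k : ℕ) (u : V), w (((f - c • (1 : Module.End K V)) ^ k) u) = (z - c) ^ k * w u := by
    intro k
    induction k with
    | zero => intro u; rw [pow_zero, Module.End.one_apply, pow_zero, one_mul]
    | succ k ih =>
      intro u
      rw [pow_succ, Module.End.mul_apply, ih, LinearMap.sub_apply, map_sub, hw, LinearMap.smul_apply,
        Module.End.one_apply, map_smul, smul_eq_mul, pow_succ]
      ring
  have h2 := h1 k u
  rw [hk, map_zero] at h2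
  rcases mul_eq_zero.mp h2.symm with h3 | h3
  · exact absurd (sub_eq_zero.mp (eq_zero_of_pow_eq_zero h3)) (Ne.symm hc)
  · exact h3

theorem eig_mem (f : Module.End K V) (z : K) (v : V) (hv : f v = z • v) : v ∈ f.maxGenEigenspace z := by
  rw [Module.End.mem_maxGenEigenspace]
  refine ⟨1, ?_⟩
  rw [pow_one, LinearMap.sub_apply, LinearMap.smul_apply, Module.End.one_apply, hv, sub_self]

/-- **Second order.** -/
theorem second_order [IsAlgClosed K] [FiniteDimensional K V] (f f' : Module.End K V) (hf : f' * f = 1)
    (L : Submodule K (Module.End K V)) (hL : ∀ X ∈ L, f * X * f' ∈ L) (hbr : ∀ X ∈ L, ∀ Y ∈ L, X * Y - Y * X ∈ L)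
    (z : K) (hz : z ≠ 0) (v : V) (hv : f v = z • v) (hs : f.maxGenEigenspace z ≤ Submodule.span K {v})
    (w : V →ₗ[K] K) (hw : ∀ u, w (f u) = z * w u) (hwv : w v ≠ 0) (h1 : ∀ X ∈ L, w (X v) = 0)
    (hiso : ∀ x y, x ≠ z → y ≠ z → f.maxGenEigenspace x ≠ ⊥ → f.maxGenEigenspace y ≠ ⊥ → x * y ≠ z ^ 2) :
    ∀ X ∈ L, ∀ Y ∈ L, w (X (Y v)) = 0 := by
  have hdec : L = ⨆ a, L ⊓ (cj f f').maxGenEigenspace a :=
    Submodule.eq_iSup_inf_genEigenspace (p := L) (f := cj f f') ⊤ (fun X hX => hL X hX)
      (Module.End.iSup_maxGenEigenspace_eq_top (cj f f'))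
  have hvz := eig_mem f z v hv
  have key : ∀ a, ∀ X ∈ L ⊓ (cj f f').maxGenEigenspace a, ∀ b, ∀ Y ∈ L ⊓ (cj f f').maxGenEigenspace b,
      w (X (Y v)) = 0 := by
    rintro a X ⟨hXL, hX⟩ b Y ⟨hYL, hY⟩
    have hYv := mem_pair f f' hf b z Y v hY hvz
    have hXv := mem_pair f f' hf a z X v hX hvz
    by_cases hab : a * b = 1
    · by_cases hb : b = 1
      · -- `Y v` is a multiple of `v`
        rw [hb, one_mul] at hYv
        obtain ⟨c, hc⟩ := Submodule.mem_span_singleton.mp (hs hYv)
        have h2 := h1 Y hYL
        rw [← hc, map_smul, smul_eq_mul] at h2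
        have h3 : c = 0 := (mul_eq_zero.mp h2).resolve_right hwv
        rw [← hc, h3, zero_smul, map_zero, map_zero]
      · have ha : a ≠ 1 := by
          rintro rfl
          rw [one_mul] at hab
          exact hb hab
        by_cases hbz : f.maxGenEigenspace (b * z) = ⊥
        · rw [hbz, Submodule.mem_bot] at hYv
          rw [hYv, map_zero, map_zero]
        · by_cases haz : f.maxGenEigenspace (a * z) = ⊥
          · rw [haz, Submodule.mem_bot] at hXv
            have h2 := h1 _ (hbr X hXL Y hYL)
            rw [LinearMap.sub_apply, Module.End.mul_apply, Module.End.mul_apply, hXv, map_zero, sub_zero] at h2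
            exact h2
          · exfalso
            refine hiso (a * z) (b * z) ?_ ?_ haz hbz ?_
            · intro h
              exact ha ((mul_eq_right₀ hz).mp h)
            · intro h
              exact hb ((mul_eq_right₀ hz).mp h)
            · calc a * z * (b * z) = (a * b) * z ^ 2 := by ring
                _ = _ := by rw [hab, one_mul]
    · have h2 := mem_pair f f' hf a (b * z) X (Y v) hX hYv
      refine w_zero f w z hw (a * (b * z)) ?_ _ h2
      intro h
      apply hab
      rw [← mul_assoc] at h
      exact (mul_eq_right₀ hz).mp h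
  intro X hX Y hY
  rw [hdec] at hX hY
  induction hX using Submodule.iSup_induction' with
  | mem a X hX =>
    induction hY using Submodule.iSup_induction' with
    | mem b Y hY => exact key a X hX b Y hY
    | zero => rw [LinearMap.zero_apply, map_zero, map_zero]
    | add Y Y' _ _ hY hY' => rw [LinearMap.add_apply, map_add, map_add, hY, hY', add_zero]
  | zero => rw [LinearMap.zero_apply, map_zero]
  | add X X' _ _ hX hX' => rw [LinearMap.add_apply, map_add, hX, hX', add_zero]

theorem exists_left (f : Module.End K V) (z : K) (v : V) (hv0 : v ≠ 0) (hv : f v = z • v)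
    (hs : f.maxGenEigenspace z ≤ Submodule.span K {v}) : ∃ w : V →ₗ[K] K, (∀ u, w (f u) = z * w u) ∧ w v ≠ 0 := by
  have h1 : v ∉ LinearMap.range (f - z • (1 : Module.End K V)) := by
    rintro ⟨u, hu⟩
    have h2 : u ∈ f.maxGenEigenspace z := by
      rw [Module.End.mem_maxGenEigenspace]
      refine ⟨2, ?_⟩
      rw [pow_two, Module.End.mul_apply, hu, LinearMap.sub_apply, LinearMap.smul_apply, Module.End.one_apply, hv,
        sub_self]
    obtain ⟨c, hc⟩ := Submodule.mem_span_singleton.mp (hs h2)
    apply hv0
    rw [← hu, ← hc, map_smul, LinearMap.sub_apply, LinearMap.smul_apply, Module.End.one_apply, hv, sub_self,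
      smul_zero]
  obtain ⟨w, hw, hw'⟩ := Submodule.exists_dual_map_eq_bot_of_notMem h1 inferInstance
  refine ⟨w, fun u => ?_, hw⟩
  have h2 : w ((f - z • (1 : Module.End K V)) u) = 0 := by
    have h3 : w ((f - z • (1 : Module.End K V)) u) ∈ (LinearMap.range (f - z • (1 : Module.End K V))).map w :=
      ⟨_, ⟨u, rfl⟩, rfl⟩
    rw [hw'] at h3
    exact h3
  rw [LinearMap.sub_apply, LinearMap.smul_apply, Module.End.one_apply, map_sub, map_smul, sub_eq_zero] at h2
  exact h2

/-- **Conclusion.** -/
theorem no_casimir (f C D : Module.End K V) (hD : D * C = 1) (hC : f * C = C * f) (z : K) (v : V) (hv : f v = z • v)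
    (hs : f.maxGenEigenspace z ≤ Submodule.span K {v}) (w : V →ₗ[K] K) (hwv : w v ≠ 0) : w (C v) ≠ 0 := by
  intro h0
  have h1 : f (C v) = z • C v := by
    rw [← Module.End.mul_apply, hC, Module.End.mul_apply, hv, map_smul]
  obtain ⟨c, hc⟩ := Submodule.mem_span_singleton.mp (hs (eig_mem f z _ h1))
  rw [← hc, map_smul, smul_eq_mul] at h0
  have h2 : c = 0 := (mul_eq_zero.mp h0).resolve_right hwv
  rw [h2, zero_smul] at hc
  have h3 : v = D (C v) := by rw [← Module.End.mul_apply, hD, Module.End.one_apply]
  rw [← hc, map_zero] at h3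
  rw [h3, map_zero] at hwv
  exact hwv rfl

end

end Pool.Agent.H60OE
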