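import Mathlib
import Pool.Agent.H60OE.Lin

/-!
# The grading of a Lie algebra of endomorphisms by an invertible endomorphism
-/

set_option autoImplicit false
set_option linter.unusedSectionVars false

namespace Pool.Agent.H60OE

open Module

section

variable {K : Type*} [Field K]

theorem bil_pow {A M : Type*} [AddCommGroup A] [Module K A] [AddCommGroup M] [Module K M]
    (β : A →ₗ[K] M →ₗ[K] M) (S : Module.End K A) (T : Module.End K M) (hβ : ∀ a m, T (β a m) = β (S a) (T m))
    (a c : K) : ∀ (N i j : ℕ), i + j = N → ∀ (x : A) (u : M), ((S - a • (1 : Module.End K A)) ^ i) x = 0 →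
      ((T - c • (1 : Module.End K M)) ^ j) u = 0 → ((T - (a * c) • (1 : Module.End K M)) ^ N) (β x u) = 0 := by
  intro N
  induction N with
  | zero =>
    intro i j hij x u hx _
    have hi : i = 0 := by omega
    subst hi
    rw [pow_zero, Module.End.one_apply] at hx
    rw [hx, map_zero, LinearMap.zero_apply, map_zero]
  | succ N ih =>
    intro i j hij x u hx hu
    rcases i with _ | i
    · rw [pow_zero, Module.End.one_apply] at hx
      rw [hx, map_zero, LinearMap.zero_apply, map_zero]
    rcases j with _ | j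
    · rw [pow_zero, Module.End.one_apply] at hu
      rw [hu, map_zero, map_zero]
    have key : (T - (a * c) • (1 : Module.End K M)) (β x u) = β (S x) ((T - c • (1 : Module.End K M)) u) +
        c • (β ((S - a • (1 : Module.End K A)) x) u) := by
      simp only [LinearMap.sub_apply, LinearMap.smul_apply, Module.End.one_apply, map_sub, map_smul, hβ]
      module
    rw [pow_succ, Module.End.mul_apply, key, map_add, map_smul]
    have hcom : Commute S ((S - a • (1 : Module.End K A)) ^ (i + 1)) := by
      apply Commute.pow_right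
      exact (Commute.refl _).sub_right ((Commute.one_right _).smul_right a)
    have h1 : ((S - a • (1 : Module.End K A)) ^ (i + 1)) (S x) = 0 := by
      rw [← Module.End.mul_apply, ← hcom.eq, Module.End.mul_apply, hx, map_zero]
    have h2 : ((T - c • (1 : Module.End K M)) ^ j) ((T - c • (1 : Module.End K M)) u) = 0 := by
      rw [← Module.End.mul_apply, ← pow_succ]
      exact hu
    have h3 : ((S - a • (1 : Module.End K A)) ^ i) ((S - a • (1 : Module.End K A)) x) = 0 := by
      rw [← Module.End.mul_apply, ← pow_succ]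
      exact hx
    rw [ih (i + 1) j (by omega) _ _ h1 h2, ih i (j + 1) (by omega) _ u h3 hu, smul_zero, add_zero]

theorem mem_bil {A M : Type*} [AddCommGroup A] [Module K A] [AddCommGroup M] [Module K M]
    (β : A →ₗ[K] M →ₗ[K] M) (S : Module.End K A) (T : Module.End K M) (hβ : ∀ a m, T (β a m) = β (S a) (T m))
    (a c : K) (x : A) (u : M) (hx : x ∈ S.maxGenEigenspace a) (hu : u ∈ T.maxGenEigenspace c) :
    β x u ∈ T.maxGenEigenspace (a * c) := by
  rw [Module.End.mem_maxGenEigenspace] at hx hu ⊢
  obtain ⟨i, hi⟩ := hx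
  obtain ⟨j, hj⟩ := hu
  exact ⟨i + j, bil_pow β S T hβ a c (i + j) i j rfl x u hi hj⟩

variable {V : Type*} [AddCommGroup V] [Module K V]

/-- products -/
theorem mem_mul (f f' : Module.End K V) (hf : f' * f = 1) (a b : K) (X Y : Module.End K V)
    (hX : X ∈ (cj f f').maxGenEigenspace a) (hY : Y ∈ (cj f f').maxGenEigenspace b) :
    X * Y ∈ (cj f f').maxGenEigenspace (a * b) := by
  refine mem_bil (LinearMap.mul K (Module.End K V)) (cj f f') (cj f f') ?_ a b X Y hX hY
  intro X Y
  change f * (X * Y) * f' = (f * X * f') * (f * Y * f')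
  calc f * (X * Y) * f' = f * X * 1 * Y * f' := by simp only [mul_assoc, mul_one]
    _ = _ := by rw [← hf]; simp only [mul_assoc]

theorem trace_cj (f f' : Module.End K V) (hf : f' * f = 1) (X : Module.End K V) :
    LinearMap.trace K V (cj f f' X) = 1 * LinearMap.trace K V X := by
  rw [cj_apply, LinearMap.trace_mul_comm, ← mul_assoc, hf, one_mul, one_mul]

/-- orthogonality -/
theorem trace_zero (f f' : Module.End K V) (hf : f' * f = 1) (a b : K) (hab : a * b ≠ 1) (X Y : Module.End K V)
    (hX : X ∈ (cj f f').maxGenEigenspace a) (hY : Y ∈ (cj f f').maxGenEigenspace b) :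
    LinearMap.trace K V (X * Y) = 0 :=
  w_zero (cj f f') (LinearMap.trace K V) 1 (trace_cj f f' hf) (a * b) hab (X * Y) (mem_mul f f' hf a b X Y hX hY)

variable [FiniteDimensional K V]

/-- elements of degree not a root of unity are nilpotent -/
theorem nil_of_deg [IsAlgClosed K] (f f' : Module.End K V) (hf : f' * f = 1) (a : K) (ha0 : a ≠ 0)
    (ha : ∀ j, 1 ≤ j → j ≤ finrank K V → a ^ j ≠ 1) (X : Module.End K V)
    (hX : X ∈ (cj f f').maxGenEigenspace a) : X ^ finrank K V = 0 := by
  have hf0 : f.maxGenEigenspace 0 = ⊥ := by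
    rw [eq_bot_iff]
    intro u hu
    rw [Module.End.mem_maxGenEigenspace] at hu
    obtain ⟨k, hk⟩ := hu
    rw [zero_smul, sub_zero] at hk
    have h1 : ∀ k : ℕ, f' ^ k * f ^ k = 1 := by
      intro k
      induction k with
      | zero => rw [pow_zero, pow_zero, one_mul]
      | succ k ih =>
        rw [pow_succ, pow_succ']
        calc f' ^ k * f' * (f * f ^ k) = f' ^ k * (f' * f) * f ^ k := by simp only [mul_assoc]
          _ = 1 := by rw [hf, mul_one, ih]
    have h2 := congrArg (fun T : Module.End K V => T u) (h1 k)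
    simp only [Module.End.mul_apply, hk, map_zero, Module.End.one_apply] at h2
    rw [Submodule.mem_bot]
    exact h2.symm
  have key : ∀ nu, ∀ u ∈ f.maxGenEigenspace nu, (X ^ finrank K V) u = 0 := by
    intro nu u hu
    by_contra hne
    have hnu : nu ≠ 0 := by
      rintro rfl
      rw [hf0, Submodule.mem_bot] at hu
      exact hne (by rw [hu, map_zero])
    have h1 : ∀ j : ℕ, (X ^ j) u ∈ f.maxGenEigenspace (a ^ j * nu) := by
      intro j
      induction j with
      | zero => rw [pow_zero, pow_zero, one_mul]; exact hu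
      | succ j ih =>
        have h5 : (X ^ (j + 1)) u = X ((X ^ j) u) := by rw [pow_succ' X, Module.End.mul_apply]
        rw [h5, pow_succ', mul_assoc]
        exact mem_pair f f' hf a _ X _ hX ih
    have h2 : ∀ j : Fin (finrank K V + 1), (X ^ (j : ℕ)) u ≠ 0 := by
      intro j h0
      apply hne
      have h3 : finrank K V = (finrank K V - j) + j := by
        have := j.2
        omega
      rw [h3, pow_add, Module.End.mul_apply, h0, map_zero]
    have hinj : Function.Injective fun j : Fin (finrank K V + 1) => a ^ (j : ℕ) * nu := by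
      have h3 : ∀ i j : Fin (finrank K V + 1), (i : ℕ) < j → a ^ (i : ℕ) * nu ≠ a ^ (j : ℕ) * nu := by
        intro i j hij h4
        have h5 := mul_right_cancel₀ hnu h4
        have h6 : (j : ℕ) = (j - i) + i := by omega
        rw [h6, pow_add] at h5
        have h7 : a ^ ((j : ℕ) - i) = 1 := by
          have h8 : a ^ (i : ℕ) ≠ 0 := pow_ne_zero _ ha0
          have h9 : (a ^ ((j : ℕ) - i) - 1) * a ^ (i : ℕ) = 0 := by rw [sub_mul, one_mul, ← h5, sub_self]
          exact sub_eq_zero.mp ((mul_eq_zero.mp h9).resolve_right h8)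
        exact ha _ (by omega) (by have := j.2; omega) h7
      intro i j hij
      by_contra hne'
      rcases lt_or_gt_of_ne (fun h => hne' (Fin.ext h) : (i : ℕ) ≠ j) with h | h
      · exact h3 i j h hij
      · exact h3 j i h hij.symm
    have hind := (f.independent_maxGenEigenspace.comp hinj)
    have hli := hind.linearIndependent (fun j : Fin (finrank K V + 1) => f.maxGenEigenspace (a ^ (j : ℕ) * nu))
      (v := fun j => (X ^ (j : ℕ)) u) (fun j => h1 j) h2
    have h3 := hli.fintype_card_le_finrank
    rw [Fintype.card_fin] at h3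
    omega
  ext u
  rw [LinearMap.zero_apply]
  have hu : u ∈ ⨆ nu, f.maxGenEigenspace nu := by
    rw [Module.End.iSup_maxGenEigenspace_eq_top]
    exact Submodule.mem_top
  induction hu using Submodule.iSup_induction' with
  | mem nu u hu => exact key nu u hu
  | zero => rw [map_zero]
  | add x y _ _ hx hy => rw [map_add, hx, hy, add_zero]

/-- the data: a Lie algebra of endomorphisms with nondegenerate trace form, stable under conjugation by `f` -/
structure Dat (f f' : Module.End K V) (L : Submodule K (Module.End K V)) : Prop where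
  inv : f' * f = 1
  st : ∀ X ∈ L, f * X * f' ∈ L
  br : ∀ X ∈ L, ∀ Y ∈ L, X * Y - Y * X ∈ L
  nd : ∀ X ∈ L, (∀ Y ∈ L, LinearMap.trace K V (X * Y) = 0) → X = 0

variable [IsAlgClosed K] {f f' : Module.End K V} {L : Submodule K (Module.End K V)}

theorem Dat.dec (h : Dat f f' L) : L = ⨆ a, L ⊓ (cj f f').maxGenEigenspace a :=
  Submodule.eq_iSup_inf_genEigenspace (p := L) (f := cj f f') ⊤ (fun X hX => h.st X hX)
    (Module.End.iSup_maxGenEigenspace_eq_top (cj f f'))

theorem Dat.ndd (h : Dat f f' L) (a : K) (X : Module.End K V) (hX : X ∈ L ⊓ (cj f f').maxGenEigenspace a)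
    (h0 : ∀ b, a * b = 1 → ∀ Y ∈ L ⊓ (cj f f').maxGenEigenspace b, LinearMap.trace K V (X * Y) = 0) : X = 0 := by
  refine h.nd X hX.1 fun Y hY => ?_
  rw [h.dec] at hY
  induction hY using Submodule.iSup_induction' with
  | mem b Y hY =>
    by_cases hab : a * b = 1
    · exact h0 b hab Y hY
    · exact trace_zero f f' h.inv a b hab X Y hX.2 hY.2
  | zero => rw [mul_zero, map_zero]
  | add Y Y' _ _ hY hY' => rw [mul_add, map_add, hY, hY', add_zero]

theorem Dat.brd (h : Dat f f' L) (a b : K) (X Y : Module.End K V) (hX : X ∈ L ⊓ (cj f f').maxGenEigenspace a)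
    (hY : Y ∈ L ⊓ (cj f f').maxGenEigenspace b) : X * Y - Y * X ∈ L ⊓ (cj f f').maxGenEigenspace (a * b) := by
  refine ⟨h.br X hX.1 Y hY.1, Submodule.sub_mem _ (mem_mul f f' h.inv a b X Y hX.2 hY.2) ?_⟩
  rw [mul_comm a b]
  exact mem_mul f f' h.inv b a Y X hY.2 hX.2

/-- **No invariants.** -/
theorem Dat.noinv (h : Dat f f' L) (a : K) (ha0 : a ≠ 0) (ha : ∀ j, 1 ≤ j → j ≤ finrank K V → a ^ j ≠ 1)
    (X : Module.End K V) (hX : X ∈ L ⊓ (cj f f').maxGenEigenspace a)
    (hc : ∀ Z ∈ L ⊓ (cj f f').maxGenEigenspace 1, Z * X = X * Z) : X = 0 := by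
  refine h.ndd a X hX fun b hab Y hY => ?_
  have hH : X * Y - Y * X = 0 := by
    refine h.ndd (a * b) _ (h.brd a b X Y hX hY) fun c hc' Z hZ => ?_
    rw [hab, one_mul] at hc'
    rw [hc'] at hZ
    have h1 : LinearMap.trace K V (Y * X * Z) = LinearMap.trace K V (X * Y * Z) := by
      rw [mul_assoc, ← hc Z hZ, ← mul_assoc, LinearMap.trace_mul_comm, mul_assoc]
    rw [sub_mul, map_sub, h1, sub_self]
  have hcom : Commute X Y := sub_eq_zero.mp hH
  have hnil : IsNilpotent (X * Y) :=
    hcom.isNilpotent_mul_right ⟨_, nil_of_deg f f' h.inv a ha0 ha X hX.2⟩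
  exact (LinearMap.isNilpotent_trace_of_isNilpotent hnil).eq_zero

end

end Pool.Agent.H60OE
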