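import Mathlib
import Pool.Agent.H40LT.LieF

/-!
# The Casimir element of a Lie algebra normalised by an irreducible group
-/

set_option autoImplicit false
set_option linter.unusedSectionVars false
set_option linter.style.haveILetI false

namespace Pool.Agent.H60OE

open LieAlgebra LieModule Module Pool.Agent.H40LT

attribute [local instance 100] LieRing.ofAssociativeRing

section

variable {K V Γ : Type*} [Field K] [CharZero K] [AddCommGroup V] [Module K V] [FiniteDimensional K V] [Group Γ]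

/-- the radical of the trace form -/
def radT (L : LieSubalgebra K (Module.End K V)) : LieSubalgebra K (Module.End K V) where
  carrier := {X | X ∈ L ∧ ∀ Y ∈ L, LinearMap.trace K V (X * Y) = 0}
  add_mem' := by
    rintro X Y ⟨hX, hX'⟩ ⟨hY, hY'⟩
    refine ⟨add_mem hX hY, fun Z hZ => ?_⟩
    rw [add_mul, map_add, hX' Z hZ, hY' Z hZ, add_zero]
  zero_mem' := ⟨zero_mem _, fun Z _ => by rw [zero_mul, map_zero]⟩
  smul_mem' := by
    rintro c X ⟨hX, hX'⟩
    refine ⟨L.smul_mem c hX, fun Z hZ => ?_⟩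
    rw [smul_mul_assoc, map_smul, hX' Z hZ, smul_zero]
  lie_mem' := by
    rintro X Y ⟨hX, hX'⟩ ⟨hY, hY'⟩
    refine ⟨L.lie_mem hX hY, fun Z hZ => ?_⟩
    have h1 := hX' _ (L.lie_mem hY hZ)
    rw [LieRing.of_associative_ring_bracket] at h1 ⊢
    rw [mul_sub, map_sub] at h1
    rw [sub_mul, map_sub]
    have h2 : LinearMap.trace K V (Y * X * Z) = LinearMap.trace K V (X * (Z * Y)) := by
      rw [mul_assoc, LinearMap.trace_mul_comm, mul_assoc]
    rw [h2, mul_assoc]
    exact h1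

theorem conj_mul (ρ : Γ →* Module.End K V) (g : Γ) (X Y : Module.End K V) :
    ρ g * X * ρ g⁻¹ * (ρ g * Y * ρ g⁻¹) = ρ g * (X * Y) * ρ g⁻¹ := by
  have h : ρ g⁻¹ * ρ g = 1 := by rw [← map_mul, inv_mul_cancel, map_one]
  calc ρ g * X * ρ g⁻¹ * (ρ g * Y * ρ g⁻¹) = ρ g * X * (ρ g⁻¹ * ρ g) * Y * ρ g⁻¹ := by simp only [mul_assoc]
    _ = _ := by rw [h, mul_one]; simp only [mul_assoc]

theorem conj_inv (ρ : Γ →* Module.End K V) (g : Γ) (X : Module.End K V) :
    ρ g * (ρ g⁻¹ * X * ρ g) * ρ g⁻¹ = X := by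
  have h : ρ g * ρ g⁻¹ = 1 := by rw [← map_mul, mul_inv_cancel, map_one]
  calc ρ g * (ρ g⁻¹ * X * ρ g) * ρ g⁻¹ = (ρ g * ρ g⁻¹) * X * (ρ g * ρ g⁻¹) := by simp only [mul_assoc]
    _ = _ := by rw [h, mul_one, one_mul]

theorem trace_conj' (ρ : Γ →* Module.End K V) (g : Γ) (X : Module.End K V) :
    LinearMap.trace K V (ρ g * X * ρ g⁻¹) = LinearMap.trace K V X := by
  have h : ρ g⁻¹ * ρ g = 1 := by rw [← map_mul, inv_mul_cancel, map_one]
  rw [LinearMap.trace_mul_comm, ← mul_assoc, h, one_mul]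

variable (ρ : Γ →* Module.End K V) (hirr : IrrEnd ρ) (L : LieSubalgebra K (Module.End K V))
  (hst : ∀ g, ∀ X ∈ L, ρ g * X * ρ g⁻¹ ∈ L) (h0 : ∀ X ∈ L, X.charpoly.rootMultiplicity 0 ≠ 0)

include hst in
theorem radT_stable (g : Γ) (X : Module.End K V) (hX : X ∈ radT L) : ρ g * X * ρ g⁻¹ ∈ radT L := by
  refine ⟨hst g X hX.1, fun Y hY => ?_⟩
  have h1 : ρ g⁻¹ * Y * ρ g ∈ L := by
    have := hst g⁻¹ Y hY
    rwa [inv_inv] at this
  have h2 := hX.2 _ h1
  rw [← trace_conj' ρ g, ← conj_mul, conj_inv] at h2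
  exact h2

include hirr hst h0 in
/-- the trace form is nondegenerate -/
theorem radT_eq_zero : ∀ X ∈ radT L, X = 0 := by
  rcases subsingleton_or_nontrivial V with hV | hV
  · intro X _
    exact Subsingleton.elim _ _
  have h1 : traceForm K (radT L) V = 0 := by
    ext ⟨X, hX⟩ ⟨Y, hY⟩
    rw [traceForm_apply_apply]
    exact hX.2 Y hY.1
  have h2 := LieModule.isNilpotent_derivedSeries_of_traceForm_eq_zero h1
  have h3 := LieModule.nontrivial_max_triv_of_isNilpotent K (derivedSeries K (radT L) 1) V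
  obtain ⟨⟨v, hv⟩, hv0⟩ := exists_ne (0 : maxTrivSubmodule K (derivedSeries K (radT L) 1) V)
  have hv' := (mem_maxTrivSubmodule K (derivedSeries K (radT L) 1) V v).mp hv
  have hcomm := eq_zero_of_inv ρ hirr {Z | ∃ X ∈ radT L, ∃ Y ∈ radT L, Z = X * Y - Y * X} (by
    rintro g _ ⟨X, hX, Y, hY, rfl⟩
    refine ⟨_, radT_stable ρ L hst g X hX, _, radT_stable ρ L hst g Y hY, ?_⟩
    rw [conj_mul, conj_mul, mul_sub, sub_mul]) v (fun h => hv0 (Subtype.ext h)) (by
    rintro _ ⟨X, hX, Y, hY, rfl⟩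
    have h4 : ⁅(⟨X, hX⟩ : radT L), (⟨Y, hY⟩ : radT L)⁆ ∈ derivedSeries K (radT L) 1 := by
      rw [derivedSeries_def, derivedSeriesOfIdeal_succ, derivedSeriesOfIdeal_zero]
      exact LieSubmodule.lie_mem_lie (LieSubmodule.mem_top _) (LieSubmodule.mem_top _)
    exact hv' ⟨_, h4⟩)
  have hab : IsLieAbelian (radT L) := by
    constructor
    rintro ⟨X, hX⟩ ⟨Y, hY⟩
    apply Subtype.ext
    exact hcomm _ ⟨X, hX, Y, hY, rfl⟩
  exact ab_eq_zero' ρ hirr (radT L) (radT_stable ρ L hst) fun X hX => h0 X hX.1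

/-- the trace form on the Lie algebra -/
noncomputable def trB : LinearMap.BilinForm K L :=
  LinearMap.mk₂ K (fun X Y : L => LinearMap.trace K V ((X : Module.End K V) * (Y : Module.End K V)))
    (fun X Y Z => by simp [add_mul]) (fun c X Y => by simp)
    (fun X Y Z => by simp [mul_add]) (fun c X Y => by simp)

theorem trB_apply (X Y : L) : trB L X Y = LinearMap.trace K V ((X : Module.End K V) * (Y : Module.End K V)) := rfl

include hirr hst h0 in
/-- **The Casimir element, with dual bases.** -/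
theorem exists_casimir' (X₀ : Module.End K V) (hX₀ : X₀ ∈ L) (hX₀' : X₀ ≠ 0) :
    ∃ (d : ℕ) (b b' : Fin d → Module.End K V) (D : Module.End K V), (∀ i, b i ∈ L) ∧ (∀ i, b' i ∈ L) ∧
      (∀ g, ρ g * (∑ i, b i * b' i) = (∑ i, b i * b' i) * ρ g) ∧ D * (∑ i, b i * b' i) = 1 ∧
      ∀ X ∈ L, X = ∑ i, LinearMap.trace K V (b' i * X) • b i := by
  have hnd : (trB L).Nondegenerate := by
    have h1 : ∀ X : L, (∀ Y : L, trB L X Y = 0) → X = 0 := by
      intro X hX
      apply Subtype.ext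
      exact radT_eq_zero ρ hirr L hst h0 X ⟨X.2, fun Y hY => hX ⟨Y, hY⟩⟩
    refine ⟨h1, fun X hX => h1 X fun Y => ?_⟩
    rw [trB_apply, LinearMap.trace_mul_comm]
    exact hX Y
  obtain ⟨b, -⟩ : ∃ b : Basis (Fin (finrank K L)) K L, b = Module.finBasis K L := ⟨_, rfl⟩
  obtain ⟨b', hb'⟩ : ∃ b' : Basis (Fin (finrank K L)) K L, b' = (trB L).dualBasis hnd b := ⟨_, rfl⟩
  have hδ : ∀ i j, trB L (b' i) (b j) = if j = i then 1 else 0 := by
    intro i j
    rw [hb']
    exact LinearMap.BilinForm.apply_dualBasis_left hnd b i j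
  have hexp : ∀ X : L, X = ∑ j, trB L (b' j) X • b j := by
    intro X
    conv_lhs => rw [← b.sum_repr X]
    refine Finset.sum_congr rfl fun j _ => ?_
    congr 1
    conv_rhs => rw [← b.sum_repr X, map_sum]
    rw [Finset.sum_eq_single j]
    · rw [map_smul, hδ, if_pos rfl, smul_eq_mul, mul_one]
    · intro k _ hk
      rw [map_smul, hδ, if_neg hk, smul_zero]
    · intro h
      exact absurd (Finset.mem_univ j) h
  have hexp' : ∀ X : L, X = ∑ j, trB L X (b j) • b' j := by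
    intro X
    conv_lhs => rw [← b'.sum_repr X]
    refine Finset.sum_congr rfl fun j _ => ?_
    congr 1
    conv_rhs => rw [← b'.sum_repr X, map_sum, LinearMap.sum_apply]
    rw [Finset.sum_eq_single j]
    · rw [map_smul, LinearMap.smul_apply, hδ, if_pos rfl, smul_eq_mul, mul_one]
    · intro k _ hk
      rw [map_smul, LinearMap.smul_apply, hδ, if_neg (Ne.symm hk), smul_zero]
    · intro h
      exact absurd (Finset.mem_univ j) h
  obtain ⟨C, hC⟩ : ∃ C : Module.End K V, C = ∑ i, (b i : Module.End K V) * (b' i : Module.End K V) := ⟨_, rfl⟩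
  -- invariance
  have hinv : ∀ g, ρ g * C * ρ g⁻¹ = C := by
    intro g
    obtain ⟨φ, hφ⟩ : ∃ φ : L → L, ∀ X : L, ((φ X : L) : Module.End K V) = ρ g * X * ρ g⁻¹ :=
      ⟨fun X => ⟨_, hst g X X.2⟩, fun _ => rfl⟩
    obtain ⟨ψ, hψ⟩ : ∃ ψ : L → L, ∀ X : L, ((ψ X : L) : Module.End K V) = ρ g⁻¹ * X * ρ g :=
      ⟨fun X => ⟨_, by have := hst g⁻¹ X X.2; rwa [inv_inv] at this⟩, fun _ => rfl⟩
    have h1 : ρ g * C * ρ g⁻¹ = ∑ i, (φ (b i) : Module.End K V) * (φ (b' i) : Module.End K V) := by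
      rw [hC, Finset.mul_sum, Finset.sum_mul]
      refine Finset.sum_congr rfl fun i _ => ?_
      rw [hφ, hφ, conj_mul]
    have h2 : ∀ i, (φ (b i) : Module.End K V) = ∑ j, trB L (b' j) (φ (b i)) • (b j : Module.End K V) := by
      intro i
      have h3 := congrArg (Subtype.val : L → Module.End K V) (hexp (φ (b i)))
      rw [h3]
      simp only [AddSubmonoidClass.coe_finsetSum]
      rfl
    have h3 : ∀ j, ∑ i, trB L (b' j) (φ (b i)) • (φ (b' i) : Module.End K V) = (b' j : Module.End K V) := by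
      intro j
      have h4 := congrArg (Subtype.val : L → Module.End K V) (hexp' (ψ (b' j)))
      have h5 : ρ g * (ψ (b' j) : Module.End K V) * ρ g⁻¹ = (b' j : Module.End K V) := by
        rw [hψ, conj_inv]
      rw [← h5]
      conv_rhs => rw [h4]
      simp only [AddSubmonoidClass.coe_finsetSum]
      rw [Finset.mul_sum, Finset.sum_mul]
      refine Finset.sum_congr rfl fun i _ => ?_
      have h6 : trB L (b' j) (φ (b i)) = trB L (ψ (b' j)) (b i) := by
        rw [trB_apply, trB_apply, ← trace_conj' ρ g ((ψ (b' j) : Module.End K V) * _), ← conj_mul, h5, hφ]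
      rw [h6, hφ]
      change _ = ρ g * (trB L (ψ (b' j)) (b i) • (b' i : Module.End K V)) * ρ g⁻¹
      rw [mul_smul_comm, smul_mul_assoc]
    rw [h1]
    have h4 : ∀ i, (φ (b i) : Module.End K V) * (φ (b' i) : Module.End K V) =
        ∑ j, (b j : Module.End K V) * (trB L (b' j) (φ (b i)) • (φ (b' i) : Module.End K V)) := by
      intro i
      rw [h2 i, Finset.sum_mul]
      refine Finset.sum_congr rfl fun j _ => ?_
      rw [smul_mul_assoc, mul_smul_comm]
    rw [Finset.sum_congr rfl fun i _ => h4 i, Finset.sum_comm, hC]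
    refine Finset.sum_congr rfl fun j _ => ?_
    rw [← Finset.mul_sum, h3]
  have hcomm : ∀ g, ρ g * C = C * ρ g := by
    intro g
    have h : ρ g⁻¹ * ρ g = 1 := by rw [← map_mul, inv_mul_cancel, map_one]
    calc ρ g * C = ρ g * C * (ρ g⁻¹ * ρ g) := by rw [h, mul_one]
      _ = (ρ g * C * ρ g⁻¹) * ρ g := by simp only [mul_assoc]
      _ = _ := by rw [hinv]
  -- the trace
  have htr : LinearMap.trace K V C = (finrank K L : K) := by
    rw [hC, map_sum]
    have h1 : ∀ i, LinearMap.trace K V ((b i : Module.End K V) * (b' i : Module.End K V)) = 1 := by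
      intro i
      rw [LinearMap.trace_mul_comm, ← trB_apply, hδ, if_pos rfl]
    rw [Finset.sum_congr rfl fun i _ => h1 i, Finset.sum_const, Finset.card_univ, Fintype.card_fin, nsmul_one]
  have hC0 : C ≠ 0 := by
    intro h
    rw [h, map_zero] at htr
    have h1 : finrank K L = 0 := by exact_mod_cast htr.symm
    have h2 : Subsingleton L := Module.finrank_zero_iff.mp h1
    apply hX₀'
    exact congrArg (Subtype.val : L → Module.End K V) (Subsingleton.elim (⟨X₀, hX₀⟩ : L) 0)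
  have hker : LinearMap.ker C = ⊥ := by
    rcases hirr (LinearMap.ker C) (fun g u hu => by
      rw [LinearMap.mem_ker] at hu ⊢
      rw [← Module.End.mul_apply, ← hcomm, Module.End.mul_apply, hu, map_zero]) with h | h
    · exact h
    · exfalso
      apply hC0
      exact LinearMap.ker_eq_top.mp h
  obtain ⟨D, hD⟩ : ∃ D : Module.End K V, D * C = 1 := by
    obtain ⟨e, he⟩ : ∃ e : V ≃ₗ[K] V, (e : V →ₗ[K] V) = C :=
      ⟨LinearEquiv.ofInjectiveEndo C (LinearMap.ker_eq_bot.mp hker), by ext; rfl⟩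
    refine ⟨(e.symm : V →ₗ[K] V), ?_⟩
    rw [← he]
    ext v
    simp
  refine ⟨finrank K L, fun i => b i, fun i => b' i, D, fun i => (b i).2, fun i => (b' i).2,
    fun g => by rw [← hC]; exact hcomm g, by rw [← hC]; exact hD, fun X hX => ?_⟩
  have h3 := congrArg (Subtype.val : L → Module.End K V) (hexp ⟨X, hX⟩)
  simp only [AddSubmonoidClass.coe_finsetSum] at h3
  exact h3

include hirr hst h0 in
/-- **The Casimir element.** -/
theorem exists_casimir (X₀ : Module.End K V) (hX₀ : X₀ ∈ L) (hX₀' : X₀ ≠ 0) :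
    ∃ (d : ℕ) (b b' : Fin d → Module.End K V) (D : Module.End K V), (∀ i, b i ∈ L) ∧ (∀ i, b' i ∈ L) ∧
      (∀ g, ρ g * (∑ i, b i * b' i) = (∑ i, b i * b' i) * ρ g) ∧ D * (∑ i, b i * b' i) = 1 := by
  obtain ⟨d, b, b', D, h1, h2, h3, h4, -⟩ := exists_casimir' ρ hirr L hst h0 X₀ hX₀ hX₀'
  exact ⟨d, b, b', D, h1, h2, h3, h4⟩

end

end Pool.Agent.H60OE
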