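import Mathlib

/-!
# The eigenvalues of a polynomial of a matrix, with multiplicities
-/

set_option autoImplicit false

namespace Pool.Agent.H60OE

open Matrix Polynomial

section

variable {K : Type*} [Field K] [IsAlgClosed K] {n : Type*} [Fintype n] [DecidableEq n]

theorem charpoly_eq_prod (M : Matrix n n K) : M.charpoly = (M.charpoly.roots.map fun z => X - C z).prod :=
  (IsAlgClosed.splits M.charpoly).eq_prod_roots_of_monic (Matrix.charpoly_monic M)

/-- the determinant of a polynomial of a matrix -/
theorem det_aeval (M : Matrix n n K) (p : K[X]) :
    (aeval M p).det = (M.charpoly.roots.map fun z => p.eval z).prod := by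
  have hC : ∀ a : K, (aeval M (C a)).det = (M.charpoly.roots.map fun z => (C a : K[X]).eval z).prod := by
    intro a
    have h1 : Multiset.card M.charpoly.roots = Fintype.card n := by
      rw [IsAlgClosed.card_roots_eq_natDegree, Matrix.charpoly_natDegree_eq_dim]
    rw [aeval_C, Algebra.algebraMap_eq_smul_one, Matrix.det_smul, Matrix.det_one, mul_one]
    simp [h1]
  have hX : ∀ a : K, (aeval M (X - C a)).det = (M.charpoly.roots.map fun z => (X - C a : K[X]).eval z).prod := by
    intro a
    have h1 : Multiset.card M.charpoly.roots = Fintype.card n := by
      rw [IsAlgClosed.card_roots_eq_natDegree, Matrix.charpoly_natDegree_eq_dim]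
    have h2 : (aeval M (X - C a)) = -(Matrix.scalar n a - M) := by
      rw [map_sub, aeval_X, aeval_C]
      simp [Matrix.algebraMap_eq_diagonal, Matrix.scalar_apply, Pi.algebraMap_def]
    rw [h2, Matrix.det_neg, ← Matrix.eval_charpoly, charpoly_eq_prod M, Polynomial.eval_multiset_prod,
      Multiset.map_map]
    rw [← charpoly_eq_prod M, ← h1]
    have h3 : ∀ S : Multiset K, (-1) ^ Multiset.card S * (S.map ((fun p : K[X] => eval a p) ∘ fun z => X - C z)).prod =
        (S.map fun z => (X - C a : K[X]).eval z).prod := by
      intro S
      induction S using Multiset.induction_on with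
      | empty => simp
      | cons z S ih =>
        rw [Multiset.card_cons, Multiset.map_cons, Multiset.prod_cons, Multiset.map_cons, Multiset.prod_cons, ← ih]
        simp only [Function.comp, eval_sub, eval_X, eval_C]
        ring
    exact h3 _
  have hmul : ∀ p q : K[X], (aeval M p).det = (M.charpoly.roots.map fun z => p.eval z).prod →
      (aeval M q).det = (M.charpoly.roots.map fun z => q.eval z).prod →
      (aeval M (p * q)).det = (M.charpoly.roots.map fun z => (p * q).eval z).prod := by
    intro p q hp hq
    rw [map_mul, Matrix.det_mul, hp, hq, ← Multiset.prod_map_mul]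
    simp
  rw [(IsAlgClosed.splits p).eq_prod_roots]
  refine hmul _ _ (hC _) ?_
  induction p.roots using Multiset.induction_on with
  | empty => simp
  | cons a S ih =>
    rw [Multiset.map_cons, Multiset.prod_cons]
    exact hmul _ _ (hX a) ih

/-- the characteristic polynomial of a polynomial of a matrix -/
theorem charpoly_aeval (M : Matrix n n K) (p : K[X]) :
    (aeval M p).charpoly = (M.charpoly.roots.map fun z => X - C (p.eval z)).prod := by
  apply Polynomial.funext
  intro c
  have h1 : (Matrix.scalar n c - aeval M p) = aeval M (C c - p) := by
    rw [map_sub, aeval_C]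
    simp [Matrix.algebraMap_eq_diagonal, Matrix.scalar_apply, Pi.algebraMap_def]
  rw [Matrix.eval_charpoly, h1, det_aeval, Polynomial.eval_multiset_prod, Multiset.map_map]
  simp

open scoped Classical in
/-- the multiplicity of the eigenvalue zero -/
theorem rootMult_aeval (M : Matrix n n K) (p : K[X]) :
    (aeval M p).charpoly.rootMultiplicity 0 = Multiset.card (M.charpoly.roots.filter fun z => p.eval z = 0) := by
  have h1 : (M.charpoly.roots.map fun z => X - C (p.eval z)).prod =
      ((M.charpoly.roots.map fun z => p.eval z).map fun z => X - C z).prod := by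
    rw [Multiset.map_map]
    rfl
  rw [← count_roots, charpoly_aeval, h1, roots_multiset_prod_X_sub_C, Multiset.count_map]
  congr 1
  exact Multiset.filter_congr fun z _ => eq_comm

end

end Pool.Agent.H60OE
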