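import Mathlib
import Pool.Agent.H60OE.Bil

/-!
# Engel's theorem, and the action of the graded pieces between two good eigenspaces
-/

set_option autoImplicit false
set_option linter.unusedSectionVars false

namespace Pool.Agent.H60OE

open Module LieModule

attribute [local instance 100] LieRing.ofAssociativeRing

section

variable {K : Type*} [Field K]

/-- **Engel's theorem** -/
theorem engel_end {M : Type*} [AddCommGroup M] [Module K M] [FiniteDimensional K M] [Nontrivial M]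
    (s : LieSubalgebra K (Module.End K M)) (h : ∀ X ∈ s, IsNilpotent X) : ∃ v : M, v ≠ 0 ∧ ∀ X ∈ s, X v = 0 := by
  have h1 : LieModule.IsNilpotent s M := (LieModule.isNilpotent_iff_forall' (R := K)).mpr fun x => h x x.2
  have h2 := LieModule.nontrivial_max_triv_of_isNilpotent K s M
  obtain ⟨⟨v, hv⟩, hv0⟩ := exists_ne (0 : maxTrivSubmodule K s M)
  refine ⟨v, fun h => hv0 (Subtype.ext h), fun X hX => ?_⟩
  exact (mem_maxTrivSubmodule K s M v).mp hv ⟨X, hX⟩

theorem nil_of_loc {M : Type*} [AddCommGroup M] [Module K M] [FiniteDimensional K M] (T : Module.End K M)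
    (U : Submodule K M) (h : ∀ u ∈ U, ∃ k : ℕ, (T ^ k) u = 0) : ∀ u ∈ U, (T ^ finrank K M) u = 0 := by
  intro u hu
  obtain ⟨k, hk⟩ := h u hu
  have h1 : u ∈ T.maxGenEigenspace 0 := by
    rw [Module.End.mem_maxGenEigenspace]
    exact ⟨k, by rw [zero_smul, sub_zero]; exact hk⟩
  rw [Module.End.maxGenEigenspace_eq_genEigenspace_finrank, Module.End.mem_genEigenspace_nat] at h1
  rw [zero_smul, sub_zero, LinearMap.mem_ker] at h1
  exact h1

theorem engel_sub {M : Type*} [AddCommGroup M] [Module K M] (t : LieSubalgebra K (Module.End K M))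
    (N : Submodule K M) [FiniteDimensional K N] (hne : N ≠ ⊥) (hst : ∀ T ∈ t, ∀ m ∈ N, T m ∈ N)
    (hnil : ∀ T ∈ t, ∀ m ∈ N, ∃ k : ℕ, (T ^ k) m = 0) : ∃ m ∈ N, m ≠ 0 ∧ ∀ T ∈ t, T m = 0 := by
  have : Nontrivial N := Submodule.nontrivial_iff_ne_bot.mpr hne
  let s : LieSubalgebra K (Module.End K N) :=
    { carrier := {T' | ∃ T ∈ t, ∀ m : N, ((T' m : N) : M) = T m}
      add_mem' := by
        rintro A B ⟨T, hT, hA⟩ ⟨S, hS, hB⟩
        refine ⟨T + S, add_mem hT hS, fun m => ?_⟩
        rw [LinearMap.add_apply, LinearMap.add_apply, Submodule.coe_add, hA, hB]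
      zero_mem' := ⟨0, zero_mem _, fun m => rfl⟩
      smul_mem' := by
        rintro c A ⟨T, hT, hA⟩
        refine ⟨c • T, t.smul_mem c hT, fun m => ?_⟩
        rw [LinearMap.smul_apply, LinearMap.smul_apply, Submodule.coe_smul, hA]
      lie_mem' := by
        rintro A B ⟨T, hT, hA⟩ ⟨S, hS, hB⟩
        refine ⟨⁅T, S⁆, t.lie_mem hT hS, fun m => ?_⟩
        rw [LieRing.of_associative_ring_bracket, LieRing.of_associative_ring_bracket, LinearMap.sub_apply,
          LinearMap.sub_apply, Module.End.mul_apply, Module.End.mul_apply, Module.End.mul_apply,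
          Module.End.mul_apply, Submodule.coe_sub, hA, hB, hB, hA] }
  obtain ⟨v, hv0, hv⟩ := engel_end s (by
    rintro A ⟨T, hT, hA⟩
    refine ⟨finrank K N, ?_⟩
    have h1 : ∀ u ∈ (⊤ : Submodule K N), ∃ k : ℕ, (A ^ k) u = 0 := by
      intro u _
      obtain ⟨k, hk⟩ := hnil T hT u u.2
      refine ⟨k, Subtype.ext ?_⟩
      have h2 : ∀ k : ℕ, (((A ^ k) u : N) : M) = (T ^ k) u := by
        intro k
        induction k with
        | zero => rfl
        | succ k ih => rw [pow_succ', pow_succ', Module.End.mul_apply, Module.End.mul_apply, hA, ih]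
      rw [h2, hk]
      rfl
    ext u : 1
    exact nil_of_loc A ⊤ h1 u Submodule.mem_top)
  refine ⟨v, v.2, fun h => hv0 (Subtype.ext h), fun T hT => ?_⟩
  have h1 := hv (T.restrict fun m hm => hst T hT m hm) ⟨T, hT, fun m => rfl⟩
  exact congrArg Subtype.val h1

variable {V : Type*} [AddCommGroup V] [Module K V] [FiniteDimensional K V] {f f' : Module.End K V}
  {L : Submodule K (Module.End K V)}

/-- the part of degree one -/
def Dat.L1 [IsAlgClosed K] (h : Dat f f' L) : LieSubalgebra K (Module.End K V) where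
  carrier := {X | X ∈ L ⊓ (cj f f').maxGenEigenspace 1}
  add_mem' := fun hX hY => (L ⊓ (cj f f').maxGenEigenspace 1).add_mem hX hY
  zero_mem' := (L ⊓ (cj f f').maxGenEigenspace 1).zero_mem
  smul_mem' := fun c _ hX => Submodule.smul_mem (L ⊓ (cj f f').maxGenEigenspace 1) c hX
  lie_mem' := by
    intro X Y hX hY
    have h1 := h.brd 1 1 X Y hX hY
    rw [mul_one] at h1
    exact h1

/-- the adjoint action of the part of degree one -/
def Dat.A1 [IsAlgClosed K] (h : Dat f f' L) : LieSubalgebra K (Module.End K (Module.End K V)) where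
  carrier := {T | ∃ Z ∈ L ⊓ (cj f f').maxGenEigenspace 1, ∀ Y, T Y = Z * Y - Y * Z}
  add_mem' := by
    rintro A B ⟨Z, hZ, hA⟩ ⟨W, hW, hB⟩
    refine ⟨Z + W, add_mem hZ hW, fun Y => ?_⟩
    rw [LinearMap.add_apply, hA, hB]
    noncomm_ring
  zero_mem' := ⟨0, zero_mem _, fun Y => by rw [zero_mul, mul_zero, sub_zero]; rfl⟩
  smul_mem' := by
    rintro c A ⟨Z, hZ, hA⟩
    refine ⟨c • Z, Submodule.smul_mem _ c hZ, fun Y => ?_⟩
    rw [LinearMap.smul_apply, hA, smul_mul_assoc, mul_smul_comm, smul_sub]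
  lie_mem' := by
    rintro A B ⟨Z, hZ, hA⟩ ⟨W, hW, hB⟩
    have h1 := h.brd 1 1 Z W hZ hW
    rw [mul_one] at h1
    refine ⟨_, h1, fun Y => ?_⟩
    rw [LieRing.of_associative_ring_bracket, LinearMap.sub_apply, Module.End.mul_apply, Module.End.mul_apply, hA, hB,
      hB, hA]
    noncomm_ring

theorem ad_kill (T : Module.End K (Module.End K V)) (Z : Module.End K V) (hT : ∀ Y, T Y = Z * Y - Y * Z)
    (U : Submodule K V) (hZ : ∀ u ∈ U, Z u ∈ U) : ∀ (M i j : ℕ), i + j = M → ∀ X : Module.End K V,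
      (∀ u ∈ U, (Z ^ i) (X u) = 0) → (∀ u ∈ U, X ((Z ^ j) u) = 0) → ∀ u ∈ U, ((T ^ M) X) u = 0 := by
  have hZk : ∀ (k : ℕ), ∀ u ∈ U, (Z ^ k) u ∈ U := by
    intro k
    induction k with
    | zero => intro u hu; exact hu
    | succ k ih => intro u hu; rw [pow_succ', Module.End.mul_apply]; exact hZ _ (ih u hu)
  have hT0 : ∀ (M : ℕ) (X : Module.End K V), (∀ u ∈ U, X u = 0) → ∀ u ∈ U, ((T ^ M) X) u = 0 := by
    intro M
    induction M with
    | zero => intro X hX u hu; exact hX u hu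
    | succ M ih =>
      intro X hX u hu
      rw [pow_succ, Module.End.mul_apply]
      refine ih (T X) (fun u hu => ?_) u hu
      rw [hT, LinearMap.sub_apply, Module.End.mul_apply, Module.End.mul_apply, hX u hu, hX _ (hZ u hu), map_zero,
        sub_zero]
  intro M
  induction M with
  | zero =>
    intro i j hij X hX _ u hu
    have hi : i = 0 := by omega
    subst hi
    exact hX u hu
  | succ M ih =>
    intro i j hij X hX hX' u hu
    rcases i with _ | i
    · exact hT0 _ X hX u hu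
    rcases j with _ | j
    · exact hT0 _ X hX' u hu
    rw [pow_succ, Module.End.mul_apply, hT, map_sub, LinearMap.sub_apply]
    rw [ih i (j + 1) (by omega) (Z * X) ?_ ?_ u hu, ih (i + 1) j (by omega) (X * Z) ?_ ?_ u hu, sub_zero]
    · intro u hu
      rw [Module.End.mul_apply]
      exact hX _ (hZ u hu)
    · intro u hu
      have h1 := hX' u hu
      rw [pow_succ', Module.End.mul_apply] at h1
      rw [Module.End.mul_apply]
      exact h1
    · intro u hu
      have h1 := hX u hu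
      rw [pow_succ, Module.End.mul_apply] at h1
      rw [Module.End.mul_apply]
      exact h1
    · intro u hu
      rw [Module.End.mul_apply, hX' u hu, map_zero]

theorem trace_ad (T : Module.End K (Module.End K V)) (Z : Module.End K V) (hT : ∀ Y, T Y = Z * Y - Y * Z) :
    ∀ (M : ℕ) (X Y : Module.End K V), LinearMap.trace K V (X * (T ^ M) Y) =
      (-1) ^ M * LinearMap.trace K V ((T ^ M) X * Y) := by
  have h1 : ∀ X Y : Module.End K V, LinearMap.trace K V (X * T Y) = - LinearMap.trace K V (T X * Y) := by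
    intro X Y
    rw [hT, hT, mul_sub, sub_mul, map_sub, map_sub]
    have h2 : LinearMap.trace K V (X * (Y * Z)) = LinearMap.trace K V (Z * X * Y) := by
      rw [← mul_assoc, LinearMap.trace_mul_comm, mul_assoc]
    rw [h2, ← mul_assoc]
    ring
  intro M
  induction M with
  | zero => intro X Y; simp
  | succ M ih =>
    intro X Y
    have h3 : (T ^ (M + 1)) Y = T ((T ^ M) Y) := by rw [pow_succ', Module.End.mul_apply]
    have h4 : (T ^ (M + 1)) X = (T ^ M) (T X) := by rw [pow_succ, Module.End.mul_apply]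
    rw [h3, h4, h1, ih (T X) Y, pow_succ]
    ring

/-- the trace form represents functionals -/
theorem Dat.rep (h : Dat f f' L) (T : Module.End K V) :
    ∃ Y ∈ L, ∀ X ∈ L, LinearMap.trace K V (X * Y) = LinearMap.trace K V (X * T) := by
  obtain ⟨ψ, hψ⟩ : ∃ ψ : L →ₗ[K] Module.Dual K L, ∀ Y X : L, ψ Y X =
      LinearMap.trace K V ((X : Module.End K V) * (Y : Module.End K V)) :=
    ⟨LinearMap.mk₂ K (fun Y X : L => LinearMap.trace K V ((X : Module.End K V) * (Y : Module.End K V)))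
      (fun X Y Z => by simp [mul_add]) (fun c X Y => by simp)
      (fun X Y Z => by simp [add_mul]) (fun c X Y => by simp), fun _ _ => rfl⟩
  have hinj : Function.Injective ψ := by
    rw [injective_iff_map_eq_zero]
    intro Y hY
    apply Subtype.ext
    refine h.nd Y Y.2 fun X hX => ?_
    have h1 := hψ Y ⟨X, hX⟩
    rw [hY, LinearMap.zero_apply] at h1
    rw [LinearMap.trace_mul_comm]
    exact h1.symm
  have hsurj : Function.Surjective ψ :=
    (LinearMap.injective_iff_surjective_of_finrank_eq_finrank (Subspace.dual_finrank_eq).symm).mp hinj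
  obtain ⟨Y, hY⟩ := hsurj ((LinearMap.trace K V).comp ((LinearMap.mulRight K T).comp L.subtype))
  refine ⟨Y, Y.2, fun X hX => ?_⟩
  have h1 := hψ Y ⟨X, hX⟩
  rw [hY] at h1
  exact h1.symm

variable [IsAlgClosed K]

theorem Dat.comp (h : Dat f f' L) (a b : K) (hab : b * a = 1) (Y : Module.End K V) (hY : Y ∈ L) :
    ∃ Y' ∈ L ⊓ (cj f f').maxGenEigenspace a, ∀ X ∈ L ⊓ (cj f f').maxGenEigenspace b,
      LinearMap.trace K V (X * Y') = LinearMap.trace K V (X * Y) := by
  rw [h.dec] at hY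
  induction hY using Submodule.iSup_induction' with
  | mem c Y hY =>
    by_cases hc : c = a
    · rw [hc] at hY
      exact ⟨Y, hY, fun X _ => rfl⟩
    · refine ⟨0, zero_mem _, fun X hX => ?_⟩
      have hb0 : b ≠ 0 := left_ne_zero_of_mul_eq_one hab
      have h1 : b * c ≠ 1 := by
        intro h1
        exact hc (mul_left_cancel₀ hb0 (h1.trans hab.symm))
      rw [trace_zero f f' h.inv b c h1 X Y hX.2 hY.2, mul_zero, map_zero]
  | zero => exact ⟨0, zero_mem _, fun X _ => rfl⟩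
  | add Y₁ Y₂ _ _ h1 h2 =>
    obtain ⟨A, hA, hA'⟩ := h1
    obtain ⟨B, hB, hB'⟩ := h2
    refine ⟨A + B, add_mem hA hB, fun X hX => ?_⟩
    rw [mul_add, mul_add, map_add, map_add, hA' X hX, hB' X hX]

/-- **The graded pieces of degree not a root of unity vanish between good eigenspaces.** -/
theorem Dat.kill (h : Dat f f' L) (z b : K) (hb0 : b ≠ 0) (hb : ∀ j, 1 ≤ j → j ≤ finrank K V → b ^ j ≠ 1)
    (h1 : ∀ Z ∈ L ⊓ (cj f f').maxGenEigenspace 1, ∀ u ∈ f.maxGenEigenspace z, ∃ k : ℕ, (Z ^ k) u = 0)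
    (h2 : ∀ Z ∈ L ⊓ (cj f f').maxGenEigenspace 1, ∀ u ∈ f.maxGenEigenspace (b * z), ∃ k : ℕ, (Z ^ k) u = 0) :
    ∀ X ∈ L ⊓ (cj f f').maxGenEigenspace b, ∀ u ∈ f.maxGenEigenspace z, X u = 0 := by
  obtain ⟨a, ha⟩ : ∃ a, a = b⁻¹ := ⟨_, rfl⟩
  have hba : b * a = 1 := by rw [ha, mul_inv_cancel₀ hb0]
  have hab : a * b = 1 := by rw [mul_comm]; exact hba
  have ha0 : a ≠ 0 := left_ne_zero_of_mul_eq_one hab
  have ha1 : ∀ j, 1 ≤ j → j ≤ finrank K V → a ^ j ≠ 1 := by
    intro j hj hj' h0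
    apply hb j hj hj'
    have h3 : (b * a) ^ j = 1 := by rw [hba, one_pow]
    rwa [mul_pow, h0, mul_one] at h3
  have hzst : ∀ Z ∈ L ⊓ (cj f f').maxGenEigenspace 1, ∀ c, ∀ u ∈ f.maxGenEigenspace c, Z u ∈ f.maxGenEigenspace c := by
    intro Z hZ c u hu
    have h3 := mem_pair f f' h.inv 1 c Z u hZ.2 hu
    rwa [one_mul] at h3
  let N : Submodule K (Module.End K V) :=
    { carrier := {Y | Y ∈ L ⊓ (cj f f').maxGenEigenspace a ∧ ∀ X ∈ L ⊓ (cj f f').maxGenEigenspace b,
        (∀ u ∈ f.maxGenEigenspace z, X u = 0) → LinearMap.trace K V (X * Y) = 0}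
      add_mem' := by
        rintro Y Y' ⟨hY, hY'⟩ ⟨hY1, hY1'⟩
        refine ⟨add_mem hY hY1, fun X hX hX' => ?_⟩
        rw [mul_add, map_add, hY' X hX hX', hY1' X hX hX', add_zero]
      zero_mem' := ⟨zero_mem _, fun X _ _ => by rw [mul_zero, map_zero]⟩
      smul_mem' := by
        rintro c Y ⟨hY, hY'⟩
        refine ⟨Submodule.smul_mem _ c hY, fun X hX hX' => ?_⟩
        rw [mul_smul_comm, map_smul, hY' X hX hX', smul_zero] }
  -- stability
  have hTL : ∀ T ∈ h.A1, ∀ c, ∀ X ∈ L ⊓ (cj f f').maxGenEigenspace c, T X ∈ L ⊓ (cj f f').maxGenEigenspace c := by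
    rintro T ⟨Z, hZ, hT⟩ c X hX
    have h3 := h.brd 1 c Z X hZ hX
    rw [one_mul] at h3
    rw [hT]
    exact h3
  have hTLk : ∀ T ∈ h.A1, ∀ c, ∀ X ∈ L ⊓ (cj f f').maxGenEigenspace c, ∀ M : ℕ,
      (T ^ M) X ∈ L ⊓ (cj f f').maxGenEigenspace c := by
    intro T hT c X hX M
    induction M with
    | zero => exact hX
    | succ M ih => rw [pow_succ', Module.End.mul_apply]; exact hTL T hT c _ ih
  by_cases hN : N = ⊥
  · intro X hX u hu
    by_contra hne
    obtain ⟨φ, hφ⟩ : ∃ φ : Module.Dual K V, φ (X u) ≠ 0 := by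
      by_contra hcon
      push Not at hcon
      exact hne ((Module.forall_dual_apply_eq_zero_iff K _).mp hcon)
    obtain ⟨Y, hY, hY'⟩ := h.rep (φ.smulRight u)
    obtain ⟨Y', hY1, hY1'⟩ := h.comp a b hba Y hY
    have htr : ∀ X' : Module.End K V, LinearMap.trace K V (X' * φ.smulRight u) = φ (X' u) := by
      intro X'
      have h3 : X' * φ.smulRight u = φ.smulRight (X' u) := by
        ext v
        simp
      rw [h3]
      simp
    have hYN : Y' ∈ N := by
      refine ⟨hY1, fun X' hX' hX0 => ?_⟩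
      rw [hY1' X' hX', hY' X' hX'.1, htr, hX0 u hu, map_zero]
    rw [hN, Submodule.mem_bot] at hYN
    apply hφ
    rw [← htr X, ← hY' X hX.1, ← hY1' X hX, hYN, mul_zero, map_zero]
  · exfalso
    obtain ⟨Y, hY, hY0, hYc⟩ := engel_sub h.A1 N hN (by
      rintro T hT Y ⟨hY, hY'⟩
      refine ⟨hTL T hT a Y hY, fun X hX hX' => ?_⟩
      obtain ⟨Z, hZ, hTZ⟩ := hT
      have h3 := trace_ad T Z hTZ 1 X Y
      rw [pow_one] at h3
      rw [h3, hY' (T X) (hTL T ⟨Z, hZ, hTZ⟩ b X hX) (fun u hu => ?_), mul_zero]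
      rw [hTZ, LinearMap.sub_apply, Module.End.mul_apply, Module.End.mul_apply, hX' u hu,
        hX' _ (hzst Z hZ z u hu), map_zero, sub_zero]) (by
      rintro T hT Y ⟨hY, hY'⟩
      refine ⟨finrank K V + finrank K V, ?_⟩
      refine h.ndd a _ (hTLk T hT a Y hY _) fun c hc X hX => ?_
      have hcb : c = b := mul_left_cancel₀ ha0 (hc.trans hab.symm)
      rw [hcb] at hX
      obtain ⟨Z, hZ, hTZ⟩ := hT
      rw [LinearMap.trace_mul_comm, trace_ad T Z hTZ, hY' _ (hTLk T ⟨Z, hZ, hTZ⟩ b X hX _) ?_, mul_zero]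
      refine ad_kill T Z hTZ (f.maxGenEigenspace z) (hzst Z hZ z) _ (finrank K V) (finrank K V) rfl X ?_ ?_
      · intro u hu
        exact nil_of_loc Z _ (h2 Z hZ) _ (mem_pair f f' h.inv b z X u hX.2 hu)
      · intro u hu
        rw [nil_of_loc Z _ (h1 Z hZ) u hu, map_zero])
    apply hY0
    refine h.noinv a ha0 ha1 Y hY.1 fun Z hZ => ?_
    have h3 := hYc ⟨⟨fun Y => Z * Y - Y * Z, fun A B => by noncomm_ring⟩, fun c A => by
      simp only [RingHom.id_apply]
      rw [mul_smul_comm, smul_mul_assoc, smul_sub]⟩ ⟨Z, hZ, fun _ => rfl⟩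
    exact sub_eq_zero.mp h3

end

end Pool.Agent.H60OE
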