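import Mathlib
import Pool.Agent.H60OE.Cnt

/-!
# Eigenvalues which do not move in a family of matrices
-/

set_option autoImplicit false

namespace Pool.Agent.H60OE

open Matrix Polynomial

section

theorem map_aeval {S T : Type*} [CommRing S] [CommRing T] {n : Type*} [Fintype n] [DecidableEq n] (f : S →+* T)
    (M : Matrix n n S) (p : S[X]) : (aeval M p).map f = aeval (M.map f) (p.map f) := by
  induction p using Polynomial.induction_on' with
  | add p q hp hq =>
    rw [map_add, Polynomial.map_add, map_add, ← hp, ← hq]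
    exact Matrix.map_add f (map_add f) _ _
  | monomial k a =>
    rw [Polynomial.map_monomial, aeval_monomial, aeval_monomial, Algebra.algebraMap_eq_smul_one,
      Algebra.algebraMap_eq_smul_one, smul_mul_assoc, smul_mul_assoc, one_mul, one_mul]
    have h1 : (M ^ k).map f = (M.map f) ^ k := map_pow f.mapMatrix M k
    rw [← h1]
    ext i j
    simp

theorem rootMult_eq {K : Type*} [Field K] {p : K[X]} (hp : p.Monic) (N : ℕ) :
    N ≤ p.rootMultiplicity 0 ↔ ∀ j < N, p.coeff j = 0 := by
  rw [le_rootMultiplicity_iff hp.ne_zero, map_zero, sub_zero, X_pow_dvd_iff]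

end

section

variable {G : Type*} [Field G] [IsAlgClosed G] {n : Type*} [Fintype n] [DecidableEq n]

open scoped Classical in
/-- **Persistence.** Let `Mt` be a family of matrices with parameter `t` and `q` a polynomial with constant
coefficients. If the multiplicity of the eigenvalue zero of `q(Mt)` is at least `N`, and at `t = 0` it is at most
`N`, then the eigenvalues `z` at `t = 0` with `q(z) = 0` are eigenvalues of `Mt`. -/
theorem persist (Mt : Matrix n n (PowerSeries G)) (g : Matrix n n G)
    (hg : Mt.map (PowerSeries.constantCoeff (R := G)) = g) (q : G[X]) (hq : q ≠ 0) (N : ℕ)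
    (hN : ∀ j < N, (aeval Mt (q.map (PowerSeries.C (R := G)))).charpoly.coeff j = 0)
    (hN' : (aeval g q).charpoly.coeff N ≠ 0) (z : G) (hz : g.charpoly.IsRoot z) (hqz : q.eval z = 0) :
    Mt.charpoly.IsRoot (PowerSeries.C z) := by
  obtain ⟨ι, hinj⟩ : ∃ ι : PowerSeries G →+* AlgebraicClosure (FractionRing (PowerSeries G)),
      Function.Injective ι :=
    ⟨(algebraMap (FractionRing (PowerSeries G)) (AlgebraicClosure (FractionRing (PowerSeries G)))).comp
      (algebraMap (PowerSeries G) (FractionRing (PowerSeries G))),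
      (algebraMap (FractionRing (PowerSeries G)) (AlgebraicClosure (FractionRing (PowerSeries G)))).injective.comp
        (IsFractionRing.injective (PowerSeries G) (FractionRing (PowerSeries G)))⟩
  obtain ⟨c, hc⟩ : ∃ c : G →+* AlgebraicClosure (FractionRing (PowerSeries G)), c = ι.comp (PowerSeries.C (R := G)) :=
    ⟨_, rfl⟩
  have hcinj : Function.Injective c := c.injective
  -- the eigenvalues over the algebraic closure
  obtain ⟨R, hR⟩ : ∃ R, R = (Mt.map ι).charpoly.roots.filter fun y => (q.map c).eval y = 0 := ⟨_, rfl⟩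
  have hcard : N ≤ Multiset.card R := by
    rw [hR, ← rootMult_aeval, rootMult_eq (Matrix.charpoly_monic _)]
    intro j hj
    have h1 : aeval (Mt.map ι) (q.map c) = (aeval Mt (q.map (PowerSeries.C (R := G)))).map ι := by
      rw [map_aeval, Polynomial.map_map, hc]
    rw [h1, Matrix.charpoly_map, coeff_map, hN j hj, map_zero]
  -- they are constants
  have hconst : ∀ y ∈ R, ∃ a : G, q.eval a = 0 ∧ c a = y := by
    intro y hy
    rw [hR, Multiset.mem_filter] at hy
    have h1 : y ∈ (q.map c).roots := by
      rw [mem_roots ((Polynomial.map_ne_zero_iff hcinj).mpr hq)]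
      exact hy.2
    have h2 : (q.map c).roots = q.roots.map c := (IsAlgClosed.splits q).roots_map c
    rw [h2, Multiset.mem_map] at h1
    obtain ⟨a, ha, hay⟩ := h1
    exact ⟨a, ((mem_roots hq).mp ha).eq_zero, hay⟩
  obtain ⟨S, hS, hSq⟩ : ∃ S : Multiset G, S.map c = R ∧ ∀ a ∈ S, q.eval a = 0 := by
    clear hcard hR
    induction R using Multiset.induction_on with
    | empty => exact ⟨0, rfl, fun a ha => absurd ha (Multiset.notMem_zero a)⟩
    | cons y R ih =>
      obtain ⟨S, hS, hSq⟩ := ih fun y' hy' => hconst y' (Multiset.mem_cons_of_mem hy')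
      obtain ⟨a, ha, hay⟩ := hconst y (Multiset.mem_cons_self y R)
      refine ⟨a ::ₘ S, by rw [Multiset.map_cons, hS, hay], fun b hb => ?_⟩
      rcases Multiset.mem_cons.mp hb with rfl | hb
      · exact ha
      · exact hSq b hb
  obtain ⟨P, hP⟩ : ∃ P : G[X], P = (S.map fun a => X - C a).prod := ⟨_, rfl⟩
  have hPm : P.Monic := hP ▸ monic_multiset_prod_of_monic _ _ fun a _ => monic_X_sub_C a
  have hdvd : P.map (PowerSeries.C (R := G)) ∣ Mt.charpoly := by
    rw [← Polynomial.map_dvd_map ι hinj (hPm.map _), Polynomial.map_map, ← hc, ← Matrix.charpoly_map]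
    have h1 : P.map c = (R.map fun y => X - C y).prod := by
      rw [hP, ← hS, Polynomial.map_multiset_prod, Multiset.map_map, Multiset.map_map]
      congr 1
      refine Multiset.map_congr rfl fun a _ => ?_
      simp
    rw [h1]
    refine (Multiset.prod_dvd_prod_of_le (Multiset.map_le_map (hR ▸ Multiset.filter_le _ _))).trans ?_
    exact prod_multiset_X_sub_C_dvd _
  have hdvd0 : P ∣ g.charpoly := by
    have h1 := Polynomial.map_dvd (PowerSeries.constantCoeff (R := G)) hdvd
    rw [Polynomial.map_map, ← Matrix.charpoly_map, hg] at h1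
    have h2 : (PowerSeries.constantCoeff (R := G)).comp (PowerSeries.C (R := G)) = RingHom.id G := by
      ext a
      simp
    rwa [h2, Polynomial.map_id] at h1
  have hle : S ≤ g.charpoly.roots.filter fun y => q.eval y = 0 := by
    rw [Multiset.le_filter]
    refine ⟨?_, hSq⟩
    have h1 := roots.le_of_dvd (Matrix.charpoly_monic g).ne_zero hdvd0
    rwa [hP, roots_multiset_prod_X_sub_C] at h1
  have hle2 : Multiset.card (g.charpoly.roots.filter fun y => q.eval y = 0) ≤ Multiset.card S := by
    have h1 : Multiset.card S = Multiset.card R := by rw [← hS, Multiset.card_map]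
    rw [h1, ← rootMult_aeval]
    refine le_trans ?_ hcard
    by_contra hcon
    push Not at hcon
    exact hN' ((rootMult_eq (Matrix.charpoly_monic _) (N + 1)).mp hcon N (Nat.lt_succ_self N))
  have hSeq := Multiset.eq_of_le_of_card_le hle hle2
  have hzS : z ∈ S := by
    rw [hSeq, Multiset.mem_filter, mem_roots (Matrix.charpoly_monic g).ne_zero]
    exact ⟨hz, hqz⟩
  have h1 : (P.map (PowerSeries.C (R := G))).eval (PowerSeries.C z) = 0 := by
    rw [eval_map, eval₂_hom]
    have h2 : P.eval z = 0 := by
      rw [hP, eval_multiset_prod, Multiset.map_map]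
      refine Multiset.prod_eq_zero ?_
      rw [Multiset.mem_map]
      exact ⟨z, hzS, by simp⟩
    rw [h2, map_zero]
  obtain ⟨T, hT⟩ := hdvd
  rw [IsRoot.def, hT, eval_mul, h1, zero_mul]

/-- **First order.** If `z` is an eigenvalue of the family `Mt = g + t g X + ...` then there is an eigenvector `v` of
`g` for `z` such that `w X v = 0` for all left eigenvectors `w` of `g` for `z`, `z ≠ 0`. -/
theorem first_order (Mt : Matrix n n (PowerSeries G)) (g X : Matrix n n G)
    (h0 : ∀ i j, PowerSeries.coeff 0 (Mt i j) = g i j) (h1 : ∀ i j, PowerSeries.coeff 1 (Mt i j) = (g * X) i j)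
    (z : G) (hz0 : z ≠ 0) (hz : Mt.charpoly.IsRoot (PowerSeries.C z)) :
    ∃ v : n → G, v ≠ 0 ∧ g *ᵥ v = z • v ∧ ∀ w : n → G, w ᵥ* g = z • w → w ⬝ᵥ (X *ᵥ v) = 0 := by
  have hdet : (Matrix.scalar n (PowerSeries.C z) - Mt).det = 0 := by
    rw [← Matrix.eval_charpoly]
    exact hz
  obtain ⟨u, hu0, hu⟩ := Matrix.exists_mulVec_eq_zero_iff.mpr hdet
  have hu' : Mt *ᵥ u = (PowerSeries.C z) • u := by
    rw [Matrix.sub_mulVec, sub_eq_zero] at hu
    rw [← hu]
    ext i : 1
    simp [Matrix.scalar_apply, Matrix.mulVec_diagonal]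
  have hex : ∃ m : ℕ, ∃ i, PowerSeries.coeff m (u i) ≠ 0 := by
    by_contra hcon
    push Not at hcon
    apply hu0
    funext i
    ext m
    rw [hcon m i]
    simp
  classical
  obtain ⟨m, hm⟩ : ∃ m, m = Nat.find hex := ⟨_, rfl⟩
  have hlow : ∀ k < m, ∀ i, PowerSeries.coeff k (u i) = 0 := by
    intro k hk i
    rw [hm] at hk
    have := Nat.find_min hex hk
    push Not at this
    exact this i
  have hmne : ∃ i, PowerSeries.coeff m (u i) ≠ 0 := hm ▸ Nat.find_spec hex
  have hcoef : ∀ (k : ℕ) (i : n), z * PowerSeries.coeff k (u i) =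
      ∑ j, ∑ p ∈ Finset.HasAntidiagonal.antidiagonal k, PowerSeries.coeff p.1 (Mt i j) *
        PowerSeries.coeff p.2 (u j) := by
    intro k i
    have h2 := congrArg (PowerSeries.coeff k) (congrFun hu' i)
    rw [Matrix.mulVec, dotProduct, map_sum, Pi.smul_apply, smul_eq_mul, PowerSeries.coeff_C_mul] at h2
    rw [← h2]
    exact Finset.sum_congr rfl fun j _ => PowerSeries.coeff_mul _ _ _
  obtain ⟨v, hv⟩ : ∃ v : n → G, v = fun i => PowerSeries.coeff m (u i) := ⟨_, rfl⟩
  obtain ⟨v', hv'⟩ : ∃ v' : n → G, v' = fun i => PowerSeries.coeff (m + 1) (u i) := ⟨_, rfl⟩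
  have hgv : g *ᵥ v = z • v := by
    funext i
    rw [Pi.smul_apply, smul_eq_mul, hv, hcoef m i, Matrix.mulVec, dotProduct]
    refine Finset.sum_congr rfl fun j _ => ?_
    rw [Finset.sum_eq_single (0, m)]
    · rw [h0]
    · rintro ⟨a, b⟩ hab hne
      rw [Finset.HasAntidiagonal.mem_antidiagonal] at hab
      simp only at hab ⊢
      have hb : b < m := by
        rcases Nat.eq_zero_or_pos a with ha | ha
        · exfalso
          apply hne
          rw [ha, zero_add] at hab
          rw [ha, hab]
        · omega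
      rw [hlow b hb, mul_zero]
    · intro h
      exact absurd (Finset.HasAntidiagonal.mem_antidiagonal.mpr (zero_add m)) h
  have hgv' : g *ᵥ v' + (g * X) *ᵥ v = z • v' := by
    funext i
    rw [Pi.smul_apply, smul_eq_mul, Pi.add_apply, hv', hcoef (m + 1) i, Matrix.mulVec, dotProduct, Matrix.mulVec,
      dotProduct, ← Finset.sum_add_distrib]
    refine Finset.sum_congr rfl fun j _ => ?_
    have h2 : ∑ p ∈ Finset.HasAntidiagonal.antidiagonal (m + 1), PowerSeries.coeff p.1 (Mt i j) *
        PowerSeries.coeff p.2 (u j) = ∑ p ∈ ({(0, m + 1), (1, m)} : Finset (ℕ × ℕ)),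
        PowerSeries.coeff p.1 (Mt i j) * PowerSeries.coeff p.2 (u j) := by
      symm
      refine Finset.sum_subset ?_ ?_
      · intro p hp
        rw [Finset.mem_insert, Finset.mem_singleton] at hp
        rw [Finset.HasAntidiagonal.mem_antidiagonal]
        rcases hp with rfl | rfl <;> simp <;> omega
      · rintro ⟨a, b⟩ hab hne
        rw [Finset.HasAntidiagonal.mem_antidiagonal] at hab
        simp only at hab
        have hb : b < m := by
          by_contra hb
          push Not at hb
          apply hne
          rw [Finset.mem_insert, Finset.mem_singleton]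
          rcases Nat.eq_zero_or_pos a with ha | ha
          · left
            rw [ha, zero_add] at hab
            rw [ha, hab]
          · right
            have h3 : a = 1 := by omega
            have h4 : b = m := by omega
            rw [h3, h4]
        rw [hlow b hb, mul_zero]
    rw [h2, Finset.sum_insert (by simp), Finset.sum_singleton, h0, h1, hv]
  refine ⟨v, ?_, hgv, fun w hw => ?_⟩
  · intro h
    obtain ⟨i, hi⟩ := hmne
    apply hi
    have := congrFun h i
    rw [hv] at this
    exact this
  · have h2 := congrArg (fun y => w ⬝ᵥ y) hgv'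
    simp only [Matrix.dotProduct_mulVec, dotProduct_add] at h2
    rw [hw, dotProduct_smul, smul_dotProduct, ← Matrix.vecMul_vecMul, hw, Matrix.smul_vecMul, smul_dotProduct,
      ← Matrix.dotProduct_mulVec, smul_eq_mul, smul_eq_mul] at h2
    have h3 : z * (w ⬝ᵥ (X *ᵥ v)) = 0 := by linear_combination h2
    rcases mul_eq_zero.mp h3 with h4 | h4
    · exact absurd h4 hz0
    · exact h4

end

end Pool.Agent.H60OE
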