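import Mathlib
import Pool.Agent.H60OE.Pers
import Pool.Agent.H60OE.Cas
import Pool.Agent.H60OE.Lin
import Pool.Agent.H40LT.HalfNull

/-!
# Isolated eigenvalues and tangent vectors
-/

set_option autoImplicit false
set_option linter.unusedSectionVars false
set_option linter.style.haveILetI false

namespace Pool.Agent.H60OE

open Module Matrix Polynomial Pool.Agent.H40GO Pool.Agent.H40LT

attribute [local instance 100] LieRing.ofAssociativeRing

section

variable {F : Type*} [Field F] [CharZero F] {G : Type*} [Field G] [Algebra F G] [IsAlgClosed G]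
  {Γ : Type*} [Group Γ] {m n : Type*} [Fintype m] [DecidableEq m] [Fintype n] [DecidableEq n]

/-- an isolated eigenvalue: it is simple and its square is not a product of two other eigenvalues -/
def Iso (M : Matrix n n G) (z : G) : Prop :=
  M.charpoly.rootMultiplicity z = 1 ∧
    ∀ x y, M.charpoly.IsRoot x → M.charpoly.IsRoot y → x ≠ z → y ≠ z → x * y ≠ z ^ 2

/-- the family of matrices attached to a tangent vector -/
theorem exists_family (W : Γ →* Matrix m m F) (ρ : Γ →* Matrix n n F) (x₀ : Γ) (Y : Matrix n n F)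
    (hY : IsTan W ρ Y) (N k : ℕ) (h : ∀ x, MZ N (aeval (ρ x ^ k) (W x ^ k).charpoly)) :
    ∃ Mt : Matrix n n (PowerSeries G), (∀ i j, PowerSeries.coeff 0 (Mt i j) = bc G ρ x₀ i j) ∧
      (∀ i j, PowerSeries.coeff 1 (Mt i j) = (bc G ρ x₀ * Y.map (algebraMap F G)) i j) ∧
      ∀ j < N, (aeval Mt ((((bc G W x₀ ^ k).charpoly).comp (X ^ k)).map
        (PowerSeries.C (R := G)))).charpoly.coeff j = 0 := by
  obtain ⟨D, hD, hD'⟩ := hY
  obtain ⟨ε, hε⟩ : ∃ ε : RR W ρ →+* G, ∀ r : RR W ρ, ε r = algebraMap F G ((r : Γ → F) x₀) :=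
    ⟨(algebraMap F G).comp ((ev (RR W ρ) x₀ : RR W ρ →ₐ[F] F) : RR W ρ →+* F), fun _ => rfl⟩
  obtain ⟨φ, hφ⟩ : ∃ φ : RR W ρ →+* PowerSeries G, φ = (PowerSeries.map ε).comp (expD D) := ⟨_, rfl⟩
  have hc : ∀ k r, PowerSeries.coeff k (φ r) =
      algebraMap F G ((k.factorial : F)⁻¹) * ε ((D : RR W ρ → RR W ρ)^[k] r) := by
    intro k r
    rw [hφ]
    change PowerSeries.coeff k (PowerSeries.map ε (PowerSeries.mk fun k => ek D k r)) = _
    rw [PowerSeries.coeff_map, PowerSeries.coeff_mk]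
    unfold ek
    rw [hε, hε, ← map_mul]
    rfl
  have h0 : ∀ k : ℕ, (D : RR W ρ → RR W ρ)^[k] 0 = 0 := by
    intro k
    induction k with
    | zero => rfl
    | succ k ih => rw [Function.iterate_succ_apply, map_zero, ih]
  have hWφ : (Wm W ρ).map φ = (bc G W x₀).map (PowerSeries.C (R := G)) := by
    ext i j k
    rw [Matrix.map_apply, Matrix.map_apply, hc, PowerSeries.coeff_C]
    cases k with
    | zero =>
      rw [Function.iterate_zero, id_eq, hε, Wm_apply, if_pos rfl, Nat.factorial_zero, Nat.cast_one, inv_one, map_one,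
        one_mul]
      rfl
    | succ k =>
      rw [Function.iterate_succ_apply, hD, h0, map_zero, mul_zero, if_neg (Nat.succ_ne_zero k)]
  refine ⟨(ρm W ρ).map φ, ?_, ?_, ?_⟩
  · intro i j
    rw [Matrix.map_apply, hc, Function.iterate_zero, id_eq, hε, ρm_apply, Nat.factorial_zero, Nat.cast_one, inv_one,
      map_one, one_mul]
    rfl
  · intro i j
    rw [Matrix.map_apply, hc, Function.iterate_one, Nat.factorial_one, Nat.cast_one, inv_one, map_one, one_mul]
    have h1 : D (ρm W ρ i j) = (ρm W ρ * Y.map (algebraMap F (RR W ρ))) i j := by rw [← hD']; rfl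
    rw [h1, Matrix.mul_apply, Matrix.mul_apply, map_sum]
    refine Finset.sum_congr rfl fun l _ => ?_
    rw [map_mul, hε, hε]
    rfl
  · intro j hj
    have h1 : MZ N (aeval (ρm W ρ ^ k) (Wm W ρ ^ k).charpoly) := by
      intro i hi
      apply Subtype.ext
      funext x
      exact (ev_coeff W ρ k i x).trans (h x i hi)
    have h2 := (h1.map φ) j hj
    have h3 : (aeval (ρm W ρ ^ k) (Wm W ρ ^ k).charpoly).map φ =
        aeval ((ρm W ρ).map φ) ((((bc G W x₀ ^ k).charpoly).comp (X ^ k)).map (PowerSeries.C (R := G))) := by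
      have h4 : (aeval (ρm W ρ ^ k) (Wm W ρ ^ k).charpoly).map φ =
        φ.mapMatrix (aeval (ρm W ρ ^ k) (Wm W ρ ^ k).charpoly) := rfl
      have h5 : (Wm W ρ ^ k).map φ = (bc G W x₀ ^ k).map (PowerSeries.C (R := G)) := by
        have h6 : (Wm W ρ ^ k).map φ = φ.mapMatrix (Wm W ρ ^ k) := rfl
        have h7 : φ.mapMatrix (Wm W ρ) = (PowerSeries.C (R := G)).mapMatrix (bc G W x₀) := hWφ
        rw [h6, map_pow, h7, ← map_pow]
        rfl
      rw [h4, mapMatrix_aeval, ← Matrix.charpoly_map, h5, Matrix.charpoly_map, map_pow, Polynomial.map_comp,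
        Polynomial.map_pow, Polynomial.map_X, Polynomial.aeval_comp, map_pow, Polynomial.aeval_X]
      rfl
    rw [h3] at h2
    exact h2

/-- **Isolated eigenvalues and tangent vectors.** -/
theorem tan_zero_of_iso (Δ : Subgroup Γ) [hΔ : Δ.Normal] (W : Γ →* Matrix m m F)
    (ρ : Γ →* Matrix n n F) (hirr : Irr ρ) (N k : ℕ) (hk : k ≠ 0) (hN : N ≠ 0)
    (h : ∀ x ∈ Δ, MZ N (aeval (ρ x ^ k) (W x ^ k).charpoly)) (x₀ : Γ) (hx₀ : x₀ ∈ Δ)
    (hcoef : (aeval (ρ x₀ ^ k) (W x₀ ^ k).charpoly).charpoly.coeff N ≠ 0) (z : G)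
    (hz : Iso (bc G ρ x₀) z) (hzr : (bc G ρ x₀).charpoly.IsRoot z)
    (hzW : (bc G W x₀ ^ k).charpoly.IsRoot (z ^ k)) (Y₀ : Matrix n n F)
    (hY₀ : IsTan (W.comp Δ.subtype) (ρ.comp Δ.subtype) Y₀) : Y₀ = 0 := by
  by_contra hne
  haveI : CharZero G := charZero_of_injective_algebraMap (algebraMap F G).injective
  obtain ⟨ι, hι⟩ : ∃ ι : Matrix n n F →+* Module.End G (n → G), ∀ Y, ι Y = Matrix.toLin' (Y.map (algebraMap F G)) :=
    ⟨((Matrix.toLinAlgEquiv' : Matrix n n G ≃ₐ[G] Module.End G (n → G)) : Matrix n n G →+* Module.End G (n → G)).comp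
      (algebraMap F G).mapMatrix, fun _ => rfl⟩
  -- the Lie algebra is stable
  have hst : ∀ (g : Γ) (Y : Matrix n n F), IsTan (W.comp Δ.subtype) (ρ.comp Δ.subtype) Y →
      IsTan (W.comp Δ.subtype) (ρ.comp Δ.subtype) (ρ g * Y * ρ g⁻¹) := by
    intro g Y hY
    refine tan_conj (W.comp Δ.subtype) (ρ.comp Δ.subtype) (MulAut.conjNormal g⁻¹) (ρ g⁻¹) (ρ g) ?_ ?_
      (W g⁻¹) (W g) ?_ ?_ _ hY
    · rw [← map_mul, inv_mul_cancel, map_one]
    · intro x
      change ρ ((MulAut.conjNormal g⁻¹ x : Δ) : Γ) = _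
      rw [MulAut.conjNormal_apply, inv_inv, map_mul, map_mul]
      rfl
    · rw [← map_mul, inv_mul_cancel, map_one]
    · intro x
      change W ((MulAut.conjNormal g⁻¹ x : Δ) : Γ) = _
      rw [MulAut.conjNormal_apply, inv_inv, map_mul, map_mul]
      rfl
  -- the Casimir element
  obtain ⟨d, b, b', D, hb, hb', hCc, hDC⟩ := exists_casimir (toEnd' ρ) (irrEnd_of_irr ρ hirr)
    (tanL (W.comp Δ.subtype) (ρ.comp Δ.subtype)) (by
    intro g Y hY
    change IsTan _ _ (LinearMap.toMatrix' (toEnd' ρ g * Y * toEnd' ρ g⁻¹))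
    rw [LinearMap.toMatrix'_mul, LinearMap.toMatrix'_mul]
    have h2 : ∀ g, LinearMap.toMatrix' (toEnd' ρ g) = ρ g := fun g => LinearMap.toMatrix'_toLin' (ρ g)
    rw [h2, h2]
    exact hst g _ hY) (by
    intro Y hY
    have h3 := tan_mz (W.comp Δ.subtype) (ρ.comp Δ.subtype) N k hk (fun x => h x x.2) _ hY
    rw [mz_iff] at h3
    have h4 : (LinearMap.toMatrix' Y).charpoly = Y.charpoly := by
      rw [← Matrix.charpoly_toLin', Matrix.toLin'_toMatrix']
    rw [h4] at h3
    omega) (Matrix.toLin' Y₀) (by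
    change IsTan _ _ (LinearMap.toMatrix' (Matrix.toLin' Y₀))
    rwa [LinearMap.toMatrix'_toLin']) (by
    intro h0
    apply hne
    have h4 := congrArg LinearMap.toMatrix' h0
    rwa [LinearMap.toMatrix'_toLin', map_zero] at h4)
  obtain ⟨β, hβ⟩ : ∃ β : Module.End F (n → F) →+* Matrix n n F, ∀ Y, β Y = LinearMap.toMatrix' Y :=
    ⟨((Matrix.toLinAlgEquiv' : Matrix n n F ≃ₐ[F] Module.End F (n → F)).symm : Module.End F (n → F) →+* Matrix n n F),
      fun _ => rfl⟩
  obtain ⟨κ, hκ⟩ : ∃ κ : Module.End F (n → F) →+* Module.End G (n → G), κ = ι.comp β := ⟨_, rfl⟩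
  have hκρ : ∀ g, κ (toEnd' ρ g) = Matrix.toLin' (bc G ρ g) := by
    intro g
    rw [hκ]
    change ι (β (toEnd' ρ g)) = _
    rw [hβ]
    have h2 : LinearMap.toMatrix' (toEnd' ρ g) = ρ g := LinearMap.toMatrix'_toLin' (ρ g)
    rw [h2, hι]
    rfl
  obtain ⟨f, hf⟩ : ∃ f : Module.End G (n → G), f = Matrix.toLin' (bc G ρ x₀) := ⟨_, rfl⟩
  obtain ⟨f', hf'⟩ : ∃ f' : Module.End G (n → G), f' = Matrix.toLin' (bc G ρ x₀⁻¹) := ⟨_, rfl⟩
  have hff : f' * f = 1 := by
    rw [hf, hf']
    refine (Matrix.toLin'_mul _ _).symm.trans ?_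
    rw [← map_mul, inv_mul_cancel, map_one, Matrix.toLin'_one]
    rfl
  have hff' : f * f' = 1 := by
    rw [hf, hf']
    refine (Matrix.toLin'_mul _ _).symm.trans ?_
    rw [← map_mul, mul_inv_cancel, map_one, Matrix.toLin'_one]
    rfl
  -- the Lie algebra over `G`
  obtain ⟨L, hL⟩ : ∃ L : Submodule G (Module.End G (n → G)), L = Submodule.span G
      {T | ∃ Y, IsTan (W.comp Δ.subtype) (ρ.comp Δ.subtype) Y ∧ T = ι Y} := ⟨_, rfl⟩
  have hLm : ∀ Y, IsTan (W.comp Δ.subtype) (ρ.comp Δ.subtype) Y → ι Y ∈ L := by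
    intro Y hY
    rw [hL]
    exact Submodule.subset_span ⟨Y, hY, rfl⟩
  have hLst : ∀ T ∈ L, f * T * f' ∈ L := by
    intro T hT
    rw [hL] at hT
    induction hT using Submodule.span_induction with
    | mem T hT =>
      obtain ⟨Y, hY, rfl⟩ := hT
      have h1 : f * ι Y * f' = ι (ρ x₀ * Y * ρ x₀⁻¹) := by
        rw [map_mul, map_mul, hι (ρ x₀), hι (ρ x₀⁻¹), hf, hf']
        rfl
      rw [h1]
      exact hLm _ (hst x₀ Y hY)
    | zero => rw [mul_zero, zero_mul]; exact L.zero_mem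
    | add S T _ _ hS hT => rw [mul_add, add_mul]; exact L.add_mem hS hT
    | smul c T _ hT => rw [mul_smul_comm, smul_mul_assoc]; exact L.smul_mem c hT
  have hLbr : ∀ S ∈ L, ∀ T ∈ L, S * T - T * S ∈ L := by
    intro S hS T hT
    rw [hL] at hS hT
    induction hS using Submodule.span_induction with
    | mem S hS =>
      obtain ⟨Y, hY, rfl⟩ := hS
      induction hT using Submodule.span_induction with
      | mem T hT =>
        obtain ⟨Y', hY', rfl⟩ := hT
        rw [← map_mul, ← map_mul, ← map_sub]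
        exact hLm _ (IsTan.lie _ _ hY hY')
      | zero => rw [mul_zero, zero_mul, sub_zero]; exact L.zero_mem
      | add S T _ _ hS hT =>
        have h1 : ι Y * (S + T) - (S + T) * ι Y = (ι Y * S - S * ι Y) + (ι Y * T - T * ι Y) := by noncomm_ring
        rw [h1]
        exact L.add_mem hS hT
      | smul c T _ hT =>
        rw [mul_smul_comm, smul_mul_assoc, ← smul_sub]
        exact L.smul_mem c hT
    | zero => rw [mul_zero, zero_mul, sub_zero]; exact L.zero_mem
    | add S S' _ _ hS hS' =>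
      have h1 : (S + S') * T - T * (S + S') = (S * T - T * S) + (S' * T - T * S') := by noncomm_ring
      rw [h1]
      exact L.add_mem hS hS'
    | smul c S _ hS =>
      rw [mul_smul_comm, smul_mul_assoc, ← smul_sub]
      exact L.smul_mem c hS
  -- the eigenvector
  obtain ⟨v, hv0, hv⟩ := (isRoot_iff _ _).1 hzr
  have hfv : f v = z • v := by rw [hf]; exact hv
  have hcp : f.charpoly = (bc G ρ x₀).charpoly := by rw [hf, Matrix.charpoly_toLin']
  have hs : f.maxGenEigenspace z ≤ Submodule.span G {v} := by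
    have h1 : Module.finrank G (f.maxGenEigenspace z) = 1 := by
      rw [LinearMap.finrank_maxGenEigenspace_eq, hcp]
      exact hz.1
    have h2 : Submodule.span G {v} ≤ f.maxGenEigenspace z := by
      rw [Submodule.span_singleton_le_iff_mem]
      exact eig_mem f z v hfv
    have h3 := Submodule.eq_of_le_of_finrank_eq h2 (by rw [h1, finrank_span_singleton hv0])
    exact h3.symm.le
  obtain ⟨w, hw, hwv⟩ := exists_left f z v hv0 hfv hs
  have hz0 : z ≠ 0 := by
    intro h0
    rw [h0, zero_smul] at hfv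
    apply hv0
    have h1 : (f' * f) v = v := by rw [hff]; rfl
    rw [← h1, Module.End.mul_apply, hfv, map_zero]
  -- first order
  obtain ⟨w', hw'⟩ : ∃ w' : n → G, w' = fun i => w (Pi.single i 1) := ⟨_, rfl⟩
  have hww : ∀ u, w u = w' ⬝ᵥ u := by
    intro u
    rw [hw', dotProduct]
    conv_lhs => rw [← Finset.univ_sum_single u]
    rw [map_sum]
    refine Finset.sum_congr rfl fun i _ => ?_
    have h1 : (Pi.single i (u i) : n → G) = u i • Pi.single i (1 : G) := by
      rw [← Pi.single_smul, smul_eq_mul, mul_one]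
    rw [h1, map_smul, smul_eq_mul, mul_comm]
  have hwg : w' ᵥ* bc G ρ x₀ = z • w' := by
    funext j
    have h1 := hw (Pi.single j 1)
    rw [hf, Matrix.toLin'_apply, hww, Matrix.dotProduct_mulVec, dotProduct_single, mul_one] at h1
    rw [h1, Pi.smul_apply, smul_eq_mul, hw']
  have h1st : ∀ Y, IsTan (W.comp Δ.subtype) (ρ.comp Δ.subtype) Y → w (ι Y v) = 0 := by
    intro Y hY
    obtain ⟨Mt, hM0, hM1, hM⟩ := exists_family (G := G) (W.comp Δ.subtype) (ρ.comp Δ.subtype) (⟨x₀, hx₀⟩ : Δ) Y hY N k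
      (fun x => h x x.2)
    have hroot := persist Mt (bc G ρ x₀) (by
      ext i j
      rw [Matrix.map_apply, ← PowerSeries.coeff_zero_eq_constantCoeff_apply]
      exact hM0 i j) (((bc G W x₀ ^ k).charpoly).comp (X ^ k)) (by
      intro h0
      have h1 := congrArg (fun p => p.natDegree) h0
      have h2 : (((bc G W x₀ ^ k).charpoly).comp (X ^ k)).Monic :=
        (Matrix.charpoly_monic _).comp (monic_X_pow k) (by rw [natDegree_X_pow]; exact hk)
      exact h2.ne_zero h0) N hM (by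
      rw [Polynomial.aeval_comp, map_pow, Polynomial.aeval_X, aeval_bc, Polynomial.coeff_map]
      intro h0
      exact hcoef ((map_eq_zero (algebraMap F G)).mp h0)) z hzr (by
      rw [Polynomial.eval_comp, Polynomial.eval_pow, Polynomial.eval_X]
      exact hzW)
    obtain ⟨u, hu0, hu, hu'⟩ := first_order Mt (bc G ρ x₀) (Y.map (algebraMap F G)) hM0 hM1 z hz0 hroot
    have h2 := hu' w' hwg
    have h3 : f u = z • u := by rw [hf]; exact hu
    obtain ⟨c, hc⟩ := Submodule.mem_span_singleton.mp (hs (eig_mem f z u h3))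
    have hc0 : c ≠ 0 := by
      rintro rfl
      rw [zero_smul] at hc
      exact hu0 hc.symm
    have h4 : w (ι Y u) = 0 := by
      rw [hι, Matrix.toLin'_apply, hww]
      exact h2
    rw [← hc, map_smul, map_smul, smul_eq_mul] at h4
    exact (mul_eq_zero.mp h4).resolve_left hc0
  have h1st' : ∀ T ∈ L, w (T v) = 0 := by
    intro T hT
    rw [hL] at hT
    induction hT using Submodule.span_induction with
    | mem T hT =>
      obtain ⟨Y, hY, rfl⟩ := hT
      exact h1st Y hY
    | zero => rw [LinearMap.zero_apply, map_zero]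
    | add S T _ _ hS hT => rw [LinearMap.add_apply, map_add, hS, hT, add_zero]
    | smul c T _ hT => rw [LinearMap.smul_apply, map_smul, hT, smul_zero]
  -- second order
  have hmax : ∀ x, f.maxGenEigenspace x ≠ ⊥ → (bc G ρ x₀).charpoly.IsRoot x := by
    intro x hx
    have h2 : Module.finrank G (f.maxGenEigenspace x) ≠ 0 := by
      intro h0
      exact hx (Submodule.finrank_eq_zero.mp h0)
    rw [LinearMap.finrank_maxGenEigenspace_eq, hcp] at h2
    exact (Polynomial.rootMultiplicity_pos (Matrix.charpoly_monic _).ne_zero).mp (Nat.pos_of_ne_zero h2)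
  have h2nd := second_order f f' hff L hLst hLbr z hz0 v hfv hs w hw hwv h1st'
    (fun x y hx hy hx' hy' => hz.2 x y (hmax x hx') (hmax y hy') hx hy)
  -- conclusion
  refine no_casimir f (κ (∑ i, b i * b' i)) (κ D) ?_ ?_ z v hfv hs w hwv ?_
  · rw [← map_mul, hDC, map_one]
  · rw [hf, ← hκρ, ← map_mul, hCc, map_mul]
  · rw [map_sum, LinearMap.sum_apply, map_sum]
    refine Finset.sum_eq_zero fun i _ => ?_
    rw [map_mul, Module.End.mul_apply]
    refine h2nd _ ?_ _ ?_
    · rw [hκ]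
      change ι (β (b i)) ∈ L
      rw [hβ]
      exact hLm _ (hb i)
    · rw [hκ]
      change ι (β (b' i)) ∈ L
      rw [hβ]
      exact hLm _ (hb' i)

end

end Pool.Agent.H60OE
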