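import Mathlib
import Pool.Agent.H60OE.Main

/-!
# The families of matrices attached to tangent vectors over an extension
-/

set_option autoImplicit false
set_option linter.unusedSectionVars false
set_option linter.style.haveILetI false

namespace Pool.Agent.H60OE

open Module Matrix Polynomial Pool.Agent.H40GO Pool.Agent.H40LT TensorProduct

section

variable {G : Type*} [Field G] [CharZero G] {R : Type*} [CommRing R] [Algebra G R] {m n : Type*} [Fintype m]
  [DecidableEq m] [Fintype n] [DecidableEq n]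

/-- the family of matrices attached to a derivation and a point -/
theorem family (D : Derivation G R R) (ε : R →ₐ[G] G) (Wr : Matrix m m R) (ρr : Matrix n n R)
    (hW : ∀ i j, D (Wr i j) = 0) (Y : Matrix n n G) (hρ : ρr.map D = ρr * Y.map (algebraMap G R)) (N k : ℕ)
    (h : MZ N (aeval (ρr ^ k) (Wr ^ k).charpoly)) (w : Matrix m m G) (hw : Wr.map ε = w) (g : Matrix n n G)
    (hg : ρr.map ε = g) :
    ∃ Mt : Matrix n n (PowerSeries G),
      (∀ s i j, PowerSeries.coeff s (Mt i j) = ((s.factorial : G)⁻¹) * (g * Y ^ s) i j) ∧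
      ∀ j < N, (aeval Mt ((((w ^ k).charpoly).comp (X ^ k)).map (PowerSeries.C (R := G)))).charpoly.coeff j = 0 := by
  obtain ⟨φ, hφ⟩ : ∃ φ : R →+* PowerSeries G, φ = (PowerSeries.map (ε : R →+* G)).comp (expD D) := ⟨_, rfl⟩
  have hc : ∀ k r, PowerSeries.coeff k (φ r) = ((k.factorial : G)⁻¹) * ε ((D : R → R)^[k] r) := by
    intro k r
    rw [hφ]
    change PowerSeries.coeff k (PowerSeries.map (ε : R →+* G) (PowerSeries.mk fun k => ek D k r)) = _
    rw [PowerSeries.coeff_map, PowerSeries.coeff_mk]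
    change ε (ek D k r) = _
    unfold ek
    rw [map_smul, smul_eq_mul]
  have h0 : ∀ k : ℕ, (D : R → R)^[k] 0 = 0 := by
    intro k
    induction k with
    | zero => rfl
    | succ k ih => rw [Function.iterate_succ_apply, map_zero, ih]
  have hWφ : Wr.map φ = w.map (PowerSeries.C (R := G)) := by
    ext i j k
    rw [Matrix.map_apply, Matrix.map_apply, hc, PowerSeries.coeff_C]
    cases k with
    | zero =>
      rw [Function.iterate_zero, id_eq, if_pos rfl, Nat.factorial_zero, Nat.cast_one, inv_one, one_mul, ← hw]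
      rfl
    | succ k =>
      rw [Function.iterate_succ_apply, hW, h0, map_zero, mul_zero, if_neg (Nat.succ_ne_zero k)]
  refine ⟨ρr.map φ, ?_, ?_⟩
  · intro s i j
    rw [Matrix.map_apply, hc, iter_mat D ρr Y hρ]
    congr 1
    have h1 : ε ((ρr * (Y ^ s).map (algebraMap G R)) i j) = ((ρr * (Y ^ s).map (algebraMap G R)).map ε) i j := rfl
    have h2 : (ρr * (Y ^ s).map (algebraMap G R)).map ε = g * Y ^ s := by
      have h3 : (ρr * (Y ^ s).map (algebraMap G R)).map ε = ρr.map ε * ((Y ^ s).map (algebraMap G R)).map ε :=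
        Matrix.map_mul (f := (ε : R →+* G))
      rw [h3, hg]
      congr 1
      ext i j
      simp
    rw [h1, h2]
  · intro j hj
    have h2 := (h.map φ) j hj
    have h3 : (aeval (ρr ^ k) (Wr ^ k).charpoly).map φ =
        aeval (ρr.map φ) ((((w ^ k).charpoly).comp (X ^ k)).map (PowerSeries.C (R := G))) := by
      have h4 : (aeval (ρr ^ k) (Wr ^ k).charpoly).map φ = φ.mapMatrix (aeval (ρr ^ k) (Wr ^ k).charpoly) := rfl
      have h5 : (Wr ^ k).map φ = (w ^ k).map (PowerSeries.C (R := G)) := by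
        have h6 : (Wr ^ k).map φ = φ.mapMatrix (Wr ^ k) := rfl
        have h7 : φ.mapMatrix Wr = (PowerSeries.C (R := G)).mapMatrix w := hWφ
        rw [h6, map_pow, h7, ← map_pow]
        rfl
      rw [h4, mapMatrix_aeval, ← Matrix.charpoly_map, h5, Matrix.charpoly_map, map_pow, Polynomial.map_comp,
        Polynomial.map_pow, Polynomial.map_X, Polynomial.aeval_comp, map_pow, Polynomial.aeval_X]
      rfl
    rw [h3] at h2
    exact h2

end

section

variable {F : Type*} [Field F] [CharZero F] {G : Type*} [Field G] [Algebra F G]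
  {Γ : Type*} [Group Γ] {m n : Type*} [Fintype m] [DecidableEq m] [Fintype n] [DecidableEq n]
  (W : Γ →* Matrix m m F) (ρ : Γ →* Matrix n n F)

/-- the base change of a derivation -/
noncomputable def derBC {A : Type*} [CommRing A] [Algebra F A] (D : Derivation F A A) :
    Derivation G (G ⊗[F] A) (G ⊗[F] A) :=
  Derivation.mk' (LinearMap.baseChange G (D : A →ₗ[F] A)) (by
    intro x y
    induction x using TensorProduct.induction_on with
    | zero => rw [zero_mul, map_zero, zero_smul, smul_zero, add_zero]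
    | add x x' hx hx' => rw [add_mul, map_add, map_add, hx, hx', add_smul, smul_add]; abel
    | tmul a r =>
      induction y using TensorProduct.induction_on with
      | zero => rw [mul_zero, map_zero, zero_smul, smul_zero, add_zero]
      | add y y' hy hy' => rw [mul_add, map_add, map_add, hy, hy', add_smul, smul_add]; abel
      | tmul b s =>
        rw [Algebra.TensorProduct.tmul_mul_tmul, LinearMap.baseChange_tmul, LinearMap.baseChange_tmul,
          LinearMap.baseChange_tmul, smul_eq_mul, smul_eq_mul, Algebra.TensorProduct.tmul_mul_tmul,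
          Algebra.TensorProduct.tmul_mul_tmul, mul_comm b a, ← TensorProduct.tmul_add]
        congr 1
        exact D.leibniz r s)

theorem derBC_tmul {A : Type*} [CommRing A] [Algebra F A] (D : Derivation F A A) (a : G) (r : A) :
    (derBC (G := G) D) (a ⊗ₜ[F] r) = a ⊗ₜ[F] (D r) := LinearMap.baseChange_tmul _ _ _

/-- the inclusion of the algebra of coefficients in its base change -/
noncomputable def inc (F G : Type*) [Field F] [Field G] [Algebra F G] (A : Type*) [CommRing A] [Algebra F A] :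
    A →+* G ⊗[F] A := (Algebra.TensorProduct.includeRight : A →ₐ[F] G ⊗[F] A)

theorem inc_apply {A : Type*} [CommRing A] [Algebra F A] (r : A) : inc F G A r = (1 : G) ⊗ₜ[F] r := rfl

/-- tangent vectors over the extension -/
def TanG (Y : Matrix n n G) : Prop :=
  ∃ D : Derivation G (G ⊗[F] RR W ρ) (G ⊗[F] RR W ρ), (∀ i j, D (inc F G (RR W ρ) (Wm W ρ i j)) = 0) ∧
    ((ρm W ρ).map (inc F G (RR W ρ))).map D =
      (ρm W ρ).map (inc F G (RR W ρ)) * Y.map (algebraMap G (G ⊗[F] RR W ρ))

theorem TanG.of_isTan {Y : Matrix n n F} (hY : IsTan W ρ Y) : TanG W ρ (Y.map (algebraMap F G)) := by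
  obtain ⟨D, hD, hD'⟩ := hY
  refine ⟨derBC D, ?_, ?_⟩
  · intro i j
    rw [inc_apply, derBC_tmul, hD, TensorProduct.tmul_zero]
  · ext i j : 2
    rw [Matrix.map_apply, Matrix.map_apply, inc_apply, derBC_tmul]
    have h1 : D (ρm W ρ i j) = (ρm W ρ * Y.map (algebraMap F (RR W ρ))) i j := by rw [← hD']; rfl
    rw [h1, Matrix.mul_apply, Matrix.mul_apply, TensorProduct.tmul_sum]
    refine Finset.sum_congr rfl fun l _ => ?_
    rw [Matrix.map_apply, Matrix.map_apply, Matrix.map_apply, Matrix.map_apply, inc_apply,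
      Algebra.TensorProduct.algebraMap_apply, Algebra.TensorProduct.tmul_mul_tmul, one_mul, mul_one,
      Algebra.algebraMap_self, RingHom.id_apply, Algebra.algebraMap_eq_smul_one, mul_smul_comm, mul_one,
      TensorProduct.tmul_smul, Algebra.algebraMap_eq_smul_one, TensorProduct.smul_tmul']

theorem TanG.zero : TanG (G := G) W ρ 0 := by
  refine ⟨0, fun i j => rfl, ?_⟩
  rw [Matrix.map_zero _ (map_zero _), mul_zero]
  rfl

theorem TanG.add {Y Y' : Matrix n n G} (hY : TanG W ρ Y) (hY' : TanG W ρ Y') : TanG W ρ (Y + Y') := by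
  obtain ⟨D, hD, hD'⟩ := hY
  obtain ⟨E, hE, hE'⟩ := hY'
  refine ⟨D + E, fun i j => ?_, ?_⟩
  · rw [Derivation.add_apply, hD, hE, add_zero]
  · have h1 : ((ρm W ρ).map (inc F G (RR W ρ))).map (D + E : Derivation G _ _) =
      ((ρm W ρ).map (inc F G (RR W ρ))).map D + ((ρm W ρ).map (inc F G (RR W ρ))).map E := rfl
    have h2 : (Y + Y').map (algebraMap G (G ⊗[F] RR W ρ)) = Y.map (algebraMap G (G ⊗[F] RR W ρ)) +
      Y'.map (algebraMap G (G ⊗[F] RR W ρ)) := Matrix.map_add _ (map_add _) _ _
    rw [h1, hD', hE', h2, mul_add]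

theorem TanG.smul {Y : Matrix n n G} (c : G) (hY : TanG W ρ Y) : TanG W ρ (c • Y) := by
  obtain ⟨D, hD, hD'⟩ := hY
  refine ⟨c • D, fun i j => ?_, ?_⟩
  · rw [Derivation.smul_apply, hD, smul_zero]
  · have h1 : ((ρm W ρ).map (inc F G (RR W ρ))).map (c • D : Derivation G _ _) =
      c • ((ρm W ρ).map (inc F G (RR W ρ))).map D := rfl
    have h2 : (c • Y).map (algebraMap G (G ⊗[F] RR W ρ)) = c • Y.map (algebraMap G (G ⊗[F] RR W ρ)) := by
      refine Matrix.ext fun i j => ?_
      change algebraMap G (G ⊗[F] RR W ρ) (c * Y i j) = c • algebraMap G (G ⊗[F] RR W ρ) (Y i j)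
      rw [map_mul]
      exact (Algebra.smul_def c _).symm
    rw [h1, hD', h2, Matrix.mul_smul]

/-- the family attached to a tangent vector over the extension -/
theorem exists_family_G (x₀ : Γ) (Y : Matrix n n G) (hY : TanG W ρ Y) (N k : ℕ)
    (h : ∀ x, MZ N (aeval (ρ x ^ k) (W x ^ k).charpoly)) :
    ∃ Mt : Matrix n n (PowerSeries G),
      (∀ s i j, PowerSeries.coeff s (Mt i j) = ((s.factorial : G)⁻¹) * (bc G ρ x₀ * Y ^ s) i j) ∧
      ∀ j < N, (aeval Mt ((((bc G W x₀ ^ k).charpoly).comp (X ^ k)).map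
        (PowerSeries.C (R := G)))).charpoly.coeff j = 0 := by
  haveI : CharZero G := charZero_of_injective_algebraMap (algebraMap F G).injective
  obtain ⟨D, hD, hD'⟩ := hY
  obtain ⟨ε, hε⟩ : ∃ ε : (G ⊗[F] RR W ρ) →ₐ[G] G, ∀ r : RR W ρ, ε (inc F G (RR W ρ) r) =
      algebraMap F G ((r : Γ → F) x₀) :=
    ⟨Algebra.TensorProduct.lift (AlgHom.id G G) ((Algebra.ofId F G).comp (ev (RR W ρ) x₀))
      (fun _ _ => Commute.all _ _), fun r => by
      rw [inc_apply, Algebra.TensorProduct.lift_tmul, map_one, one_mul]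
      rfl⟩
  refine family D ε ((Wm W ρ).map (inc F G (RR W ρ))) ((ρm W ρ).map (inc F G (RR W ρ))) hD Y hD' N k ?_ _ ?_ _ ?_
  · have h1 : MZ N (aeval (ρm W ρ ^ k) (Wm W ρ ^ k).charpoly) := by
      intro i hi
      apply Subtype.ext
      funext x
      exact (ev_coeff W ρ k i x).trans (h x i hi)
    have h2 := h1.map (inc F G (RR W ρ))
    have h3 : (aeval (ρm W ρ ^ k) (Wm W ρ ^ k).charpoly).map (inc F G (RR W ρ)) =
        aeval ((ρm W ρ).map (inc F G (RR W ρ)) ^ k) ((Wm W ρ).map (inc F G (RR W ρ)) ^ k).charpoly := by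
      have h4 : (aeval (ρm W ρ ^ k) (Wm W ρ ^ k).charpoly).map (inc F G (RR W ρ)) =
        (inc F G (RR W ρ)).mapMatrix (aeval (ρm W ρ ^ k) (Wm W ρ ^ k).charpoly) := rfl
      have h5 : (Wm W ρ ^ k).map (inc F G (RR W ρ)) = (Wm W ρ).map (inc F G (RR W ρ)) ^ k :=
        map_pow (inc F G (RR W ρ)).mapMatrix (Wm W ρ) k
      have h6 : (inc F G (RR W ρ)).mapMatrix (ρm W ρ ^ k) = (ρm W ρ).map (inc F G (RR W ρ)) ^ k :=
        map_pow (inc F G (RR W ρ)).mapMatrix (ρm W ρ) k
      rw [h4, mapMatrix_aeval, ← Matrix.charpoly_map, h5, h6]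
    rw [h3] at h2
    exact h2
  · ext i j
    rw [Matrix.map_apply, Matrix.map_apply, hε, Wm_apply]
    rfl
  · ext i j
    rw [Matrix.map_apply, Matrix.map_apply, hε, ρm_apply]
    rfl

end

end Pool.Agent.H60OE
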