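import Mathlib
import Pool.Agent.H60OE.EngQ

/-!
# A good eigenvalue is the geometric mean of two bad ones: linear algebra
-/

set_option autoImplicit false
set_option linter.unusedSectionVars false

namespace Pool.Agent.H60OE

open Module

section

variable {K : Type*} [Field K] [IsAlgClosed K] {V : Type*} [AddCommGroup V] [Module K V] [FiniteDimensional K V]
  {f f' : Module.End K V} {L : Submodule K (Module.End K V)}

theorem Dat.z_ne (h : Dat f f' L) (z : K) (hz : f.maxGenEigenspace z ≠ ⊥) : z ≠ 0 := by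
  rintro rfl
  apply hz
  rw [eq_bot_iff]
  intro u hu
  rw [Module.End.mem_maxGenEigenspace] at hu
  obtain ⟨k, hk⟩ := hu
  rw [zero_smul, sub_zero] at hk
  have h1 : ∀ k : ℕ, f' ^ k * f ^ k = 1 := by
    intro k
    induction k with
    | zero => rw [pow_zero, pow_zero, one_mul]
    | succ k ih =>
      rw [pow_succ, pow_succ']
      calc f' ^ k * f' * (f * f ^ k) = f' ^ k * (f' * f) * f ^ k := by simp only [mul_assoc]
        _ = 1 := by rw [h.inv, mul_one, ih]
  have h2 := congrArg (fun T : Module.End K V => T u) (h1 k)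
  simp only [Module.End.mul_apply, hk, map_zero, Module.End.one_apply] at h2
  rw [Submodule.mem_bot]
  exact h2.symm

/-- **Conclusion.** -/
theorem Dat.final (h : Dat f f' L) {d : ℕ} (B B' : Fin d → Module.End K V) (hB : ∀ i, B i ∈ L) (hB' : ∀ i, B' i ∈ L)
    (D : Module.End K V) (hD : D * (∑ i, B i * B' i) = 1) (hC : f * (∑ i, B i * B' i) = (∑ i, B i * B' i) * f)
    (Gd : K → Prop)
    (hR : ∀ x y, f.maxGenEigenspace x ≠ ⊥ → f.maxGenEigenspace y ≠ ⊥ → x ≠ y →
      ∀ j, 1 ≤ j → j ≤ finrank K V → x ^ j ≠ y ^ j)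
    (hN : ∀ z, Gd z → ∀ Z ∈ L ⊓ (cj f f').maxGenEigenspace 1, ∀ u ∈ f.maxGenEigenspace z, ∃ k : ℕ, (Z ^ k) u = 0)
    (z : K) (hz : f.maxGenEigenspace z ≠ ⊥) (hgz : Gd z)
    (hiso : ∀ x y, f.maxGenEigenspace x ≠ ⊥ → f.maxGenEigenspace y ≠ ⊥ → x * y = z ^ 2 → Gd x ∨ Gd y) : False := by
  have hz0 := h.z_ne z hz
  have hzst : ∀ Z ∈ h.L1, ∀ u ∈ f.maxGenEigenspace z, Z u ∈ f.maxGenEigenspace z := by
    intro Z hZ u hu
    have h3 := mem_pair f f' h.inv 1 z Z u hZ.2 hu
    rwa [one_mul] at h3
  obtain ⟨v, hv, hv0, hvL⟩ := engel_sub h.L1 (f.maxGenEigenspace z) hz hzst (fun Z hZ u hu => hN z hgz Z hZ u hu)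
  obtain ⟨W, hW⟩ : ∃ W, W = ⨆ (c : K) (_ : c ≠ z), f.maxGenEigenspace c := ⟨_, rfl⟩
  -- graded pieces which kill `v`
  have hkill : ∀ b : K, b ≠ 1 → (f.maxGenEigenspace (b * z) = ⊥ ∨ Gd (b * z)) →
      ∀ Y ∈ L ⊓ (cj f f').maxGenEigenspace b, Y v = 0 := by
    intro b hb1 hbz Y hY
    by_cases hbot : f.maxGenEigenspace (b * z) = ⊥
    · have h1 := mem_pair f f' h.inv b z Y v hY.2 hv
      rw [hbot, Submodule.mem_bot] at h1
      exact h1
    · have hg := hbz.resolve_left hbot
      have hb0 : b ≠ 0 := by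
        rintro rfl
        exact h.z_ne _ hbot (zero_mul z)
      refine h.kill z b hb0 ?_ (fun Z hZ u hu => hN z hgz Z hZ u hu) (fun Z hZ u hu => hN _ hg Z hZ u hu) Y hY v hv
      intro j hj hj' h0
      refine hR (b * z) z hbot hz ?_ j hj hj' ?_
      · intro h1
        exact hb1 ((mul_eq_right₀ hz0).mp h1)
      · rw [mul_pow, h0, one_mul]
  have key : ∀ a, ∀ X ∈ L ⊓ (cj f f').maxGenEigenspace a, ∀ b, ∀ Y ∈ L ⊓ (cj f f').maxGenEigenspace b,
      X (Y v) ∈ W := by
    intro a X hX b Y hY
    by_cases hab : a * b = 1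
    · have h0 : X (Y v) = 0 := by
        by_cases hb : b = 1
        · rw [hb] at hY
          rw [hvL Y hY, map_zero]
        · have ha : a ≠ 1 := by
            rintro rfl
            rw [one_mul] at hab
            exact hb hab
          by_cases hbz : f.maxGenEigenspace (b * z) = ⊥ ∨ Gd (b * z)
          · rw [hkill b hb hbz Y hY, map_zero]
          · rw [not_or] at hbz
            have haz : f.maxGenEigenspace (a * z) = ⊥ ∨ Gd (a * z) := by
              by_cases haz : f.maxGenEigenspace (a * z) = ⊥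
              · exact Or.inl haz
              · right
                refine (hiso (a * z) (b * z) haz hbz.1 ?_).resolve_right hbz.2
                calc a * z * (b * z) = (a * b) * z ^ 2 := by ring
                  _ = _ := by rw [hab, one_mul]
            have h1 := hkill a ha haz X hX
            have h2 := h.brd a b X Y hX hY
            rw [hab] at h2
            have h3 := hvL _ h2
            rw [LinearMap.sub_apply, Module.End.mul_apply, Module.End.mul_apply, h1, map_zero, sub_zero] at h3
            exact h3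
      rw [h0]
      exact W.zero_mem
    · have h1 := mem_pair f f' h.inv a (b * z) X (Y v) hX.2 (mem_pair f f' h.inv b z Y v hY.2 hv)
      rw [hW]
      refine Submodule.mem_iSup_of_mem (a * (b * z)) (Submodule.mem_iSup_of_mem ?_ h1)
      intro h2
      apply hab
      rw [← mul_assoc] at h2
      exact (mul_eq_right₀ hz0).mp h2
  have key2 : ∀ X ∈ L, ∀ Y ∈ L, X (Y v) ∈ W := by
    intro X hX Y hY
    rw [h.dec] at hX hY
    induction hX using Submodule.iSup_induction' with
    | mem a X hX =>
      induction hY using Submodule.iSup_induction' with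
      | mem b Y hY => exact key a X hX b Y hY
      | zero => rw [LinearMap.zero_apply, map_zero]; exact W.zero_mem
      | add Y Y' _ _ hY hY' => rw [LinearMap.add_apply, map_add]; exact W.add_mem hY hY'
    | zero => rw [LinearMap.zero_apply]; exact W.zero_mem
    | add X X' _ _ hX hX' => rw [LinearMap.add_apply]; exact W.add_mem hX hX'
  obtain ⟨C, hCd⟩ : ∃ C, C = ∑ i, B i * B' i := ⟨_, rfl⟩
  rw [← hCd] at hD hC
  have hCW : C v ∈ W := by
    rw [hCd, LinearMap.sum_apply]
    exact W.sum_mem fun i _ => key2 _ (hB i) _ (hB' i)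
  have hCz : C v ∈ f.maxGenEigenspace z := by
    rw [Module.End.mem_maxGenEigenspace] at hv ⊢
    obtain ⟨k, hk⟩ := hv
    refine ⟨k, ?_⟩
    have h1 : Commute (f - z • (1 : Module.End K V)) C := by
      refine Commute.sub_left hC ?_
      exact (Commute.one_left C).smul_left z
    have h2 := (h1.pow_left k).eq
    rw [← Module.End.mul_apply, h2, Module.End.mul_apply, hk, map_zero]
  have hdis : Disjoint (f.maxGenEigenspace z) W := by
    rw [hW]
    exact f.independent_maxGenEigenspace z
  have hC0 : C v = 0 := by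
    have h1 := hdis.le_bot (Submodule.mem_inf.mpr ⟨hCz, hCW⟩)
    exact (Submodule.mem_bot K).mp h1
  apply hv0
  have h1 : v = D (C v) := by rw [← Module.End.mul_apply, hD, Module.End.one_apply]
  rw [h1, hC0, map_zero]

end

end Pool.Agent.H60OE
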