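import Mathlib
import Pool.Agent.H40RT.Mult

/-!
# Frobenius eigenvalues: multiplicative relations with bounded exponents

The version of the finiteness of Frobenius tori for finite fields of arbitrary degree over the prime field: the slopes
are assumed to have bounded denominators.
-/

set_option autoImplicit false
set_option linter.unusedSectionVars false
set_option linter.style.haveILetI false

namespace Pool.Agent.H60OE

open Module Polynomial Pool.Agent.H40RT Pool.Agent.H40LT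

section Kron

theorem coeff_norm_le {K : Type*} [NormedField K] [IsUltrametricDist K] (s : Multiset K) (hs : ∀ x ∈ s, ‖x‖ ≤ 1)
    (i : ℕ) : ‖((s.map fun x => X - C x).prod).coeff i‖ ≤ 1 := by
  induction s using Multiset.induction_on generalizing i with
  | empty =>
    rw [Multiset.map_zero, Multiset.prod_zero, coeff_one]
    split_ifs <;> simp
  | cons a s ih =>
    have ih' := fun i => ih (fun x hx => hs x (Multiset.mem_cons_of_mem hx)) i
    rw [Multiset.map_cons, Multiset.prod_cons, sub_mul, coeff_sub, coeff_C_mul]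
    rw [sub_eq_add_neg]
    refine (IsUltrametricDist.norm_add_le_max _ _).trans (max_le ?_ ?_)
    · cases i with
      | zero => rw [coeff_X_mul_zero]; simp
      | succ i => rw [coeff_X_mul]; exact ih' i
    · rw [norm_neg, norm_mul]
      exact mul_le_one₀ (hs a (Multiset.mem_cons_self a s)) (norm_nonneg _) (ih' i)

theorem den_eq_one (c : ℚ) (h : ∀ (p : ℕ) [Fact p.Prime], ‖(c : ℚ_[p])‖ ≤ 1) : c.den = 1 := by
  by_contra hne
  obtain ⟨p, hp, hpd⟩ := Nat.exists_prime_and_dvd hne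
  haveI : Fact p.Prime := ⟨hp⟩
  have h1 := h p
  have h2 : (c : ℚ_[p]) * (c.den : ℚ_[p]) = (c.num : ℚ_[p]) := by
    have h3 := Rat.mul_den_eq_num c
    have h4 : ((c * (c.den : ℚ) : ℚ) : ℚ_[p]) = ((c.num : ℚ) : ℚ_[p]) := by rw [h3]
    rw [Rat.cast_mul, Rat.cast_natCast, Rat.cast_intCast] at h4
    exact h4
  have h3 : ‖(c.den : ℚ_[p])‖ < 1 := by
    rw [Padic.norm_natCast_lt_one_iff]
    exact hpd
  have h4 : ‖(c.num : ℚ_[p])‖ = 1 := by
    rw [Padic.norm_intCast_eq_one_iff]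
    have h5 : Nat.Coprime c.num.natAbs p := Nat.Coprime.coprime_dvd_right hpd c.reduced
    rw [Int.isCoprime_iff_gcd_eq_one]
    simpa [Int.gcd] using h5
  rw [← h2, norm_mul] at h4
  have h5 : ‖(c : ℚ_[p])‖ * ‖(c.den : ℚ_[p])‖ < 1 :=
    lt_of_le_of_lt (mul_le_of_le_one_left (norm_nonneg _) h1) h3
  exact h5.ne h4

theorem norm_castHom (p : ℕ) [Fact p.Prime] (c : ℚ) : ‖Rat.castHom (PadicAlgCl p) c‖ = ‖(c : ℚ_[p])‖ := by
  rw [← PadicAlgCl.norm_extends]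
  congr 1

/-- a root of the minimal polynomial is the image under an embedding -/
theorem exists_emb {L : Type*} [Field L] [NumberField L] (γ : L) {K : Type*} [Field K] [CharZero K] [IsAlgClosed K]
    (x : K) (hx : (minpoly ℚ γ).eval₂ (Rat.castHom K) x = 0) : ∃ φ : L →+* K, φ γ = x := by
  letI : Algebra ℚ K := (Rat.castHom K).toAlgebra
  have h1 : x ∈ (minpoly ℚ γ).rootSet K := by
    rw [mem_rootSet]
    exact ⟨minpoly.ne_zero (Algebra.IsIntegral.isIntegral γ), hx⟩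
  rw [← Algebra.IsAlgebraic.range_eval_eq_rootSet_minpoly] at h1
  obtain ⟨φ, hφ⟩ := h1
  exact ⟨φ, hφ⟩

/-- **Kronecker.** A number of absolute value one in all embeddings is a root of unity. -/
theorem kron {L : Type*} [Field L] [NumberField L] (γ : L) (h1 : ∀ φ : L →+* ℂ, ‖φ γ‖ = 1)
    (h2 : ∀ (p : ℕ) [Fact p.Prime] (φ : L →+* PadicAlgCl p), ‖φ γ‖ ≤ 1) : ∃ n : ℕ, 0 < n ∧ γ ^ n = 1 := by
  obtain ⟨P, hP⟩ : ∃ P, P = minpoly ℚ γ := ⟨_, rfl⟩
  have hmon : P.Monic := hP ▸ minpoly.monic (Algebra.IsIntegral.isIntegral γ)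
  have hc : ∀ i, (P.coeff i).den = 1 := by
    intro i
    refine den_eq_one _ fun p _ => ?_
    rw [← norm_castHom, ← coeff_map]
    have h3 : (P.map (Rat.castHom (PadicAlgCl p))).Splits := IsAlgClosed.splits _
    have h4 := h3.eq_prod_roots_of_monic (hmon.map _)
    rw [h4]
    refine coeff_norm_le _ (fun x hx => ?_) i
    rw [mem_roots (hmon.map _).ne_zero, IsRoot.def, eval_map, hP] at hx
    obtain ⟨φ, rfl⟩ := exists_emb γ x hx
    exact h2 p φ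
  have hlift : P ∈ lifts (algebraMap ℤ ℚ) := by
    rw [lifts_iff_coeff_lifts]
    intro i
    refine ⟨(P.coeff i).num, ?_⟩
    have h3 := Rat.num_div_den (P.coeff i)
    rw [hc i] at h3
    simpa using h3
  obtain ⟨Q, hQ, -, hQm⟩ := lifts_and_natDegree_eq_and_monic hlift hmon
  have hint : IsIntegral ℤ γ := by
    refine ⟨Q, hQm, ?_⟩
    have h3 : aeval γ P = 0 := hP ▸ minpoly.aeval ℚ γ
    rw [← hQ, aeval_def, eval₂_map] at h3
    have h4 : (algebraMap ℚ L).comp (algebraMap ℤ ℚ) = algebraMap ℤ L := RingHom.ext_int _ _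
    rwa [h4] at h3
  obtain ⟨n, hn, hn1⟩ := NumberField.Embeddings.pow_eq_one_of_norm_eq_one L ℂ hint h1
  exact ⟨n, hn, hn1⟩

end Kron

section Tor

variable {Ω : Type*} [Field Ω] [Algebra ℚ Ω]

/-- Frobenius numbers -/
def FNum (D C q : ℕ) (z : Ω) : Prop :=
  IsAlgebraic ℚ z ∧ (minpoly ℚ z).natDegree ≤ D ∧
  (∀ x : ℂ, (minpoly ℚ z).eval₂ (Rat.castHom ℂ) x = 0 → ∃ w : ℤ, |w| ≤ C ∧ ‖x‖ ^ 2 = (q : ℝ) ^ w) ∧
  ∀ (p : ℕ) [Fact p.Prime] (x : PadicAlgCl p), (minpoly ℚ z).eval₂ (Rat.castHom (PadicAlgCl p)) x = 0 →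
    ∃ a : ℤ, |a| ≤ C ∧ ‖x‖ ^ D = ‖(q : PadicAlgCl p)‖ ^ a

theorem FNum.ne_zero {D C q : ℕ} (hq : 2 ≤ q) {z : Ω} (h : FNum D C q z) : z ≠ 0 := by
  rintro rfl
  obtain ⟨-, -, h1, -⟩ := h
  obtain ⟨w, -, hw⟩ := h1 0 (by rw [minpoly.zero, eval₂_X])
  rw [norm_zero, zero_pow two_ne_zero] at hw
  have : (0 : ℝ) < (q : ℝ) ^ w := zpow_pos (by positivity) w
  exact this.ne hw

theorem emb_root (L : IntermediateField ℚ Ω) {K : Type*} [Field K] [CharZero K] (φ : L →+* K) (y : L) :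
    (minpoly ℚ (y : Ω)).eval₂ (Rat.castHom K) (φ y) = 0 := by
  have h1 : φ.comp (algebraMap ℚ L) = Rat.castHom K := RingHom.ext_rat _ _
  rw [← h1, ← hom_eval₂]
  have h2 : (minpoly ℚ (y : Ω)).eval₂ (algebraMap ℚ L) y = 0 := by
    apply (algebraMap L Ω).injective
    rw [hom_eval₂, map_zero]
    have h3 : (algebraMap L Ω).comp (algebraMap ℚ L) = algebraMap ℚ Ω := RingHom.ext_rat _ _
    rw [h3]
    exact minpoly.aeval ℚ (y : Ω)
  rw [h2, map_zero]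

theorem minpoly_deg {E Ω : Type*} [Field E] [Field Ω] [Algebra E Ω] (L : IntermediateField E Ω)
    [FiniteDimensional E L] (g : L) : (minpoly E (g : Ω)).natDegree ≤ finrank E L := by
  rw [← IntermediateField.minpoly_eq]
  exact minpoly.natDegree_le g

/-- **Finiteness of Frobenius tori.** -/
theorem frob_bounded (Ω : Type*) [Field Ω] [Algebra ℚ Ω] (D C k : ℕ) : ∃ B : ℕ, ∀ q : ℕ, 2 ≤ q →
    ∀ (x : Fin k → Ω) (z : Ω), FNum D C q z → (∀ i, FNum D C q (x i)) → ∀ (ζ : Ω) (m : ℕ), 0 < m → ζ ^ m = 1 →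
    ∀ e : Fin k → ℤ, z = ζ * ∏ j, x j ^ e j →
    ∃ (γ : Ω) (e' : Fin k → ℤ), (∀ j, |e' j| ≤ B) ∧ (∃ m : ℕ, 0 < m ∧ m ≤ B ∧ γ ^ m = 1) ∧
      z = γ * ∏ j, x j ^ e' j := by
  classical
  obtain ⟨B₀, hB₀⟩ := bounded_sol C k
  refine ⟨B₀ + expo (D ^ (k + 1)), ?_⟩
  intro q hq x z hz hx ζ m hm hζ e he
  have hD : D ≠ 0 := by
    have h1 : 0 < (minpoly ℚ z).natDegree := minpoly.natDegree_pos hz.1.isIntegral
    have h2 := hz.2.1
    omega
  have hz0 := hz.ne_zero hq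
  have hx0 : ∀ i, x i ≠ 0 := fun i => (hx i).ne_zero hq
  -- the number field
  obtain ⟨S, hS⟩ : ∃ S : Finset Ω, S = insert z (Finset.univ.image x) := ⟨_, rfl⟩
  obtain ⟨L, hL⟩ : ∃ L : IntermediateField ℚ Ω, L = IntermediateField.adjoin ℚ (S : Set Ω) := ⟨_, rfl⟩
  obtain ⟨hfd, hdeg⟩ := adjoin_deg (E := ℚ) D S (by
    intro y hy
    rw [hS, Finset.mem_insert, Finset.mem_image] at hy
    rcases hy with rfl | ⟨i, -, rfl⟩
    · exact ⟨minpoly ℚ y, minpoly.ne_zero hz.1.isIntegral, hz.2.1, minpoly.aeval ℚ y⟩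
    · exact ⟨minpoly ℚ (x i), minpoly.ne_zero (hx i).1.isIntegral, (hx i).2.1, minpoly.aeval ℚ (x i)⟩)
  rw [← hL] at hfd hdeg
  have hScard : S.card ≤ k + 1 := by
    rw [hS]
    refine (Finset.card_insert_le _ _).trans ?_
    have h1 : (Finset.univ.image x).card ≤ k := Finset.card_image_le.trans (by simp)
    omega
  have hLD : finrank ℚ L ≤ D ^ (k + 1) :=
    hdeg.trans (Nat.pow_le_pow_right (Nat.pos_of_ne_zero hD) hScard)
  haveI : CharZero L := charZero_of_injective_algebraMap (algebraMap ℚ L).injective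
  haveI : NumberField L := by
    have h1 : @FiniteDimensional ℚ L _ _ (DivisionRing.toRatAlgebra : Algebra ℚ L).toModule := by
      have h2 : (DivisionRing.toRatAlgebra : Algebra ℚ L) = L.algebra' := Subsingleton.elim _ _
      rw [h2]
      exact hfd
    exact @NumberField.mk L _ _ h1
  have hzL : z ∈ L := by
    rw [hL]
    exact IntermediateField.subset_adjoin ℚ _ (Finset.mem_coe.mpr (by rw [hS]; exact Finset.mem_insert_self z _))
  have hxL : ∀ i, x i ∈ L := by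
    intro i
    rw [hL]
    exact IntermediateField.subset_adjoin ℚ _ (Finset.mem_coe.mpr (by
      rw [hS]; exact Finset.mem_insert_of_mem (Finset.mem_image_of_mem x (Finset.mem_univ i))))
  have hprod0 : ∏ j, x j ^ e j ≠ 0 := Finset.prod_ne_zero_iff.mpr fun j _ => zpow_ne_zero _ (hx0 j)
  have hζL : ζ ∈ L := by
    have h1 : ζ = z * (∏ j, x j ^ e j)⁻¹ := by
      rw [he, mul_inv_cancel_right₀ hprod0]
    rw [h1]
    exact L.mul_mem hzL (L.inv_mem (L.prod_mem fun j _ => zpow_mem (hxL j) _))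
  obtain ⟨Z, hZ⟩ : ∃ Z : L, Z = ⟨z, hzL⟩ := ⟨_, rfl⟩
  obtain ⟨ξ, hξ⟩ : ∃ ξ : Fin k → L, ξ = fun j => ⟨x j, hxL j⟩ := ⟨_, rfl⟩
  obtain ⟨θ, hθ⟩ : ∃ θ : L, θ = ⟨ζ, hζL⟩ := ⟨_, rfl⟩
  have hZc : (Z : Ω) = z := by rw [hZ]
  have hξc : ∀ j, (ξ j : Ω) = x j := fun j => by rw [hξ]
  have hθc : (θ : Ω) = ζ := by rw [hθ]
  have hinj : Function.Injective (algebraMap L Ω) := (algebraMap L Ω).injective
  have hcoe : ∀ (y : L) (e' : Fin k → ℤ), ((y * ∏ j, ξ j ^ e' j : L) : Ω) = (y : Ω) * ∏ j, x j ^ e' j := by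
    intro y e'
    have h1 := map_mul (algebraMap L Ω) y (∏ j, ξ j ^ e' j)
    rw [map_prod] at h1
    refine h1.trans ?_
    congr 1
    refine Finset.prod_congr rfl fun j _ => ?_
    rw [map_zpow₀]
    congr 1
    exact hξc j
  have heL : Z = θ * ∏ j, ξ j ^ e j := by
    apply hinj
    refine Eq.trans ?_ (hcoe θ e).symm
    rw [hθc]
    exact hZc.trans he
  have hθ1 : θ ^ m = 1 := by
    apply hinj
    rw [map_pow, map_one]
    change (θ : Ω) ^ m = 1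
    rw [hθc, hζ]
  have hZ0 : Z ≠ 0 := by
    intro h
    apply hz0
    rw [← hZc, h]
    rfl
  have hξ0 : ∀ j, ξ j ≠ 0 := by
    intro j h
    apply hx0 j
    rw [← hξc, h]
    rfl
  -- the rows
  have hzC : ∀ φ : L →+* ℂ, ∃ w : ℤ, |w| ≤ C ∧ ‖φ Z‖ ^ 2 = (q : ℝ) ^ w := fun φ =>
    hz.2.2.1 _ (by have := emb_root L φ Z; rwa [hZc] at this)
  have hxC : ∀ (j : Fin k) (φ : L →+* ℂ), ∃ w : ℤ, |w| ≤ C ∧ ‖φ (ξ j)‖ ^ 2 = (q : ℝ) ^ w := fun j φ =>
    (hx j).2.2.1 _ (by have := emb_root L φ (ξ j); rwa [hξc] at this)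
  have hzP : ∀ (p : ℕ) [Fact p.Prime] (φ : L →+* PadicAlgCl p), ∃ a : ℤ, |a| ≤ C ∧
      ‖φ Z‖ ^ D = ‖(q : PadicAlgCl p)‖ ^ a := fun p _ φ =>
    hz.2.2.2 p _ (by have := emb_root L φ Z; rwa [hZc] at this)
  have hxP : ∀ (j : Fin k) (p : ℕ) [Fact p.Prime] (φ : L →+* PadicAlgCl p), ∃ a : ℤ, |a| ≤ C ∧
      ‖φ (ξ j)‖ ^ D = ‖(q : PadicAlgCl p)‖ ^ a := fun j p _ φ =>
    (hx j).2.2.2 p _ (by have := emb_root L φ (ξ j); rwa [hξc] at this)
  obtain ⟨T, hT⟩ : ∃ T : Set (ℤ × (Fin k → ℤ)), T = {t | (|t.1| ≤ (C : ℤ) ∧ ∀ j, |t.2 j| ≤ (C : ℤ)) ∧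
      ((∃ φ : L →+* ℂ, ‖φ Z‖ ^ 2 = (q : ℝ) ^ t.1 ∧ ∀ j, ‖φ (ξ j)‖ ^ 2 = (q : ℝ) ^ t.2 j) ∨
      ∃ (p : ℕ) (_ : Fact p.Prime) (φ : L →+* PadicAlgCl p), p ∣ q ∧ ‖φ Z‖ ^ D = ‖(q : PadicAlgCl p)‖ ^ t.1 ∧
        ∀ j, ‖φ (ξ j)‖ ^ D = ‖(q : PadicAlgCl p)‖ ^ t.2 j)} := ⟨_, rfl⟩
  have key : ∀ {K : Type} [NormedField K] (b : ℝ) (M : ℕ) (φ : L →+* K) (a : Fin k → ℤ), 0 < b →
      (∀ j, ‖φ (ξ j)‖ ^ M = b ^ a j) → ∀ e' : Fin k → ℤ, ‖φ (∏ j, ξ j ^ e' j)‖ ^ M = b ^ (∑ j, e' j * a j) := by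
    intro K _ b M φ a hb ha e'
    rw [map_prod, norm_prod, ← Finset.prod_pow]
    have h1 : ∀ j, ‖φ (ξ j ^ e' j)‖ ^ M = b ^ (e' j * a j) := by
      intro j
      rw [map_zpow₀, norm_zpow, ← zpow_natCast, ← zpow_mul, mul_comm (e' j), zpow_mul, zpow_natCast, ha, ← zpow_mul,
        mul_comm]
    rw [Finset.prod_congr rfl fun j _ => h1 j]
    have key2 : ∀ S : Finset (Fin k), ∏ j ∈ S, b ^ (e' j * a j) = b ^ (∑ j ∈ S, e' j * a j) := by
      intro S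
      induction S using Finset.induction_on with
      | empty => simp
      | insert i S hi ih => rw [Finset.prod_insert hi, Finset.sum_insert hi, zpow_add₀ hb.ne', ih]
    exact key2 _
  have hθn : ∀ {K : Type} [NormedField K] (φ : L →+* K), ‖φ θ‖ = 1 := by
    intro K _ φ
    have h3 : ‖φ θ‖ ^ m = 1 := by rw [← norm_pow, ← map_pow, hθ1, map_one, norm_one]
    exact (pow_eq_one_iff_of_nonneg (norm_nonneg _) hm.ne').mp h3
  have hqR : (1 : ℝ) < q := by exact_mod_cast hq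
  have hqp : ∀ (p : ℕ) [Fact p.Prime], p ∣ q → 0 < ‖(q : PadicAlgCl p)‖ ∧ ‖(q : PadicAlgCl p)‖ < 1 := by
    intro p _ hpq
    have h1 : ‖(q : PadicAlgCl p)‖ = ‖(q : ℚ_[p])‖ := by
      rw [← PadicAlgCl.norm_extends]
      congr 1
    refine ⟨norm_pos_iff.mpr (Nat.cast_ne_zero.mpr (by omega)), ?_⟩
    rw [h1, Padic.norm_natCast_lt_one_iff]
    exact hpq
  have hqp1 : ∀ (p : ℕ) [Fact p.Prime], ¬ p ∣ q → ‖(q : PadicAlgCl p)‖ = 1 := by
    intro p hp hpq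
    have h1 : ‖(q : PadicAlgCl p)‖ = ‖(q : ℚ_[p])‖ := by
      rw [← PadicAlgCl.norm_extends]
      congr 1
    rw [h1, Padic.norm_natCast_eq_one_iff]
    exact (Nat.Prime.coprime_iff_not_dvd hp.out).2 hpq
  have hex : ∃ e : Fin k → ℤ, ∀ t ∈ T, t.1 = ∑ j, e j * t.2 j := by
    refine ⟨e, ?_⟩
    rw [hT]
    rintro t ⟨-, ⟨φ, h1, h2⟩ | ⟨p, hp, φ, hpq, h1, h2⟩⟩
    · rw [heL, map_mul, norm_mul, mul_pow, hθn, one_pow, one_mul, key _ 2 φ t.2 (by linarith) h2] at h1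
      exact (zpow_right_injective₀ (by linarith) hqR.ne' h1).symm
    · obtain ⟨h3, h4⟩ := hqp p hpq
      rw [heL, map_mul, norm_mul, mul_pow, hθn, one_pow, one_mul, key _ D φ t.2 h3 h2] at h1
      exact (zpow_right_injective₀ h3 h4.ne h1).symm
  obtain ⟨e', he'B, he'⟩ := hB₀ T (by rw [hT]; exact fun t ht => ht.1) hex
  have hprodL : (∏ j, ξ j ^ e' j) ≠ 0 := Finset.prod_ne_zero_iff.mpr fun j _ => zpow_ne_zero _ (hξ0 j)
  obtain ⟨g, hg⟩ : ∃ g : L, g = Z * (∏ j, ξ j ^ e' j)⁻¹ := ⟨_, rfl⟩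
  have hZg : Z = g * ∏ j, ξ j ^ e' j := by rw [hg, inv_mul_cancel_right₀ hprodL]
  obtain ⟨n, hn, hn1⟩ := kron g (by
    intro φ
    obtain ⟨wz, hwz, hwz'⟩ := hzC φ
    choose wx hwx hwx' using fun j => hxC j φ
    have h1 := he' (wz, wx) (by rw [hT]; exact ⟨⟨hwz, hwx⟩, Or.inl ⟨φ, hwz', hwx'⟩⟩)
    change wz = ∑ j, e' j * wx j at h1
    have h2 : ‖φ g‖ ^ 2 = 1 := by
      rw [hg, map_mul, map_inv₀, norm_mul, norm_inv, mul_pow, inv_pow, key _ 2 φ wx (by linarith) hwx', hwz', h1,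
        mul_inv_cancel₀]
      exact (zpow_pos (by linarith) _).ne'
    exact (pow_eq_one_iff_of_nonneg (norm_nonneg _) two_ne_zero).mp h2) (by
    intro p hp φ
    obtain ⟨wz, hwz, hwz'⟩ := hzP p φ
    choose wx hwx hwx' using fun j => hxP j p φ
    by_cases hpq : p ∣ q
    · obtain ⟨h3, h4⟩ := hqp p hpq
      have h1 := he' (wz, wx) (by rw [hT]; exact ⟨⟨hwz, hwx⟩, Or.inr ⟨p, hp, φ, hpq, hwz', hwx'⟩⟩)
      change wz = ∑ j, e' j * wx j at h1
      have h2 : ‖φ g‖ ^ D = 1 := by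
        rw [hg, map_mul, map_inv₀, norm_mul, norm_inv, mul_pow, inv_pow, key _ D φ wx h3 hwx', hwz', h1,
          mul_inv_cancel₀]
        exact (zpow_pos h3 _).ne'
      exact ((pow_eq_one_iff_of_nonneg (norm_nonneg _) hD).mp h2).le
    · have h1 := hqp1 p hpq
      rw [h1, one_zpow] at hwz'
      have h2 : ‖φ g‖ ^ D = 1 := by
        rw [hg, map_mul, map_inv₀, norm_mul, norm_inv, mul_pow, inv_pow, key _ D φ (fun _ => 0) one_pos (by
          intro j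
          have := hwx' j
          rw [h1, one_zpow] at this
          rw [this, one_zpow]), hwz']
        simp
      exact ((pow_eq_one_iff_of_nonneg (norm_nonneg _) hD).mp h2).le)
  refine ⟨(g : Ω), e', fun j => (he'B j).trans (by push_cast; omega), ⟨expo (D ^ (k + 1)),
    Nat.pos_of_ne_zero (expo_ne_zero _), Nat.le_add_left _ _, ?_⟩, ?_⟩
  · have hint : IsIntegral ℚ (g : Ω) := by
      have h2 : IsIntegral ℚ g := Algebra.IsIntegral.isIntegral g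
      exact h2.algebraMap
    have h3 : (minpoly ℚ (g : Ω)).natDegree ≤ D ^ (k + 1) := (minpoly_deg L g).trans hLD
    have h4 : @aeval ℚ L _ _ DivisionRing.toRatAlgebra g (minpoly ℚ (g : Ω)) = 0 := by
      have h5 := emb_root L (RingHom.id L) g
      rw [aeval_def]
      have h6 : @algebraMap ℚ L _ _ DivisionRing.toRatAlgebra = Rat.castHom L := RingHom.ext_rat _ _
      rw [h6]
      exact h5
    have h1 := pow_expo (G := L) (minpoly ℚ (g : Ω)) (minpoly.ne_zero hint) (D ^ (k + 1)) h3 g h4 n hn hn1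
    have h2 := congrArg (algebraMap L Ω) h1
    rw [map_pow, map_one] at h2
    exact h2
  · have h1 := congrArg (algebraMap L Ω) hZg
    have h2 := h1.trans (hcoe g e')
    exact hZc.symm.trans h2

end Tor

end Pool.Agent.H60OE
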