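import Mathlib
import Pool.Agent.H60OE.Frob

set_option autoImplicit false

namespace Pool.Agent.H60OE

open Module Polynomial

section Enum

variable {G : Type*} [Field G]

theorem prod_index {a N : ℕ} (x : Fin N → G) (f : Fin a → Fin N) :
    ∏ i, x (f i) = ∏ j, x j ^ (∑ i, if f i = j then 1 else 0) := by
  classical
  have h1 : ∀ j, x j ^ (∑ i, if f i = j then 1 else 0) = ∏ i, if f i = j then x j else 1 := by
    intro j
    rw [← Finset.prod_pow_eq_pow_sum]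
    refine Finset.prod_congr rfl fun i _ => ?_
    split_ifs <;> simp
  rw [Finset.prod_congr rfl fun j _ => h1 j, Finset.prod_comm]
  refine Finset.prod_congr rfl fun i _ => ?_
  rw [Finset.prod_ite_eq]
  simp

theorem exists_fin (s : Multiset G) : ∃ α : Fin (Multiset.card s) → G, (∀ i, α i ∈ s) ∧ ∏ i, α i = s.prod := by
  induction s using Quotient.inductionOn with
  | h l =>
    refine ⟨fun i => l.get i, fun i => ?_, ?_⟩
    · exact Multiset.mem_coe.2 (List.get_mem l i)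
    · have h := Fin.prod_univ_getElem l
      refine Eq.trans h ?_
      simp

theorem exists_enum (s : Multiset G) (N : ℕ) (hN : Multiset.card s = N) :
    ∃ x : Fin N → G, ∀ w, w ∈ s ↔ ∃ i, w = x i := by
  subst hN
  induction s using Quotient.inductionOn with
  | h l =>
    refine ⟨fun i => l.get i, fun w => ?_⟩
    constructor
    · intro hw
      obtain ⟨i, hi⟩ := List.get_of_mem (Multiset.mem_coe.1 hw)
      exact ⟨i, hi.symm⟩
    · rintro ⟨i, rfl⟩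
      exact Multiset.mem_coe.2 (List.get_mem l i)

theorem exists_pow {N : ℕ} (x : Fin N → G) (u : Fin N → ℕ) (B : ℕ) (hu : ∀ j, u j ≤ B) :
    ∃ a ≤ N * B, ∃ α : Fin a → G, (∀ i, ∃ j, α i = x j) ∧ ∏ i, α i = ∏ j, x j ^ u j := by
  classical
  obtain ⟨s, hs⟩ : ∃ s : Multiset G, s = ∑ j, Multiset.replicate (u j) (x j) := ⟨_, rfl⟩
  have hc : Multiset.card s ≤ N * B := by
    rw [hs, Multiset.card_sum]
    simp only [Multiset.card_replicate]
    refine (Finset.sum_le_sum fun j _ => hu j).trans ?_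
    simp
  obtain ⟨α, hα, hp⟩ := exists_fin s
  refine ⟨_, hc, α, fun i => ?_, ?_⟩
  · have h1 := hα i
    rw [hs, Multiset.mem_sum] at h1
    obtain ⟨j, -, hj⟩ := h1
    exact ⟨j, Multiset.eq_of_mem_replicate hj⟩
  · rw [hp, hs, Multiset.prod_sum]
    simp

end Enum

/-- **Uniform multiplicative relations.** -/
theorem frob_uniform (Ω : Type*) [Field Ω] [Algebra ℚ Ω] (D C N : ℕ) : ∃ B : ℕ, ∀ q : ℕ, 2 ≤ q →
    ∀ (x : Fin N → Ω) (z : Ω), FNum D C q z → (∀ i, FNum D C q (x i)) →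
    (∃ ζ w : Ω, (∃ d : ℕ, 0 < d ∧ ζ ^ d = 1) ∧ z = ζ * w ∧ ∃ (a b : ℕ) (α : Fin a → Ω) (β : Fin b → Ω),
      (∀ i, ∃ j, α i = x j) ∧ (∀ i, ∃ j, β i = x j) ∧ w * ∏ j, β j = ∏ i, α i) →
    ∃ ζ w : Ω, (∃ d : ℕ, 0 < d ∧ d ≤ B ∧ ζ ^ d = 1) ∧ z = ζ * w ∧ ∃ a ≤ B, ∃ b ≤ B, ∃ (α : Fin a → Ω) (β : Fin b → Ω),
      (∀ i, ∃ j, α i = x j) ∧ (∀ i, ∃ j, β i = x j) ∧ w * ∏ j, β j = ∏ i, α i := by
  classical
  obtain ⟨B₀, hB₀⟩ := frob_bounded Ω D C N
  refine ⟨B₀ + N * B₀, ?_⟩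
  rintro q hq x z hz hx ⟨ζ, w, ⟨m, hm, hζ⟩, hzw, a, b, α, β, hα, hβ, hw⟩
  have hx0 : ∀ i, x i ≠ 0 := fun i => (hx i).ne_zero hq
  choose f hf using hα
  choose g hg using hβ
  have h1 : ∏ i, α i = ∏ j, x j ^ (∑ i, if f i = j then 1 else 0) := by
    rw [← prod_index]
    exact Finset.prod_congr rfl fun i _ => hf i
  have h2 : ∏ i, β i = ∏ j, x j ^ (∑ i, if g i = j then 1 else 0) := by
    rw [← prod_index]
    exact Finset.prod_congr rfl fun i _ => hg i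
  have h3 : z = ζ * ∏ j, x j ^ (((∑ i, if f i = j then 1 else 0 : ℕ) : ℤ) -
      ((∑ i, if g i = j then 1 else 0 : ℕ) : ℤ)) := by
    rw [hzw]
    congr 1
    have h4 : ∀ j, x j ^ (((∑ i, if f i = j then 1 else 0 : ℕ) : ℤ) - ((∑ i, if g i = j then 1 else 0 : ℕ) : ℤ)) =
        x j ^ (∑ i, if f i = j then 1 else 0) / x j ^ (∑ i, if g i = j then 1 else 0) := by
      intro j
      rw [zpow_sub₀ (hx0 j), zpow_natCast, zpow_natCast]
    rw [Finset.prod_congr rfl fun j _ => h4 j, Finset.prod_div_distrib, ← h1, ← h2, ← hw]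
    rw [mul_div_cancel_right₀]
    rw [h2]
    exact Finset.prod_ne_zero_iff.mpr fun j _ => pow_ne_zero _ (hx0 j)
  obtain ⟨γ, e', he', ⟨d, hd, hdB, hγ⟩, hzγ⟩ := hB₀ q hq x z hz hx ζ m hm hζ _ h3
  have hle : ∀ j, (e' j).toNat ≤ B₀ ∧ (-e' j).toNat ≤ B₀ := by
    intro j
    have h5 := abs_le.1 (he' j)
    constructor <;> omega
  obtain ⟨a', ha', α', hα', hpα⟩ := exists_pow x (fun j => (e' j).toNat) B₀ fun j => (hle j).1
  obtain ⟨b', hb', β', hβ', hpβ⟩ := exists_pow x (fun j => (-e' j).toNat) B₀ fun j => (hle j).2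
  refine ⟨γ, ∏ j, x j ^ e' j, ⟨d, hd, by omega, hγ⟩, hzγ, a', by omega, b', by omega, α', β', hα', hβ', ?_⟩
  rw [hpα, hpβ, ← Finset.prod_mul_distrib]
  refine Finset.prod_congr rfl fun j _ => ?_
  rw [← zpow_natCast, ← zpow_natCast, ← zpow_add₀ (hx0 j)]
  congr 1
  omega

end Pool.Agent.H60OE
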