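import Mathlib
import Pool.Agent.H60OE.Pers

/-!
# Eigenvalues which do not move in a family of matrices, with multiplicities
-/

set_option autoImplicit false

namespace Pool.Agent.H60OE

open Matrix Polynomial

section

variable {G : Type*} [Field G] [IsAlgClosed G] {n : Type*} [Fintype n] [DecidableEq n]

open scoped Classical in
/-- **Persistence, with multiplicities.** -/
theorem persist_dvd (Mt : Matrix n n (PowerSeries G)) (g : Matrix n n G)
    (hg : Mt.map (PowerSeries.constantCoeff (R := G)) = g) (q : G[X]) (hq : q ≠ 0) (N : ℕ)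
    (hN : ∀ j < N, (aeval Mt (q.map (PowerSeries.C (R := G)))).charpoly.coeff j = 0)
    (hN' : (aeval g q).charpoly.coeff N ≠ 0) (z : G) (hqz : q.eval z = 0) :
    (X - C (PowerSeries.C (R := G) z)) ^ (g.charpoly.rootMultiplicity z) ∣ Mt.charpoly := by
  obtain ⟨ι, hinj⟩ : ∃ ι : PowerSeries G →+* AlgebraicClosure (FractionRing (PowerSeries G)),
      Function.Injective ι :=
    ⟨(algebraMap (FractionRing (PowerSeries G)) (AlgebraicClosure (FractionRing (PowerSeries G)))).comp
      (algebraMap (PowerSeries G) (FractionRing (PowerSeries G))),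
      (algebraMap (FractionRing (PowerSeries G)) (AlgebraicClosure (FractionRing (PowerSeries G)))).injective.comp
        (IsFractionRing.injective (PowerSeries G) (FractionRing (PowerSeries G)))⟩
  obtain ⟨c, hc⟩ : ∃ c : G →+* AlgebraicClosure (FractionRing (PowerSeries G)), c = ι.comp (PowerSeries.C (R := G)) :=
    ⟨_, rfl⟩
  have hcinj : Function.Injective c := c.injective
  -- the eigenvalues over the algebraic closure
  obtain ⟨R, hR⟩ : ∃ R, R = (Mt.map ι).charpoly.roots.filter fun y => (q.map c).eval y = 0 := ⟨_, rfl⟩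
  have hcard : N ≤ Multiset.card R := by
    rw [hR, ← rootMult_aeval, rootMult_eq (Matrix.charpoly_monic _)]
    intro j hj
    have h1 : aeval (Mt.map ι) (q.map c) = (aeval Mt (q.map (PowerSeries.C (R := G)))).map ι := by
      rw [map_aeval, Polynomial.map_map, hc]
    rw [h1, Matrix.charpoly_map, coeff_map, hN j hj, map_zero]
  -- they are constants
  have hconst : ∀ y ∈ R, ∃ a : G, q.eval a = 0 ∧ c a = y := by
    intro y hy
    rw [hR, Multiset.mem_filter] at hy
    have h1 : y ∈ (q.map c).roots := by
      rw [mem_roots ((Polynomial.map_ne_zero_iff hcinj).mpr hq)]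
      exact hy.2
    have h2 : (q.map c).roots = q.roots.map c := (IsAlgClosed.splits q).roots_map c
    rw [h2, Multiset.mem_map] at h1
    obtain ⟨a, ha, hay⟩ := h1
    exact ⟨a, ((mem_roots hq).mp ha).eq_zero, hay⟩
  obtain ⟨S, hS, hSq⟩ : ∃ S : Multiset G, S.map c = R ∧ ∀ a ∈ S, q.eval a = 0 := by
    clear hcard hR
    induction R using Multiset.induction_on with
    | empty => exact ⟨0, rfl, fun a ha => absurd ha (Multiset.notMem_zero a)⟩
    | cons y R ih =>
      obtain ⟨S, hS, hSq⟩ := ih fun y' hy' => hconst y' (Multiset.mem_cons_of_mem hy')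
      obtain ⟨a, ha, hay⟩ := hconst y (Multiset.mem_cons_self y R)
      refine ⟨a ::ₘ S, by rw [Multiset.map_cons, hS, hay], fun b hb => ?_⟩
      rcases Multiset.mem_cons.mp hb with rfl | hb
      · exact ha
      · exact hSq b hb
  obtain ⟨P, hP⟩ : ∃ P : G[X], P = (S.map fun a => X - C a).prod := ⟨_, rfl⟩
  have hPm : P.Monic := hP ▸ monic_multiset_prod_of_monic _ _ fun a _ => monic_X_sub_C a
  have hdvd : P.map (PowerSeries.C (R := G)) ∣ Mt.charpoly := by
    rw [← Polynomial.map_dvd_map ι hinj (hPm.map _), Polynomial.map_map, ← hc, ← Matrix.charpoly_map]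
    have h1 : P.map c = (R.map fun y => X - C y).prod := by
      rw [hP, ← hS, Polynomial.map_multiset_prod, Multiset.map_map, Multiset.map_map]
      congr 1
      refine Multiset.map_congr rfl fun a _ => ?_
      simp
    rw [h1]
    refine (Multiset.prod_dvd_prod_of_le (Multiset.map_le_map (hR ▸ Multiset.filter_le _ _))).trans ?_
    exact prod_multiset_X_sub_C_dvd _
  have hdvd0 : P ∣ g.charpoly := by
    have h1 := Polynomial.map_dvd (PowerSeries.constantCoeff (R := G)) hdvd
    rw [Polynomial.map_map, ← Matrix.charpoly_map, hg] at h1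
    have h2 : (PowerSeries.constantCoeff (R := G)).comp (PowerSeries.C (R := G)) = RingHom.id G := by
      ext a
      simp
    rwa [h2, Polynomial.map_id] at h1
  have hle : S ≤ g.charpoly.roots.filter fun y => q.eval y = 0 := by
    rw [Multiset.le_filter]
    refine ⟨?_, hSq⟩
    have h1 := roots.le_of_dvd (Matrix.charpoly_monic g).ne_zero hdvd0
    rwa [hP, roots_multiset_prod_X_sub_C] at h1
  have hle2 : Multiset.card (g.charpoly.roots.filter fun y => q.eval y = 0) ≤ Multiset.card S := by
    have h1 : Multiset.card S = Multiset.card R := by rw [← hS, Multiset.card_map]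
    rw [h1, ← rootMult_aeval]
    refine le_trans ?_ hcard
    by_contra hcon
    push Not at hcon
    exact hN' ((rootMult_eq (Matrix.charpoly_monic _) (N + 1)).mp hcon N (Nat.lt_succ_self N))
  have hSeq := Multiset.eq_of_le_of_card_le hle hle2
  have hcount : S.count z = g.charpoly.rootMultiplicity z := by
    rw [hSeq, Multiset.count_filter_of_pos (p := fun y => eval y q = 0) hqz, count_roots]
  refine dvd_trans ?_ hdvd
  have h1 : (X - C z) ^ (g.charpoly.rootMultiplicity z) ∣ P := by
    rw [← hcount, hP]
    have h2 : (Multiset.replicate (S.count z) z) ≤ S := Multiset.le_count_iff_replicate_le.mp le_rfl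
    have h3 := Multiset.prod_dvd_prod_of_le (Multiset.map_le_map (f := fun a : G => X - C a) h2)
    rwa [Multiset.map_replicate, Multiset.prod_replicate] at h3
  have h2 := Polynomial.map_dvd (PowerSeries.C (R := G)) h1
  rwa [Polynomial.map_pow, Polynomial.map_sub, Polynomial.map_X, Polynomial.map_C] at h2

end

end Pool.Agent.H60OE
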