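import Mathlib
import Pool.Agent.H60OE.Pers2

/-!
# Families with constant eigenvalues: nilpotency of the derivative
-/

set_option autoImplicit false
set_option linter.unusedSectionVars false

namespace Pool.Agent.H60OE

open Matrix Polynomial

section

variable {R : Type*} [CommRing R] {n : Type*} [Fintype n] [DecidableEq n]

theorem charpoly_pq (P Q : Matrix n n R) (h : P * Q = 0) :
    P.charpoly * Q.charpoly = X ^ Fintype.card n * (P + Q).charpoly := by
  have h1 : P.charmatrix * Q.charmatrix = (X : R[X]) • (P + Q).charmatrix := by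
    have h2 : ∀ M : Matrix n n R, M.charmatrix = (X : R[X]) • (1 : Matrix n n R[X]) - C.mapMatrix M := by
      intro M
      rw [Matrix.charmatrix, Matrix.scalar_apply, ← Matrix.smul_one_eq_diagonal]
    rw [h2, h2, h2, sub_mul, mul_sub, mul_sub, ← map_mul, h, map_zero, sub_zero, map_add, smul_sub]
    simp only [smul_mul_assoc, one_mul, mul_smul_comm, mul_one, smul_smul, smul_add]
    abel
  rw [Matrix.charpoly, Matrix.charpoly, Matrix.charpoly, ← Matrix.det_mul, h1, Matrix.det_smul]

end

section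

variable {G : Type*} [Field G] {n : Type*} [Fintype n] [DecidableEq n]

theorem mult_zero_iff {S : Type*} [CommRing S] [IsDomain S] {p : S[X]} (hp : p.Monic) (N : ℕ) :
    N ≤ p.rootMultiplicity 0 ↔ X ^ N ∣ p := by
  rw [le_rootMultiplicity_iff hp.ne_zero, map_zero, sub_zero]

theorem nil_family (Mt : Matrix n n (PowerSeries G)) (g Q : Matrix n n G)
    (hg : Mt.map (PowerSeries.constantCoeff (R := G)) = g) (hQ : Q * Q = Q)
    (hcomm : Q.map (PowerSeries.C (R := G)) * Mt = Mt * Q.map (PowerSeries.C (R := G))) (c : G)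
    (hnil : IsNilpotent (Q * (g - Matrix.scalar n c)))
    (hdvd : (X - C (PowerSeries.C (R := G) c)) ^ (g.charpoly.rootMultiplicity c) ∣ Mt.charpoly) :
    (Q.map (PowerSeries.C (R := G)) * Mt).trace = PowerSeries.C (R := G) (c * Q.trace) := by
  rcases isEmpty_or_nonempty n with hn | hn
  · simp [Matrix.trace]
  obtain ⟨m, hm⟩ : ∃ m, m = g.charpoly.rootMultiplicity c := ⟨_, rfl⟩
  rw [← hm] at hdvd
  obtain ⟨Q', hQ'⟩ : ∃ Q' : Matrix n n (PowerSeries G), Q' = Q.map (PowerSeries.C (R := G)) := ⟨_, rfl⟩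
  rw [← hQ'] at hcomm ⊢
  have hQQ : Q' * Q' = Q' := by
    have h1 : Q' = (PowerSeries.C (R := G)).mapMatrix Q := hQ'
    rw [h1, ← map_mul, hQ]
  obtain ⟨A, hA⟩ : ∃ A, A = Mt - Matrix.scalar n (PowerSeries.C (R := G) c) := ⟨_, rfl⟩
  obtain ⟨A0, hA0⟩ : ∃ A0, A0 = g - Matrix.scalar n c := ⟨_, rfl⟩
  rw [← hA0] at hnil
  have hcomA : Q' * A = A * Q' := by
    rw [hA, mul_sub, sub_mul, hcomm]
    congr 1
    exact ((Matrix.scalar_commute _ (fun r => Commute.all _ r) Q').eq).symm
  have hAA : A.map (PowerSeries.constantCoeff (R := G)) = A0 := by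
    have h1 : A.map (PowerSeries.constantCoeff (R := G)) = (PowerSeries.constantCoeff (R := G)).mapMatrix A := rfl
    have h2 : (PowerSeries.constantCoeff (R := G)).mapMatrix Mt = g := hg
    rw [h1, hA, map_sub, h2, hA0]
    congr 1
    ext i j
    by_cases hij : i = j
    · subst hij; simp
    · simp [hij]
  have hdA : X ^ m ∣ A.charpoly := by
    rw [hA, Matrix.charpoly_sub_scalar]
    obtain ⟨T, hT⟩ := hdvd
    rw [hT, mul_comp, pow_comp, sub_comp, X_comp, C_comp, add_sub_cancel_right]
    exact dvd_mul_right _ _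
  have hmA0 : A0.charpoly.rootMultiplicity 0 = m := by
    rw [hA0, Matrix.charpoly_sub_scalar, ← Polynomial.rootMultiplicity_eq_rootMultiplicity, hm]
  -- `Q A`
  have hPQ : Q' * A * ((1 - Q') * A) = 0 := by
    have h1 : (1 - Q') * A = A * (1 - Q') := by rw [sub_mul, mul_sub, one_mul, mul_one, hcomA]
    rw [h1]
    calc Q' * A * (A * (1 - Q')) = A * A * (Q' * (1 - Q')) := by
          rw [hcomA, mul_assoc, ← mul_assoc Q', hcomA]
          simp only [mul_assoc]
      _ = 0 := by rw [mul_sub, mul_one, hQQ, sub_self, mul_zero]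
  have h1 := charpoly_pq _ _ hPQ
  have hsum : Q' * A + (1 - Q') * A = A := by rw [← add_mul, add_sub_cancel, one_mul]
  rw [hsum] at h1
  have hPQ0 : Q * A0 * ((1 - Q) * A0) = 0 := by
    have h2 := congrArg (PowerSeries.constantCoeff (R := G)).mapMatrix hPQ
    have h3 : (PowerSeries.constantCoeff (R := G)).mapMatrix A = A0 := hAA
    have h4 : (PowerSeries.constantCoeff (R := G)).mapMatrix Q' = Q := by
      rw [hQ']
      ext i j
      simp
    rw [map_mul, map_mul, map_mul, map_sub, map_one, map_zero, h3, h4] at h2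
    exact h2
  have h10 := charpoly_pq _ _ hPQ0
  have hsum0 : Q * A0 + (1 - Q) * A0 = A0 := by rw [← add_mul, add_sub_cancel, one_mul]
  rw [hsum0] at h10
  have hP0 : (Q * A0).charpoly = X ^ Fintype.card n := by
    have h2 := (Matrix.isNilpotent_charpoly_sub_pow_of_isNilpotent hnil).eq_zero
    exact sub_eq_zero.mp h2
  rw [hP0] at h10
  have hQ0 : ((1 - Q) * A0).charpoly = A0.charpoly := mul_left_cancel₀ (pow_ne_zero _ X_ne_zero) h10
  -- multiplicities
  have hr : rootMultiplicity 0 ((Q' * A).charpoly * ((1 - Q') * A).charpoly) =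
      rootMultiplicity 0 (X ^ Fintype.card n * A.charpoly) := by rw [h1]
  rw [Polynomial.rootMultiplicity_mul (mul_ne_zero (Matrix.charpoly_monic _).ne_zero (Matrix.charpoly_monic _).ne_zero),
    Polynomial.rootMultiplicity_mul (mul_ne_zero (pow_ne_zero _ X_ne_zero) (Matrix.charpoly_monic _).ne_zero)] at hr
  have hX : Fintype.card n ≤ rootMultiplicity 0 (X ^ Fintype.card n : (PowerSeries G)[X]) := by
    rw [mult_zero_iff (monic_X_pow _)]
  have hAm : m ≤ rootMultiplicity 0 A.charpoly := by
    rw [mult_zero_iff (Matrix.charpoly_monic _)]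
    exact hdA
  have hQm : rootMultiplicity 0 ((1 - Q') * A).charpoly ≤ m := by
    rw [← hmA0, ← hQ0, mult_zero_iff (Matrix.charpoly_monic _)]
    have h2 : X ^ (rootMultiplicity 0 ((1 - Q') * A).charpoly) ∣ ((1 - Q') * A).charpoly := by
      rw [← mult_zero_iff (Matrix.charpoly_monic _)]
    have h3 := Polynomial.map_dvd (PowerSeries.constantCoeff (R := G)) h2
    rw [Polynomial.map_pow, Polynomial.map_X, ← Matrix.charpoly_map] at h3
    have h4 : ((1 - Q') * A).map (PowerSeries.constantCoeff (R := G)) = (1 - Q) * A0 := by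
      have h5 : ((1 - Q') * A).map (PowerSeries.constantCoeff (R := G)) =
        (PowerSeries.constantCoeff (R := G)).mapMatrix ((1 - Q') * A) := rfl
      have h6 : (PowerSeries.constantCoeff (R := G)).mapMatrix A = A0 := hAA
      have h7 : (PowerSeries.constantCoeff (R := G)).mapMatrix Q' = Q := by
        rw [hQ']
        ext i j
        simp
      rw [h5, map_mul, map_sub, map_one, h6, h7]
    rwa [h4] at h3
  have hP : Fintype.card n ≤ rootMultiplicity 0 (Q' * A).charpoly := by omega
  rw [mult_zero_iff (Matrix.charpoly_monic _)] at hP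
  have hPX : (Q' * A).charpoly = X ^ Fintype.card n := by
    refine (Polynomial.eq_of_monic_of_dvd_of_natDegree_le (monic_X_pow _) (Matrix.charpoly_monic _) hP ?_)
    rw [Matrix.charpoly_natDegree_eq_dim, natDegree_X_pow]
  have htr : (Q' * A).trace = 0 := by
    rw [Matrix.trace_eq_neg_charpoly_coeff, hPX, coeff_X_pow, if_neg, neg_zero]
    have := Fintype.card_pos (α := n)
    omega
  rw [hA, mul_sub, Matrix.trace_sub, sub_eq_zero] at htr
  rw [htr]
  have h5 : Q' * Matrix.scalar n (PowerSeries.C (R := G) c) = (PowerSeries.C (R := G) c) • Q' := by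
    rw [Matrix.scalar_apply, ← Matrix.smul_one_eq_diagonal, mul_smul_comm, mul_one]
  rw [h5, Matrix.trace_smul, map_mul, smul_eq_mul]
  congr 1
  rw [hQ']
  simp [Matrix.trace]

end

end Pool.Agent.H60OE
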