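import Mathlib
import Pool.Agent.H60OE.Nil

/-!
# Nilpotency from traces
-/

set_option autoImplicit false
set_option linter.unusedSectionVars false

namespace Pool.Agent.H60OE

open Matrix Polynomial

section

variable {G : Type*} [Field G] [CharZero G] [IsAlgClosed G] {n : Type*} [Fintype n] [DecidableEq n]

/-- the trace of a polynomial of a matrix -/
theorem trace_aeval (M : Matrix n n G) (p : G[X]) : (aeval M p).trace = (M.charpoly.roots.map fun z => p.eval z).sum := by
  rw [Matrix.trace_eq_sum_roots_charpoly, charpoly_aeval]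
  have h1 : (M.charpoly.roots.map fun z => X - C (p.eval z)).prod =
      ((M.charpoly.roots.map fun z => p.eval z).map fun z => X - C z).prod := by
    rw [Multiset.map_map]
    rfl
  rw [h1, roots_multiset_prod_X_sub_C]

theorem nil_of_trace (T : Matrix n n G) (h : ∀ s : ℕ, 1 ≤ s → (T ^ s).trace = 0) : IsNilpotent T := by
  classical
  have hp : ∀ p : G[X], p.coeff 0 = 0 → (aeval T p).trace = 0 := by
    intro p hp
    rw [aeval_eq_sum_range, Matrix.trace_sum]
    refine Finset.sum_eq_zero fun i _ => ?_
    rw [Matrix.trace_smul]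
    rcases Nat.eq_zero_or_pos i with hi | hi
    · rw [hi, hp, zero_smul]
    · rw [h i hi, smul_zero]
  have hroots : ∀ y ∈ T.charpoly.roots, y = 0 := by
    intro y hy
    by_contra hy0
    obtain ⟨p, hpd⟩ : ∃ p : G[X], p = X * ∏ a ∈ (T.charpoly.roots.toFinset.erase y), (X - C a) := ⟨_, rfl⟩
    have h1 := hp p (by rw [hpd, mul_coeff_zero, coeff_X_zero, zero_mul])
    rw [trace_aeval] at h1
    have h2 : (T.charpoly.roots.map fun z => p.eval z) = T.charpoly.roots.map fun z => if z = y then p.eval y else 0 := by
      refine Multiset.map_congr rfl fun z hz => ?_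
      split_ifs with hzy
      · rw [hzy]
      · rw [hpd, eval_mul, eval_prod]
        have h3 : ∏ a ∈ (T.charpoly.roots.toFinset.erase y), (X - C a).eval z = 0 := by
          refine Finset.prod_eq_zero (i := z) ?_ (by simp)
          rw [Finset.mem_erase, Multiset.mem_toFinset]
          exact ⟨hzy, hz⟩
        rw [h3, mul_zero]
    rw [h2] at h1
    have h3 : (T.charpoly.roots.map fun z => if z = y then p.eval y else 0).sum =
        (T.charpoly.roots.count y : G) * p.eval y := by
      have h4 : ∀ S : Multiset G, (S.map fun z => if z = y then p.eval y else 0).sum = (S.count y : G) * p.eval y := by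
        intro S
        induction S using Multiset.induction_on with
        | empty => simp
        | cons a S ih =>
          rw [Multiset.map_cons, Multiset.sum_cons, ih, Multiset.count_cons]
          by_cases hay : a = y
          · subst hay
            simp
            ring
          · rw [if_neg hay, if_neg (Ne.symm hay), add_zero, zero_add]
      exact h4 _
    rw [h3] at h1
    rcases mul_eq_zero.mp h1 with h4 | h4
    · have h5 : T.charpoly.roots.count y = 0 := by exact_mod_cast h4
      exact (Multiset.count_eq_zero.mp h5) hy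
    · rw [hpd, eval_mul, eval_X, eval_prod, mul_eq_zero, Finset.prod_eq_zero_iff] at h4
      rcases h4 with h4 | ⟨a, ha, h5⟩
      · exact hy0 h4
      · rw [Finset.mem_erase] at ha
        rw [eval_sub, eval_X, eval_C, sub_eq_zero] at h5
        exact ha.1 h5.symm
  have h1 : T.charpoly = X ^ Fintype.card n := by
    have h2 := charpoly_eq_prod T
    have h3 : T.charpoly.roots.map (fun z => X - C z) = T.charpoly.roots.map fun _ => (X : G[X]) := by
      refine Multiset.map_congr rfl fun z hz => ?_
      rw [hroots z hz, C_0, sub_zero]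
    rw [h3, Multiset.map_const', Multiset.prod_replicate, IsAlgClosed.card_roots_eq_natDegree,
      Matrix.charpoly_natDegree_eq_dim] at h2
    exact h2
  refine ⟨Fintype.card n, ?_⟩
  have h2 := Matrix.aeval_self_charpoly T
  rwa [h1, map_pow, aeval_X] at h2

/-- **Nilpotency.** -/
theorem nilp (g g' Y Q : Matrix n n G) (hg' : g' * g = 1) (hQ : Q * Q = Q) (hgQ : Q * g = g * Q) (hYQ : Q * Y = Y * Q)
    (c : G) (hnil : IsNilpotent (Q * (g - Matrix.scalar n c)))
    (hfam : ∀ i, 1 ≤ i → i ≤ Fintype.card n → ∃ Mt : Matrix n n (PowerSeries G),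
      (∀ s a b, PowerSeries.coeff s (Mt a b) = ((s.factorial : G)⁻¹) * (g ^ i * Y ^ s) a b) ∧
      (X - C (PowerSeries.C (R := G) (c ^ i))) ^ ((g ^ i).charpoly.rootMultiplicity (c ^ i)) ∣ Mt.charpoly) :
    IsNilpotent (Q * Y) := by
  have hQgi : ∀ i : ℕ, Q * g ^ i = g ^ i * Q := fun i => ((show Commute Q g from hgQ).pow_right i).eq
  have hQYs : ∀ s : ℕ, Q * Y ^ s = Y ^ s * Q := fun s => ((show Commute Q Y from hYQ).pow_right s).eq
  have h1 : ∀ i, 1 ≤ i → i ≤ Fintype.card n → ∀ s, 1 ≤ s → (Q * (g ^ i * Y ^ s)).trace = 0 := by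
    intro i hi hi' s hs
    obtain ⟨Mt, hM, hdvd⟩ := hfam i hi hi'
    have h2 := nil_family Mt (g ^ i) Q (by
      ext a b
      rw [Matrix.map_apply, ← PowerSeries.coeff_zero_eq_constantCoeff_apply, hM]
      simp) hQ (by
      ext a b t
      rw [Matrix.mul_apply, Matrix.mul_apply, map_sum, map_sum]
      have h3 : ∀ x, PowerSeries.coeff t ((Q.map (PowerSeries.C (R := G))) a x * Mt x b) =
          ((t.factorial : G)⁻¹) * (Q a x * (g ^ i * Y ^ t) x b) := by
        intro x
        rw [Matrix.map_apply, PowerSeries.coeff_C_mul, hM]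
        ring
      have h4 : ∀ x, PowerSeries.coeff t (Mt a x * (Q.map (PowerSeries.C (R := G))) x b) =
          ((t.factorial : G)⁻¹) * ((g ^ i * Y ^ t) a x * Q x b) := by
        intro x
        rw [Matrix.map_apply, PowerSeries.coeff_mul_C, hM]
        ring
      rw [Finset.sum_congr rfl fun x _ => h3 x, Finset.sum_congr rfl fun x _ => h4 x, ← Finset.mul_sum,
        ← Finset.mul_sum, ← Matrix.mul_apply, ← Matrix.mul_apply]
      congr 2
      rw [← mul_assoc, hQgi, mul_assoc, hQYs, mul_assoc]) (c ^ i) (by
      obtain ⟨q, hq⟩ : ∃ q : G[X], X ^ i - C c ^ i = (X - C c) * q := sub_dvd_pow_sub_pow X (C c) i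
      have h5 : g ^ i - Matrix.scalar n (c ^ i) = (g - Matrix.scalar n c) * aeval g q := by
        have h6 := congrArg (aeval g) hq
        have h7 : ∀ a : G, aeval g (C a) = Matrix.scalar n a := by
          intro a
          rw [aeval_C]
          simp [Matrix.algebraMap_eq_diagonal, Matrix.scalar_apply, Pi.algebraMap_def]
        rw [map_sub, map_mul, map_sub, map_pow, aeval_X, ← C_pow, h7, h7] at h6
        exact h6
      rw [h5, ← mul_assoc]
      refine Commute.isNilpotent_mul_right ?_ hnil
      have h6 : Commute Q (aeval g q) := by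
        have h7 : aeval g q ∈ Algebra.adjoin G {g} := aeval_mem_adjoin_singleton G g
        exact Algebra.commute_of_mem_adjoin_singleton_of_commute h7 (show Commute Q g from hgQ)
      have h8 : Commute (g - Matrix.scalar n c) (aeval g q) := by
        have h9 : Commute g (aeval g q) := by
          have h7 : aeval g q ∈ Algebra.adjoin G {g} := aeval_mem_adjoin_singleton G g
          exact Algebra.commute_of_mem_adjoin_singleton_of_commute h7 (Commute.refl g)
        exact h9.sub_left (Matrix.scalar_commute _ (fun r => Commute.all _ r) _)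
      exact h6.mul_left h8) hdvd
    have h3 := congrArg (PowerSeries.coeff s) h2
    rw [PowerSeries.coeff_C, if_neg (by omega), Matrix.trace, map_sum] at h3
    have h4 : ∀ a, PowerSeries.coeff s ((Q.map (PowerSeries.C (R := G)) * Mt).diag a) =
        ((s.factorial : G)⁻¹) * (Q * (g ^ i * Y ^ s)) a a := by
      intro a
      rw [Matrix.diag_apply, Matrix.mul_apply, map_sum, Matrix.mul_apply, Finset.mul_sum]
      refine Finset.sum_congr rfl fun x _ => ?_
      rw [Matrix.map_apply, PowerSeries.coeff_C_mul, hM]
      ring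
    rw [Finset.sum_congr rfl fun a _ => h4 a, ← Finset.mul_sum] at h3
    exact (mul_eq_zero.mp h3).resolve_left (inv_ne_zero (Nat.cast_ne_zero.mpr (Nat.factorial_ne_zero s)))
  -- Cayley and Hamilton
  have h2 : ∀ s, 1 ≤ s → (Q * Y ^ s).trace = 0 := by
    intro s hs
    have h3 := Matrix.aeval_self_charpoly g
    rw [aeval_eq_sum_range, Matrix.charpoly_natDegree_eq_dim, Finset.sum_range_succ'] at h3
    have h4 : (Q * ((∑ i ∈ Finset.range (Fintype.card n), g.charpoly.coeff (i + 1) • g ^ (i + 1) +
        g.charpoly.coeff 0 • g ^ 0) * Y ^ s)).trace = 0 := by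
      rw [h3, zero_mul, mul_zero, Matrix.trace_zero]
    rw [add_mul, mul_add, Matrix.trace_add, Finset.sum_mul, Finset.mul_sum, Matrix.trace_sum,
      Finset.sum_eq_zero, zero_add, pow_zero, smul_mul_assoc, one_mul, mul_smul_comm, Matrix.trace_smul,
      smul_eq_mul] at h4
    · refine (mul_eq_zero.mp h4).resolve_left fun h5 => ?_
      have h6 : g.det = 0 := by rw [Matrix.det_eq_sign_charpoly_coeff, h5, mul_zero]
      have h7 := congrArg Matrix.det hg'
      rw [Matrix.det_mul, h6, mul_zero, Matrix.det_one] at h7
      exact zero_ne_one h7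
    · intro i hi
      rw [smul_mul_assoc, mul_smul_comm, Matrix.trace_smul,
        h1 (i + 1) (by omega) (by have := Finset.mem_range.mp hi; omega) s hs, smul_zero]
  refine nil_of_trace _ fun s hs => ?_
  have h3 : (Q * Y) ^ s = Q * Y ^ s := by
    rw [(show Commute Q Y from hYQ).mul_pow]
    congr 1
    have h4 : ∀ s : ℕ, Q ^ (s + 1) = Q := by
      intro s
      induction s with
      | zero => rw [zero_add, pow_one]
      | succ s ih => rw [pow_succ, ih, hQ]
    obtain ⟨t, rfl⟩ : ∃ t, s = t + 1 := ⟨s - 1, by omega⟩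
    exact h4 t
  rw [h3]
  exact h2 s hs

end

end Pool.Agent.H60OE
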