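import Mathlib
import Pool.Agent.H60OE.FamG
import Pool.Agent.H60OE.Nil2
import Pool.Agent.H60OE.Fin2

/-!
# A good eigenvalue is the geometric mean of two bad ones: tangent vectors
-/

set_option autoImplicit false
set_option linter.unusedSectionVars false
set_option linter.style.haveILetI false

namespace Pool.Agent.H60OE

open Module Matrix Polynomial Pool.Agent.H40GO Pool.Agent.H40LT

section

variable {K : Type*} [Field K] [IsAlgClosed K] {V : Type*} [AddCommGroup V] [Module K V] [FiniteDimensional K V]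

/-- the projection onto a generalised eigenspace -/
theorem exists_proj (f : Module.End K V) (z : K) : ∃ p : Module.End K V, p * p = p ∧
    (∀ u ∈ f.maxGenEigenspace z, p u = u) ∧ (∀ u, p u ∈ f.maxGenEigenspace z) ∧
    ∀ T : Module.End K V, (∀ c, ∀ u ∈ f.maxGenEigenspace c, T u ∈ f.maxGenEigenspace c) → p * T = T * p := by
  obtain ⟨W, hW⟩ : ∃ W, W = ⨆ (c : K) (_ : c ≠ z), f.maxGenEigenspace c := ⟨_, rfl⟩
  have htop : ∀ u : V, u ∈ ⨆ c, f.maxGenEigenspace c := by
    intro u
    rw [Module.End.iSup_maxGenEigenspace_eq_top]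
    exact Submodule.mem_top
  have hcompl : IsCompl (f.maxGenEigenspace z) W := by
    refine ⟨?_, ?_⟩
    · rw [hW]
      exact f.independent_maxGenEigenspace z
    · rw [codisjoint_iff, eq_top_iff]
      intro u _
      have hu := htop u
      induction hu using Submodule.iSup_induction' with
      | mem c u hu =>
        by_cases hc : c = z
        · rw [hc] at hu
          exact Submodule.mem_sup_left hu
        · refine Submodule.mem_sup_right ?_
          rw [hW]
          exact Submodule.mem_iSup_of_mem c (Submodule.mem_iSup_of_mem hc hu)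
      | zero => exact Submodule.zero_mem _
      | add x y _ _ hx hy => exact Submodule.add_mem _ (hx trivial) (hy trivial)
  refine ⟨(f.maxGenEigenspace z).projection W hcompl, ?_, ?_, ?_, ?_⟩
  · exact Submodule.isIdempotentElem_projection hcompl
  · intro u hu
    exact Submodule.projection_apply_of_mem_left hcompl hu
  · intro u
    exact Submodule.projection_apply_mem hcompl u
  · intro T hT
    ext u
    rw [Module.End.mul_apply, Module.End.mul_apply]
    have hu := htop u
    induction hu using Submodule.iSup_induction' with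
    | mem c u hu =>
      by_cases hc : c = z
      · rw [hc] at hu
        rw [Submodule.projection_apply_of_mem_left hcompl hu,
          Submodule.projection_apply_of_mem_left hcompl (hT z u hu)]
      · have h1 : ∀ u ∈ f.maxGenEigenspace c, u ∈ W := by
          intro u hu
          rw [hW]
          exact Submodule.mem_iSup_of_mem c (Submodule.mem_iSup_of_mem hc hu)
        rw [Submodule.projection_apply_of_mem_right hcompl (h1 u hu),
          Submodule.projection_apply_of_mem_right hcompl (h1 _ (hT c u hu)), map_zero]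
    | zero => simp
    | add x y _ _ hx hy => rw [map_add, map_add, map_add, map_add, hx, hy]

end

attribute [local instance 100] LieRing.ofAssociativeRing

section

variable {F : Type*} [Field F] [CharZero F] {G : Type*} [Field G] [Algebra F G] [IsAlgClosed G]
  {Γ : Type*} [Group Γ] {m n : Type*} [Fintype m] [DecidableEq m] [Fintype n] [DecidableEq n]

/-- **Good eigenvalues and tangent vectors.** -/
theorem tan_zero_gen (Δ : Subgroup Γ) [hΔ : Δ.Normal] (W : Γ →* Matrix m m F)
    (ρ : Γ →* Matrix n n F) (hirr : Irr ρ) (N k : ℕ) (hk : k ≠ 0) (hN : N ≠ 0)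
    (h : ∀ x ∈ Δ, MZ N (aeval (ρ x ^ k) (W x ^ k).charpoly)) (x₀ : Γ) (hx₀ : x₀ ∈ Δ)
    (hcoef : ∀ i, 1 ≤ i → i ≤ Fintype.card n →
      (aeval (ρ (x₀ ^ i) ^ k) (W (x₀ ^ i) ^ k).charpoly).charpoly.coeff N ≠ 0)
    (hR : ∀ x y, (bc G ρ x₀).charpoly.IsRoot x → (bc G ρ x₀).charpoly.IsRoot y → x ≠ y →
      ∀ j, 1 ≤ j → j ≤ Fintype.card n → x ^ j ≠ y ^ j)
    (z : G) (hzr : (bc G ρ x₀).charpoly.IsRoot z) (hzW : (bc G W x₀ ^ k).charpoly.IsRoot (z ^ k))
    (hiso : ∀ x y, (bc G ρ x₀).charpoly.IsRoot x → (bc G ρ x₀).charpoly.IsRoot y → x * y = z ^ 2 →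
      (bc G W x₀ ^ k).charpoly.IsRoot (x ^ k) ∨ (bc G W x₀ ^ k).charpoly.IsRoot (y ^ k))
    (Y₀ : Matrix n n F) (hY₀ : IsTan (W.comp Δ.subtype) (ρ.comp Δ.subtype) Y₀) : Y₀ = 0 := by
  by_contra hne
  haveI : CharZero G := charZero_of_injective_algebraMap (algebraMap F G).injective
  obtain ⟨ι, hι⟩ : ∃ ι : Matrix n n F →+* Module.End G (n → G), ∀ Y, ι Y = Matrix.toLin' (Y.map (algebraMap F G)) :=
    ⟨((Matrix.toLinAlgEquiv' : Matrix n n G ≃ₐ[G] Module.End G (n → G)) : Matrix n n G →+* Module.End G (n → G)).comp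
      (algebraMap F G).mapMatrix, fun _ => rfl⟩
  -- the Lie algebra is stable
  have hst : ∀ (g : Γ) (Y : Matrix n n F), IsTan (W.comp Δ.subtype) (ρ.comp Δ.subtype) Y →
      IsTan (W.comp Δ.subtype) (ρ.comp Δ.subtype) (ρ g * Y * ρ g⁻¹) := by
    intro g Y hY
    refine tan_conj (W.comp Δ.subtype) (ρ.comp Δ.subtype) (MulAut.conjNormal g⁻¹) (ρ g⁻¹) (ρ g) ?_ ?_
      (W g⁻¹) (W g) ?_ ?_ _ hY
    · rw [← map_mul, inv_mul_cancel, map_one]
    · intro x
      change ρ ((MulAut.conjNormal g⁻¹ x : Δ) : Γ) = _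
      rw [MulAut.conjNormal_apply, inv_inv, map_mul, map_mul]
      rfl
    · rw [← map_mul, inv_mul_cancel, map_one]
    · intro x
      change W ((MulAut.conjNormal g⁻¹ x : Δ) : Γ) = _
      rw [MulAut.conjNormal_apply, inv_inv, map_mul, map_mul]
      rfl
  -- the Casimir element
  obtain ⟨d, b, b', D, hb, hb', hCc, hDC, hexp⟩ := exists_casimir' (toEnd' ρ) (irrEnd_of_irr ρ hirr)
    (tanL (W.comp Δ.subtype) (ρ.comp Δ.subtype)) (by
    intro g Y hY
    change IsTan _ _ (LinearMap.toMatrix' (toEnd' ρ g * Y * toEnd' ρ g⁻¹))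
    rw [LinearMap.toMatrix'_mul, LinearMap.toMatrix'_mul]
    have h2 : ∀ g, LinearMap.toMatrix' (toEnd' ρ g) = ρ g := fun g => LinearMap.toMatrix'_toLin' (ρ g)
    rw [h2, h2]
    exact hst g _ hY) (by
    intro Y hY
    have h3 := tan_mz (W.comp Δ.subtype) (ρ.comp Δ.subtype) N k hk (fun x => h x x.2) _ hY
    rw [mz_iff] at h3
    have h4 : (LinearMap.toMatrix' Y).charpoly = Y.charpoly := by
      rw [← Matrix.charpoly_toLin', Matrix.toLin'_toMatrix']
    rw [h4] at h3
    omega) (Matrix.toLin' Y₀) (by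
    change IsTan _ _ (LinearMap.toMatrix' (Matrix.toLin' Y₀))
    rwa [LinearMap.toMatrix'_toLin']) (by
    intro h0
    apply hne
    have h4 := congrArg LinearMap.toMatrix' h0
    rwa [LinearMap.toMatrix'_toLin', map_zero] at h4)
  obtain ⟨β, hβ⟩ : ∃ β : Module.End F (n → F) →+* Matrix n n F, ∀ Y, β Y = LinearMap.toMatrix' Y :=
    ⟨((Matrix.toLinAlgEquiv' : Matrix n n F ≃ₐ[F] Module.End F (n → F)).symm : Module.End F (n → F) →+* Matrix n n F),
      fun _ => rfl⟩
  obtain ⟨κ, hκ⟩ : ∃ κ : Module.End F (n → F) →+* Module.End G (n → G), κ = ι.comp β := ⟨_, rfl⟩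
  have hκa : ∀ Y, κ Y = ι (LinearMap.toMatrix' Y) := by
    intro Y
    rw [hκ]
    change ι (β Y) = _
    rw [hβ]
  have hκρ : ∀ g, κ (toEnd' ρ g) = Matrix.toLin' (bc G ρ g) := by
    intro g
    have h2 : LinearMap.toMatrix' (toEnd' ρ g) = ρ g := LinearMap.toMatrix'_toLin' (ρ g)
    rw [hκa, h2, hι]
    rfl
  have hκtr : ∀ Y, LinearMap.trace G (n → G) (κ Y) = algebraMap F G (LinearMap.trace F (n → F) Y) := by
    intro Y
    have h1 : LinearMap.trace F (n → F) Y = (LinearMap.toMatrix' Y).trace := by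
      conv_lhs => rw [← Matrix.toLin'_toMatrix' Y]
      rw [Matrix.trace_toLin'_eq]
    rw [hκa, hι, Matrix.trace_toLin'_eq, h1, Matrix.trace, Matrix.trace, map_sum]
    rfl
  have hκs : ∀ (c : F) (Y : Module.End F (n → F)), κ (c • Y) = algebraMap F G c • κ Y := by
    intro c Y
    rw [hκa, hκa, hι, hι, map_smul]
    have h2 : (c • LinearMap.toMatrix' Y).map (algebraMap F G) =
        algebraMap F G c • (LinearMap.toMatrix' Y).map (algebraMap F G) := by
      ext i j
      simp
    rw [h2, map_smul]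
  obtain ⟨f, hf⟩ : ∃ f : Module.End G (n → G), f = Matrix.toLin' (bc G ρ x₀) := ⟨_, rfl⟩
  obtain ⟨f', hf'⟩ : ∃ f' : Module.End G (n → G), f' = Matrix.toLin' (bc G ρ x₀⁻¹) := ⟨_, rfl⟩
  have hff : f' * f = 1 := by
    rw [hf, hf']
    refine (Matrix.toLin'_mul _ _).symm.trans ?_
    rw [← map_mul, inv_mul_cancel, map_one, Matrix.toLin'_one]
    rfl
  -- the Lie algebra over `G`
  obtain ⟨L, hL⟩ : ∃ L : Submodule G (Module.End G (n → G)), L = Submodule.span G
      {T | ∃ Y, IsTan (W.comp Δ.subtype) (ρ.comp Δ.subtype) Y ∧ T = ι Y} := ⟨_, rfl⟩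
  have hLm : ∀ Y, IsTan (W.comp Δ.subtype) (ρ.comp Δ.subtype) Y → ι Y ∈ L := by
    intro Y hY
    rw [hL]
    exact Submodule.subset_span ⟨Y, hY, rfl⟩
  have hLst : ∀ T ∈ L, f * T * f' ∈ L := by
    intro T hT
    rw [hL] at hT
    induction hT using Submodule.span_induction with
    | mem T hT =>
      obtain ⟨Y, hY, rfl⟩ := hT
      have h1 : f * ι Y * f' = ι (ρ x₀ * Y * ρ x₀⁻¹) := by
        rw [map_mul, map_mul, hι (ρ x₀), hι (ρ x₀⁻¹), hf, hf']
        rfl
      rw [h1]
      exact hLm _ (hst x₀ Y hY)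
    | zero => rw [mul_zero, zero_mul]; exact L.zero_mem
    | add S T _ _ hS hT => rw [mul_add, add_mul]; exact L.add_mem hS hT
    | smul c T _ hT => rw [mul_smul_comm, smul_mul_assoc]; exact L.smul_mem c hT
  have hLbr : ∀ S ∈ L, ∀ T ∈ L, S * T - T * S ∈ L := by
    intro S hS T hT
    rw [hL] at hS hT
    induction hS using Submodule.span_induction with
    | mem S hS =>
      obtain ⟨Y, hY, rfl⟩ := hS
      induction hT using Submodule.span_induction with
      | mem T hT =>
        obtain ⟨Y', hY', rfl⟩ := hT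
        rw [← map_mul, ← map_mul, ← map_sub]
        exact hLm _ (IsTan.lie _ _ hY hY')
      | zero => rw [mul_zero, zero_mul, sub_zero]; exact L.zero_mem
      | add S T _ _ hS hT =>
        have h1 : ι Y * (S + T) - (S + T) * ι Y = (ι Y * S - S * ι Y) + (ι Y * T - T * ι Y) := by noncomm_ring
        rw [h1]
        exact L.add_mem hS hT
      | smul c T _ hT =>
        rw [mul_smul_comm, smul_mul_assoc, ← smul_sub]
        exact L.smul_mem c hT
    | zero => rw [mul_zero, zero_mul, sub_zero]; exact L.zero_mem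
    | add S S' _ _ hS hS' =>
      have h1 : (S + S') * T - T * (S + S') = (S * T - T * S) + (S' * T - T * S') := by noncomm_ring
      rw [h1]
      exact L.add_mem hS hS'
    | smul c S _ hS =>
      rw [mul_smul_comm, smul_mul_assoc, ← smul_sub]
      exact L.smul_mem c hS
  have hLexp : ∀ T ∈ L, T = ∑ i, LinearMap.trace G (n → G) (κ (b' i) * T) • κ (b i) := by
    intro T hT
    rw [hL] at hT
    induction hT using Submodule.span_induction with
    | mem T hT =>
      obtain ⟨Y, hY, rfl⟩ := hT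
      have h1 : ι Y = κ (Matrix.toLin' Y) := by rw [hκa, LinearMap.toMatrix'_toLin']
      have h2 := hexp (Matrix.toLin' Y) (by
        change IsTan _ _ (LinearMap.toMatrix' (Matrix.toLin' Y))
        rwa [LinearMap.toMatrix'_toLin'])
      rw [h1]
      conv_lhs => rw [h2, map_sum]
      refine Finset.sum_congr rfl fun i _ => ?_
      rw [hκs, ← map_mul, hκtr]
    | zero => simp
    | add S T _ _ hS hT =>
      conv_lhs => rw [hS, hT]
      rw [← Finset.sum_add_distrib]
      refine Finset.sum_congr rfl fun i _ => ?_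
      rw [mul_add, map_add, add_smul]
    | smul c T _ hT =>
      conv_lhs => rw [hT]
      rw [Finset.smul_sum]
      refine Finset.sum_congr rfl fun i _ => ?_
      rw [mul_smul_comm, map_smul, smul_assoc]
  have hκL : ∀ Y ∈ tanL (W.comp Δ.subtype) (ρ.comp Δ.subtype), κ Y ∈ L := by
    intro Y hY
    rw [hκa]
    exact hLm _ hY
  have hdat : Dat f f' L := by
    refine ⟨hff, hLst, hLbr, fun T hT h0 => ?_⟩
    rw [hLexp T hT]
    refine Finset.sum_eq_zero fun i _ => ?_
    rw [LinearMap.trace_mul_comm, h0 _ (hκL _ (hb' i)), zero_smul]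
  -- tangent vectors over `G`
  have hTan : ∀ T ∈ L, TanG (G := G) (W.comp Δ.subtype) (ρ.comp Δ.subtype) (LinearMap.toMatrix' T) := by
    intro T hT
    rw [hL] at hT
    induction hT using Submodule.span_induction with
    | mem T hT =>
      obtain ⟨Y, hY, rfl⟩ := hT
      rw [hι, LinearMap.toMatrix'_toLin']
      exact TanG.of_isTan _ _ hY
    | zero => rw [map_zero]; exact TanG.zero _ _
    | add S T _ _ hS hT => rw [map_add]; exact hS.add _ _ hT
    | smul c T _ hT => rw [map_smul]; exact hT.smul _ _ c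
  have hcp : f.charpoly = (bc G ρ x₀).charpoly := by rw [hf, Matrix.charpoly_toLin']
  have hmax : ∀ x, f.maxGenEigenspace x ≠ ⊥ ↔ (bc G ρ x₀).charpoly.IsRoot x := by
    intro x
    have h1 : f.maxGenEigenspace x ≠ ⊥ ↔ Module.finrank G (f.maxGenEigenspace x) ≠ 0 := by
      rw [Ne, Ne, Submodule.finrank_eq_zero]
    rw [h1, LinearMap.finrank_maxGenEigenspace_eq, hcp, ← Nat.pos_iff_ne_zero,
      Polynomial.rootMultiplicity_pos (Matrix.charpoly_monic _).ne_zero]
  have hfr : finrank G (n → G) = Fintype.card n := Module.finrank_fintype_fun_eq_card G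
  refine hdat.final (fun i => κ (b i)) (fun i => κ (b' i)) (fun i => hκL _ (hb i)) (fun i => hκL _ (hb' i)) (κ D) ?_ ?_
    (fun x => (bc G W x₀ ^ k).charpoly.IsRoot (x ^ k)) ?_ ?_ z ((hmax z).2 hzr) hzW ?_
  · have h1 : ∑ i, κ (b i) * κ (b' i) = κ (∑ i, b i * b' i) := by
      rw [map_sum]
      exact Finset.sum_congr rfl fun i _ => (map_mul κ _ _).symm
    rw [h1, ← map_mul, hDC, map_one]
  · have h1 : ∑ i, κ (b i) * κ (b' i) = κ (∑ i, b i * b' i) := by
      rw [map_sum]
      exact Finset.sum_congr rfl fun i _ => (map_mul κ _ _).symm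
    rw [h1, hf, ← hκρ, ← map_mul, hCc, map_mul]
  · intro x y hx hy hxy j hj hj'
    rw [hfr] at hj'
    exact hR x y ((hmax x).1 hx) ((hmax y).1 hy) hxy j hj hj'
  · -- nilpotency
    intro c hc Z hZ u hu
    obtain ⟨p, hpp, hp1, hp2, hpT⟩ := exists_proj f c
    have hpZ : p * Z = Z * p := hpT Z fun e v hv => by
      have h3 := mem_pair f f' hff 1 e Z v hZ.2 hv
      rwa [one_mul] at h3
    have hpf : p * f = f * p := hpT f fun e v hv => by
      rw [Module.End.mem_maxGenEigenspace] at hv ⊢
      obtain ⟨l, hl⟩ := hv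
      refine ⟨l, ?_⟩
      have h1 : Commute (f - e • (1 : Module.End G (n → G))) f :=
        (Commute.refl f).sub_left ((Commute.one_left f).smul_left e)
      rw [← Module.End.mul_apply, (h1.pow_left l).eq, Module.End.mul_apply, hl, map_zero]
    obtain ⟨Q, hQ⟩ : ∃ Q, Q = LinearMap.toMatrix' p := ⟨_, rfl⟩
    obtain ⟨Y, hY⟩ : ∃ Y, Y = LinearMap.toMatrix' Z := ⟨_, rfl⟩
    have hfm : LinearMap.toMatrix' f = bc G ρ x₀ := by rw [hf, LinearMap.toMatrix'_toLin']
    have hm : ∀ A B : Module.End G (n → G), LinearMap.toMatrix' (A * B) = LinearMap.toMatrix' A * LinearMap.toMatrix' B :=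
      fun A B => LinearMap.toMatrix'_mul A B
    have hnil := nilp (bc G ρ x₀) (bc G ρ x₀⁻¹) Y Q (by rw [← map_mul, inv_mul_cancel, map_one])
      (by rw [hQ, ← hm, hpp]) (by rw [hQ, ← hfm, ← hm, hpf, hm]) (by rw [hQ, hY, ← hm, hpZ, hm]) c (by
        refine ⟨finrank G (n → G) + 1, ?_⟩
        have h1 : (p * (f - c • (1 : Module.End G (n → G)))) ^ (finrank G (n → G) + 1) = 0 := by
          have h2 : Commute p (f - c • (1 : Module.End G (n → G))) :=
            (show Commute p f from hpf).sub_right ((Commute.one_right p).smul_right c)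
          rw [h2.mul_pow, (h2.pow_pow _ _).eq]
          refine LinearMap.ext fun v => ?_
          rw [Module.End.mul_apply, LinearMap.zero_apply]
          have h3 : (p ^ (finrank G (n → G) + 1)) v ∈ f.maxGenEigenspace c := by
            rw [pow_succ', Module.End.mul_apply]
            exact hp2 _
          rw [Module.End.maxGenEigenspace_eq_genEigenspace_finrank, Module.End.mem_genEigenspace_nat,
            LinearMap.mem_ker] at h3
          rw [pow_succ', Module.End.mul_apply, h3, map_zero]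
        have h4 : Q * (bc G ρ x₀ - Matrix.scalar n c) =
            LinearMap.toMatrix' (p * (f - c • (1 : Module.End G (n → G)))) := by
          rw [hm, hQ, map_sub, map_smul, hfm]
          congr 2
          rw [Matrix.scalar_apply, ← Matrix.smul_one_eq_diagonal]
          congr 1
          exact (LinearMap.toMatrix'_one).symm
        have h5 : ∀ (A : Module.End G (n → G)) (l : ℕ), LinearMap.toMatrix' (A ^ l) = LinearMap.toMatrix' A ^ l := by
          intro A l
          induction l with
          | zero => rw [pow_zero, pow_zero]; exact LinearMap.toMatrix'_one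
          | succ l ih => rw [pow_succ, hm, ih, pow_succ]
        rw [h4, ← h5, h1, map_zero]) (by
        intro i hi hi'
        obtain ⟨Mt, hM, hM'⟩ := exists_family_G (G := G) (W.comp Δ.subtype) (ρ.comp Δ.subtype)
          ((⟨x₀, hx₀⟩ : Δ) ^ i) Y (hY ▸ hTan Z hZ.1) N k (fun x => h x x.2)
        have hbc : bc G (ρ.comp Δ.subtype) ((⟨x₀, hx₀⟩ : Δ) ^ i) = bc G ρ x₀ ^ i := by
          rw [map_pow]
          rfl
        have hbcW : bc G (W.comp Δ.subtype) ((⟨x₀, hx₀⟩ : Δ) ^ i) = bc G W x₀ ^ i := by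
          rw [map_pow]
          rfl
        rw [hbc] at hM
        rw [hbcW] at hM'
        refine ⟨Mt, hM, ?_⟩
        refine persist_dvd Mt (bc G ρ x₀ ^ i) (by
          ext a e
          rw [Matrix.map_apply, ← PowerSeries.coeff_zero_eq_constantCoeff_apply, hM]
          simp) ((((bc G W x₀ ^ i) ^ k).charpoly).comp (X ^ k)) ?_ N hM' ?_ (c ^ i) ?_
        · intro h0
          have h2 : ((((bc G W x₀ ^ i) ^ k).charpoly).comp (X ^ k)).Monic :=
            (Matrix.charpoly_monic _).comp (monic_X_pow k) (by rw [natDegree_X_pow]; exact hk)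
          exact h2.ne_zero h0
        · rw [Polynomial.aeval_comp, map_pow, Polynomial.aeval_X]
          have h1 := aeval_bc (G := G) W ρ k (x₀ ^ i)
          rw [map_pow, map_pow] at h1
          rw [h1, Polynomial.coeff_map]
          intro h0
          exact hcoef i hi hi' ((map_eq_zero (algebraMap F G)).mp h0)
        · rw [Polynomial.eval_comp, Polynomial.eval_pow, Polynomial.eval_X, ← pow_mul, mul_comm i k, pow_mul,
            ← pow_mul (bc G W x₀), mul_comm i k, pow_mul]
          exact eig_pow (bc G W x₀ ^ k) (c ^ k) i hc)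
    obtain ⟨l, hl⟩ := hnil
    refine ⟨l, ?_⟩
    have h1 : (p * Z) ^ l = 0 := by
      have h5 : ∀ (A : Module.End G (n → G)) (l : ℕ), LinearMap.toMatrix' (A ^ l) = LinearMap.toMatrix' A ^ l := by
        intro A l
        induction l with
        | zero => rw [pow_zero, pow_zero]; exact LinearMap.toMatrix'_one
        | succ l ih => rw [pow_succ, hm, ih, pow_succ]
      apply LinearMap.toMatrix'.injective
      rw [h5, hm, ← hQ, ← hY, hl, map_zero]
    have h2 : ∀ l : ℕ, (Z ^ l) u ∈ f.maxGenEigenspace c ∧ ((p * Z) ^ l) u = (Z ^ l) u := by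
      intro l
      induction l with
      | zero => exact ⟨hu, rfl⟩
      | succ l ih =>
        have h3 : (Z ^ (l + 1)) u = Z ((Z ^ l) u) := by rw [pow_succ', Module.End.mul_apply]
        have h4 : ((p * Z) ^ (l + 1)) u = p (Z (((p * Z) ^ l) u)) := by
          rw [pow_succ', Module.End.mul_apply, Module.End.mul_apply]
        have h5 : Z ((Z ^ l) u) ∈ f.maxGenEigenspace c := by
          have h6 := mem_pair f f' hff 1 c Z _ hZ.2 ih.1
          rwa [one_mul] at h6
        rw [h3, h4, ih.2]
        exact ⟨h5, hp1 _ h5⟩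
    rw [← (h2 l).2, h1, LinearMap.zero_apply]
  · intro x y hx hy hxy
    exact hiso x y ((hmax x).1 hx) ((hmax y).1 hy) hxy

end

end Pool.Agent.H60OE
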