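import Mathlib
import Pool.Agent.H60OE.Main
import Pool.Agent.H40LT.Null2

/-!
# Null sets
-/

set_option autoImplicit false
set_option linter.unusedSectionVars false
set_option linter.style.haveILetI false

namespace Pool.Agent.H60OE

open Module Matrix Polynomial Pool.Agent.H40GO Pool.Agent.H40LT Topology MeasureTheory

section

variable {G : Type*} [Field G] [TopologicalSpace G]
  [T1Space G] {Γ : Type*} [Group Γ] [TopologicalSpace Γ] [IsTopologicalGroup Γ] [CompactSpace Γ] [MeasurableSpace Γ]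
  [BorelSpace Γ] {m : Type*} [Fintype m] [DecidableEq m]

/-- finitely many class functions which do not vanish identically on a connected open subgroup -/
theorem null_union (μ : Measure Γ) [IsFiniteMeasure μ] [μ.IsMulLeftInvariant] [μ.InnerRegularCompactLTTop]
    (U : Γ →* Matrix m m G) (hcont : ∀ s ∈ coefAlg U 1, Continuous s) (Δ : Subgroup Γ) [hΔn : Δ.Normal]
    (hΔo : IsOpen (Δ : Set Γ)) (hΔ : ConnOn (coefAlg U 1) Δ) {ι : Type*} [Fintype ι] (f : ι → Γ → G)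
    (hf : ∀ i, f i ∈ coefAlg U 1) (hne : ∀ i, ∃ x ∈ Δ, f i x ≠ 0) (hc : ∀ i x τ, f i (τ * x * τ⁻¹) = f i x) :
    ∃ Z : Set Γ, IsClosed Z ∧ μ Z = 0 ∧ (∀ x ∈ Z, ∀ τ, τ * x * τ⁻¹ ∈ Z) ∧
      ∀ x ∈ Δ, x ∉ Z → ∀ i, f i x ≠ 0 := by
  classical
  have hopf := coefAlg_hopf U 1
  haveI : Algebra.FiniteType G (coefAlg U 1) := (coefAlg _ 1).fg_iff_finiteType.mp hopf.fg
  haveI : IsNoetherianRing (coefAlg U 1) := Algebra.FiniteType.isNoetherianRing G (coefAlg U 1)
  have hΔc : IsClosed (Δ : Set Γ) := Δ.isClosed_of_isOpen hΔo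
  refine ⟨⋃ i ∈ (Finset.univ : Finset ι), ({x | f i x = 0} ∩ Δ), ?_, ?_, ?_, ?_⟩
  · exact isClosed_biUnion_finset fun i _ => (isClosed_singleton.preimage (hcont _ (hf i))).inter hΔc
  · refine le_antisymm ((measure_biUnion_finset_le _ _).trans (le_of_eq (Finset.sum_eq_zero ?_))) bot_le
    intro i hi
    by_contra h0
    have h1 := null_zero_on μ (coefAlg U 1) hopf.comul hcont Δ hΔo hΔ (f i) (hf i) h0
    obtain ⟨x, hx, h2⟩ := hne i
    exact h2 (h1 x hx)
  · intro x hx τ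
    rw [Set.mem_iUnion₂] at hx ⊢
    obtain ⟨i, hi, h1, h2⟩ := hx
    refine ⟨i, hi, ?_, hΔn.conj_mem x h2 τ⟩
    change f i _ = 0
    rw [hc]
    exact h1
  · intro x hx hxZ i h0
    apply hxZ
    rw [Set.mem_iUnion₂]
    exact ⟨i, Finset.mem_univ i, h0, hx⟩

end

section

variable {F : Type*} [Field F] [CharZero F] {G : Type*} [Field G] [Algebra F G] [IsAlgClosed G]
  {Γ : Type*} [Group Γ] {m n : Type*} [Fintype m] [DecidableEq m] [Fintype n] [DecidableEq n]

/-- the main algebraic theorem on a given subgroup, in the absence of tangent vectors -/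
theorem core_tan (Δ : Subgroup Γ) [hΔ1 : Δ.Normal] (W : Γ →* Matrix m m F) (ρ : Γ →* Matrix n n F)
    (hirr : Irr ρ) (hdom : IsDomain (RR (bc G (W.comp Δ.subtype)) (bc G (ρ.comp Δ.subtype))))
    (N k : ℕ) (hk : k ≠ 0) (hN0 : 0 < N)
    (h : ∀ x ∈ Δ, MZ N (Polynomial.aeval (ρ x ^ k) (W x ^ k).charpoly))
    (htan : ∀ X, IsTan (W.comp Δ.subtype) (ρ.comp Δ.subtype) X → X = 0) :
    ∀ i j, (fun x => bc G (ρ.comp Δ.subtype) x i j) ∈ coefAlg (bc G (W.comp Δ.subtype)) 1 := by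
  haveI : CharZero G := charZero_of_injective_algebraMap (algebraMap F G).injective
  have hdomF : IsDomain (RR (W.comp Δ.subtype) (ρ.comp Δ.subtype)) := domain_of_bc (G := G) _ _
  have halg := algebraic_of_tan (W.comp Δ.subtype) (ρ.comp Δ.subtype) htan
  have hint := integral_of_algebraic (G := G) (W.comp Δ.subtype) (ρ.comp Δ.subtype) halg
  have hone := pm_eq_one (G := G) Δ W ρ hirr hint k hk (by
    intro x hx
    have h1 := (h x hx).map (algebraMap F G)
    have h2 : (Polynomial.aeval (ρ x ^ k) (W x ^ k).charpoly).map (algebraMap F G) =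
        Polynomial.aeval (bc G ρ x ^ k) (bc G W x ^ k).charpoly := by
      have h3 := mapMatrix_aeval (algebraMap F G) (ρ x ^ k) (W x ^ k).charpoly
      rw [← Matrix.charpoly_map, map_pow] at h3
      have h4 : (W x ^ k).map (algebraMap F G) = bc G W x ^ k := by
        have h5 : (W x ^ k).map (algebraMap F G) = (algebraMap F G).mapMatrix (W x ^ k) := rfl
        rw [h5, map_pow]
        rfl
      rw [h4] at h3
      exact h3
    rw [h2] at h1
    exact mz_det _ hN0 h1)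
  refine coeff_mem (coefAlg_hopf _ 1) (bc G (ρ.comp Δ.subtype)) hint ?_
  intro B hAB hρB y hy
  have hle := RR_le (bc G (W.comp Δ.subtype)) (bc G (ρ.comp Δ.subtype)) hint B hAB hρB
  have h1 := hone (y.comp (Subalgebra.inclusion hle)) (fun a ha => hy a ha)
  have h2 : (Matrix.of fun i j => y ⟨fun x => bc G (ρ.comp Δ.subtype) x i j, hρB i j⟩) =
      pm (bc G (W.comp Δ.subtype)) (bc G (ρ.comp Δ.subtype)) (y.comp (Subalgebra.inclusion hle)) := rfl
  rw [h2, h1, sub_self]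
  exact IsNilpotent.zero

/-- the least number of eigenvalues on `Δ` -/
theorem exists_least (Δ : Subgroup Γ) (W : Γ →* Matrix m m F) (ρ : Γ →* Matrix n n F) (k : ℕ) :
    ∃ N ≤ Fintype.card n, (∀ x ∈ Δ, MZ N (aeval (ρ x ^ k) (W x ^ k).charpoly)) ∧
      ∃ x ∈ Δ, (aeval (ρ x ^ k) (W x ^ k).charpoly).charpoly.coeff N ≠ 0 := by
  classical
  have hex : ∃ j, ∃ x ∈ Δ, (aeval (ρ x ^ k) (W x ^ k).charpoly).charpoly.coeff j ≠ 0 := by
    refine ⟨Fintype.card n, 1, Δ.one_mem, ?_⟩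
    have h1 := Matrix.charpoly_monic (aeval (ρ 1 ^ k) (W 1 ^ k).charpoly)
    rw [Polynomial.Monic, Polynomial.leadingCoeff, Matrix.charpoly_natDegree_eq_dim] at h1
    rw [h1]
    exact one_ne_zero
  refine ⟨Nat.find hex, ?_, ?_, Nat.find_spec hex⟩
  · refine Nat.find_min' hex ⟨1, Δ.one_mem, ?_⟩
    have h1 := Matrix.charpoly_monic (aeval (ρ 1 ^ k) (W 1 ^ k).charpoly)
    rw [Polynomial.Monic, Polynomial.leadingCoeff, Matrix.charpoly_natDegree_eq_dim] at h1
    rw [h1]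
    exact one_ne_zero
  · intro x hx j hj
    have h1 := Nat.find_min hex hj
    push Not at h1
    exact h1 x hx

/-- a good eigenvalue makes the determinant vanish -/
theorem mz_of_root (W : Γ →* Matrix m m F) (ρ : Γ →* Matrix n n F) (k : ℕ) (x : Γ) (z : G)
    (hz : (bc G ρ x).charpoly.IsRoot z) (hzW : (bc G W x ^ k).charpoly.IsRoot (z ^ k)) :
    (aeval (ρ x ^ k) (W x ^ k).charpoly).charpoly.coeff 0 = 0 := by
  classical
  have h1 : ((aeval (ρ x ^ k) (W x ^ k).charpoly).charpoly.map (algebraMap F G)).coeff 0 = 0 := by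
    rw [← aeval_bc]
    have h2 : aeval (bc G ρ x ^ k) (bc G W x ^ k).charpoly =
        aeval (bc G ρ x) (((bc G W x ^ k).charpoly).comp (X ^ k)) := by
      rw [Polynomial.aeval_comp, map_pow, Polynomial.aeval_X]
    rw [h2]
    refine count_mz _ _ 1 ?_ 0 Nat.one_pos
    rw [Nat.one_le_iff_ne_zero, ← Nat.pos_iff_ne_zero, Multiset.card_pos_iff_exists_mem]
    refine ⟨z, ?_⟩
    rw [Multiset.mem_filter, mem_roots (Matrix.charpoly_monic _).ne_zero]
    refine ⟨hz, ?_⟩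
    rw [Polynomial.eval_comp, Polynomial.eval_pow, Polynomial.eval_X]
    exact hzW
  rw [Polynomial.coeff_map] at h1
  exact (map_eq_zero (algebraMap F G)).mp h1

end

section

variable {F : Type*} [Field F] [CharZero F] {G : Type*} [Field G] [Algebra F G] [IsAlgClosed G] [TopologicalSpace G]
  [T1Space G] {Γ : Type*} [Group Γ] [TopologicalSpace Γ] [IsTopologicalGroup Γ] [CompactSpace Γ] [MeasurableSpace Γ]
  [BorelSpace Γ] {m : Type*} [Fintype m] [DecidableEq m] {n : Type*} [Fintype n] [DecidableEq n]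

/-- **Isolated eigenvalues, for almost all elements.** -/
theorem iso_null (μ : Measure Γ) [IsFiniteMeasure μ] [μ.IsMulLeftInvariant] [μ.InnerRegularCompactLTTop]
    (V : Γ →* Matrix m m F) (ρ : Γ →* Matrix n n F) (hirr : Irr ρ)
    (hcont : ∀ s ∈ coefAlg (bc G (dsum V ρ)) 1, Continuous s) (Δ : Subgroup Γ) [hΔn : Δ.Normal]
    (hΔo : IsOpen (Δ : Set Γ)) (hΔ : ConnOn (coefAlg (bc G (dsum V ρ)) 1) Δ)
    (hnot : ¬ ∀ i i', (fun x => bc G (ρ.comp Δ.subtype) x i i') ∈ coefAlg (bc G (V.comp Δ.subtype)) 1) (B : ℕ) :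
    ∃ Z : Set Γ, IsClosed Z ∧ μ Z = 0 ∧ (∀ x ∈ Z, ∀ τ, τ * x * τ⁻¹ ∈ Z) ∧
      ∀ x ∈ Δ, x ∉ Z → ∀ z, (bc G ρ x).charpoly.IsRoot z → Good (bc G V) B x z → ¬ Iso (bc G ρ x) z := by
  obtain ⟨k, hk⟩ : ∃ k, k = B.factorial := ⟨_, rfl⟩
  have hk0 : k ≠ 0 := hk ▸ Nat.factorial_ne_zero B
  have hle : coefAlg (bc G (dsum (bigRep V B) ρ)) 1 ≤ coefAlg (bc G (dsum V ρ)) 1 := coefAlg_big_le V ρ B
  have hdom : IsDomain (RR (bc G ((bigRep V B).comp Δ.subtype)) (bc G (ρ.comp Δ.subtype))) := by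
    have h1 := res_domain (bc G (dsum (bigRep V B) ρ)) Δ (fun r hr s hs => hΔ r (hle hr) s (hle hs))
    have h2 : (bc G (dsum (bigRep V B) ρ)).comp Δ.subtype =
        dsum (bc G ((bigRep V B).comp Δ.subtype)) (bc G (ρ.comp Δ.subtype)) := by
      rw [← dsum_bc]
      rfl
    rw [h2] at h1
    exact h1
  obtain ⟨N, -, hN, x₁, hx₁, hN'⟩ := exists_least Δ (bigRep V B) ρ k
  obtain ⟨Z, hZ1, hZ2, hZ3, hZ4⟩ := null_union μ (bc G (dsum V ρ)) hcont Δ hΔo hΔ (ι := Unit) (fun _ x =>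
    (aeval (bc G ρ x ^ k) (bc G (bigRep V B) x ^ k).charpoly).charpoly.coeff N)
    (fun _ => hle (coeff_mem_RR (bigRep V B) ρ k N)) (fun _ => ⟨x₁, hx₁, by
      rw [aeval_bc, Polynomial.coeff_map]
      intro h0
      exact hN' ((map_eq_zero (algebraMap F G)).mp h0)⟩) (fun _ x τ => by rw [cp_conj])
  refine ⟨Z, hZ1, hZ2, hZ3, fun x hx hxZ z hz hg hiso => ?_⟩
  have hcoef : (aeval (ρ x ^ k) (bigRep V B x ^ k).charpoly).charpoly.coeff N ≠ 0 := by
    have h1 := hZ4 x hx hxZ ()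
    change (aeval (bc G ρ x ^ k) (bc G (bigRep V B) x ^ k).charpoly).charpoly.coeff N ≠ 0 at h1
    rw [aeval_bc, Polynomial.coeff_map] at h1
    intro h0
    exact h1 (by rw [h0, map_zero])
  have hzW : (bc G (bigRep V B) x ^ k).charpoly.IsRoot (z ^ k) := by
    rw [bigRep_bc, hk]
    exact good_root (bc G V) B x z hg
  have hN0 : N ≠ 0 := by
    rintro rfl
    exact hcoef (mz_of_root (bigRep V B) ρ k x z hz hzW)
  apply hnot
  intro i i'
  have h6 := core_tan (G := G) Δ (bigRep V B) ρ hirr hdom N k hk0 (Nat.pos_of_ne_zero hN0) hN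
    (tan_zero_of_iso (G := G) Δ (bigRep V B) ρ hirr N k hk0 hN0 hN x hx hcoef z hiso hz hzW) i i'
  rw [bigRep_comp, bigRep_bc] at h6
  exact coefAlg_bigRep_le _ B h6

end

end Pool.Agent.H60OE
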