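import Mathlib
import Pool.Agent.H60OE.NullF
import Pool.Agent.H60OE.Gen

/-!
# A good eigenvalue is the geometric mean of two bad ones: almost all elements
-/

set_option autoImplicit false
set_option linter.unusedSectionVars false
set_option linter.style.haveILetI false

namespace Pool.Agent.H60OE

open Module Matrix Polynomial Pool.Agent.H40GO Pool.Agent.H40LT Topology MeasureTheory

section

variable {F : Type*} [Field F] [CharZero F] {G : Type*} [Field G] [Algebra F G] [IsAlgClosed G]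
  {Γ : Type*} [Group Γ] {m n : Type*} [Fintype m] [DecidableEq m] [Fintype n] [DecidableEq n]

/-- `N` is the least number of good eigenvalues on `Δ`, for the exponent `k` -/
def Lst (Δ : Subgroup Γ) (W : Γ →* Matrix m m F) (ρ : Γ →* Matrix n n F) (k N : ℕ) : Prop :=
  (∀ x ∈ Δ, MZ N (aeval (ρ x ^ k) (W x ^ k).charpoly)) ∧
    ∃ x ∈ Δ, (aeval (ρ x ^ k) (W x ^ k).charpoly).charpoly.coeff N ≠ 0

theorem Lst.le_card {Δ : Subgroup Γ} {W : Γ →* Matrix m m F} {ρ : Γ →* Matrix n n F} {k N : ℕ}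
    (h : Lst Δ W ρ k N) : N ≤ Fintype.card n := by
  obtain ⟨-, x, -, hx⟩ := h
  by_contra hcon
  apply hx
  apply coeff_eq_zero_of_natDegree_lt
  rw [Matrix.charpoly_natDegree_eq_dim]
  omega

open scoped Classical in
theorem mult_eq (W : Γ →* Matrix m m F) (ρ : Γ →* Matrix n n F) (k : ℕ) (x : Γ) :
    (aeval (ρ x ^ k) (W x ^ k).charpoly).charpoly.rootMultiplicity 0 =
      Multiset.card ((bc G ρ x).charpoly.roots.filter fun z => (bc G W x ^ k).charpoly.IsRoot (z ^ k)) := by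
  have h1 : (aeval (ρ x ^ k) (W x ^ k).charpoly).charpoly.rootMultiplicity 0 =
      ((aeval (ρ x ^ k) (W x ^ k).charpoly).charpoly.map (algebraMap F G)).rootMultiplicity 0 := by
    rw [← map_zero (algebraMap F G), ← Polynomial.eq_rootMultiplicity_map (algebraMap F G).injective]
  rw [h1, ← aeval_bc]
  have h2 : aeval (bc G ρ x ^ k) (bc G W x ^ k).charpoly =
      aeval (bc G ρ x) (((bc G W x ^ k).charpoly).comp (X ^ k)) := by
    rw [Polynomial.aeval_comp, map_pow, Polynomial.aeval_X]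
  rw [h2, rootMult_aeval]
  congr 1
  refine Multiset.filter_congr fun z _ => ?_
  rw [Polynomial.eval_comp, Polynomial.eval_pow, Polynomial.eval_X]
  rfl

theorem Lst.mono (G : Type*) [Field G] [Algebra F G] [IsAlgClosed G] {Δ : Subgroup Γ} {W : Γ →* Matrix m m F}
    {ρ : Γ →* Matrix n n F} {k i N N' : ℕ} (h : Lst Δ W ρ k N) (h' : Lst Δ W ρ (i * k) N') : N ≤ N' := by
  classical
  obtain ⟨-, x, hx, hc⟩ := h'
  have h1 : (aeval (ρ x ^ (i * k)) (W x ^ (i * k)).charpoly).charpoly.rootMultiplicity 0 ≤ N' := by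
    by_contra hcon
    push Not at hcon
    exact hc ((rootMult_eq (Matrix.charpoly_monic _) (N' + 1)).mp hcon N' (Nat.lt_succ_self _))
  have h2 : N ≤ (aeval (ρ x ^ k) (W x ^ k).charpoly).charpoly.rootMultiplicity 0 :=
    (rootMult_eq (Matrix.charpoly_monic _) N).mpr (h.1 x hx)
  refine (h2.trans ?_).trans h1
  rw [mult_eq (G := G), mult_eq (G := G)]
  refine Multiset.card_le_card (Multiset.monotone_filter_right _ ?_)
  intro z hz
  have h3 := eig_pow (bc G W x ^ k) (z ^ k) i hz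
  rwa [← pow_mul, ← pow_mul, mul_comm k i] at h3

/-- an exponent for which the number of good eigenvalues is stable -/
theorem exists_stable (G : Type*) [Field G] [Algebra F G] [IsAlgClosed G] (Δ : Subgroup Γ) (W : Γ →* Matrix m m F)
    (ρ : Γ →* Matrix n n F) (e : ℕ) (he : e ≠ 0) :
    ∃ k N, k ≠ 0 ∧ e ∣ k ∧ ∀ i, i ≠ 0 → Lst Δ W ρ (i * k) N := by
  obtain ⟨S, hS⟩ : ∃ S : Set ℕ, S = {N | ∃ k, k ≠ 0 ∧ e ∣ k ∧ Lst Δ W ρ k N} := ⟨_, rfl⟩
  have hex : ∀ k, ∃ N, Lst Δ W ρ k N := by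
    intro k
    obtain ⟨N, -, h1, h2⟩ := exists_least Δ W ρ k
    exact ⟨N, h1, h2⟩
  have hne : S.Nonempty := by
    obtain ⟨N, hN⟩ := hex e
    exact ⟨N, by rw [hS]; exact ⟨e, he, dvd_refl e, hN⟩⟩
  have hbdd : BddAbove S := by
    refine ⟨Fintype.card n, ?_⟩
    intro N hN
    rw [hS] at hN
    obtain ⟨k, -, -, h⟩ := hN
    exact h.le_card
  obtain ⟨N, hN, hmax⟩ : ∃ N ∈ S, ∀ N' ∈ S, N' ≤ N := ⟨sSup S, Nat.sSup_mem hne hbdd, fun N' h => le_csSup hbdd h⟩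
  rw [hS] at hN
  obtain ⟨k, hk0, hek, hk⟩ := hN
  refine ⟨k, N, hk0, hek, fun i hi => ?_⟩
  obtain ⟨N', hN'⟩ := hex (i * k)
  have h1 := hk.mono G hN'
  have h2 : N' ≤ N := hmax N' (by
    rw [hS]
    exact ⟨i * k, mul_ne_zero hi hk0, hek.mul_left i, hN'⟩)
  have h3 := le_antisymm h1 h2
  rw [← h3] at hN'
  exact hN'

/-- the resultant of the characteristic polynomial and of its image by a homothety -/
noncomputable def rsl (ρ : Γ →* Matrix n n G) (ζ : G) (x : Γ) : G := (aeval (ζ • ρ x) (ρ x).charpoly).det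

theorem rsl_one (ρ : Γ →* Matrix n n G) (ζ : G) (hζ : ζ ≠ 1) : rsl ρ ζ 1 ≠ 0 := by
  unfold rsl
  rw [map_one, Matrix.charpoly_one, map_pow, map_sub, aeval_X, map_one, Matrix.det_pow]
  apply pow_ne_zero
  have h1 : ζ • (1 : Matrix n n G) - 1 = (ζ - 1) • 1 := by rw [sub_smul, one_smul]
  rw [h1, Matrix.det_smul, Matrix.det_one, mul_one]
  exact pow_ne_zero _ (sub_ne_zero.mpr hζ)

theorem rsl_conj (ρ : Γ →* Matrix n n G) (ζ : G) (x τ : Γ) : rsl ρ ζ (τ * x * τ⁻¹) = rsl ρ ζ x := by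
  unfold rsl
  have h4 : ρ τ⁻¹ * ρ τ = 1 := by rw [← map_mul, inv_mul_cancel, map_one]
  rw [charpoly_conj]
  have h1 : ζ • ρ (τ * x * τ⁻¹) = ρ τ * (ζ • ρ x) * ρ τ⁻¹ := by
    rw [map_mul, map_mul, mul_smul_comm, smul_mul_assoc]
  rw [h1, aeval_conj _ _ _ h4, Matrix.det_mul, Matrix.det_mul]
  have h2 : (ρ τ).det * (ρ τ⁻¹).det = 1 := by
    rw [mul_comm, ← Matrix.det_mul, h4, Matrix.det_one]
  calc (ρ τ).det * (aeval (ζ • ρ x) (ρ x).charpoly).det * (ρ τ⁻¹).det =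
      ((ρ τ).det * (ρ τ⁻¹).det) * (aeval (ζ • ρ x) (ρ x).charpoly).det := by ring
    _ = _ := by rw [h2, one_mul]

theorem rsl_mem (V : Γ →* Matrix m m G) (ρ : Γ →* Matrix n n G) (ζ : G) :
    (fun x => rsl ρ ζ x) ∈ coefAlg (dsum V ρ) 1 := by
  have h1 : (fun x => rsl ρ ζ x) =
      (((aeval (ζ • ρm V ρ) (ρm V ρ).charpoly).det : RR V ρ) : Γ → G) := by
    funext x
    have h2 : ((ev (RR V ρ) x : RR V ρ →ₐ[G] G) : RR V ρ →+* G).mapMatrix (ρm V ρ) = ρ x := matA_ev _ ρ _ x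
    have h3 : ((ev (RR V ρ) x : RR V ρ →ₐ[G] G) : RR V ρ →+* G) (aeval (ζ • ρm V ρ) (ρm V ρ).charpoly).det =
        rsl ρ ζ x := by
      rw [RingHom.map_det, mapMatrix_aeval, ← Matrix.charpoly_map]
      have h4 : (ρm V ρ).map ((ev (RR V ρ) x : RR V ρ →ₐ[G] G) : RR V ρ →+* G) = ρ x := h2
      have h5 : ((ev (RR V ρ) x : RR V ρ →ₐ[G] G) : RR V ρ →+* G).mapMatrix (ζ • ρm V ρ) = ζ • ρ x := by
        rw [← h2]
        ext i j
        rfl
      rw [h4, h5]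
      rfl
    exact h3.symm
  rw [h1]
  exact Subtype.prop _

theorem rsl_root (ρ : Γ →* Matrix n n G) (ζ : G) (x : Γ) (y : G) (hy : (ρ x).charpoly.IsRoot y)
    (hy' : (ρ x).charpoly.IsRoot (ζ * y)) : rsl ρ ζ x = 0 := by
  unfold rsl
  have h1 : aeval (ζ • ρ x) (ρ x).charpoly = aeval (ρ x) ((ρ x).charpoly.comp (C ζ * X)) := by
    rw [Polynomial.aeval_comp, map_mul, aeval_X, aeval_C, Algebra.algebraMap_eq_smul_one, smul_mul_assoc, one_mul]
  rw [h1, det_aeval]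
  apply Multiset.prod_eq_zero
  rw [Multiset.mem_map]
  refine ⟨y, (mem_roots (Matrix.charpoly_monic _).ne_zero).mpr hy, ?_⟩
  rw [eval_comp, eval_mul, eval_C, eval_X]
  exact hy'

end

section

variable {F : Type*} [Field F] [CharZero F] {G : Type*} [Field G] [Algebra F G] [IsAlgClosed G] [TopologicalSpace G]
  [T1Space G] {Γ : Type*} [Group Γ] [TopologicalSpace Γ] [IsTopologicalGroup Γ] [CompactSpace Γ] [MeasurableSpace Γ]
  [BorelSpace Γ] {m : Type*} [Fintype m] [DecidableEq m] {n : Type*} [Fintype n] [DecidableEq n]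

/-- **Good eigenvalues are geometric means of bad eigenvalues, for almost all elements.** -/
theorem mean_null (μ : Measure Γ) [IsFiniteMeasure μ] [μ.IsMulLeftInvariant] [μ.InnerRegularCompactLTTop]
    (V : Γ →* Matrix m m F) (ρ : Γ →* Matrix n n F) (hirr : Irr ρ)
    (hcont : ∀ s ∈ coefAlg (bc G (dsum V ρ)) 1, Continuous s) (Δ : Subgroup Γ) [hΔn : Δ.Normal]
    (hΔo : IsOpen (Δ : Set Γ)) (hΔ : ConnOn (coefAlg (bc G (dsum V ρ)) 1) Δ)
    (hnot : ¬ ∀ i i', (fun x => bc G (ρ.comp Δ.subtype) x i i') ∈ coefAlg (bc G (V.comp Δ.subtype)) 1) (B : ℕ) :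
    ∃ Z : Set Γ, IsClosed Z ∧ μ Z = 0 ∧ (∀ x ∈ Z, ∀ τ, τ * x * τ⁻¹ ∈ Z) ∧
      ∀ x ∈ Δ, x ∉ Z → ∀ z, (bc G ρ x).charpoly.IsRoot z → Good (bc G V) B x z →
        ∃ y y', (bc G ρ x).charpoly.IsRoot y ∧ (bc G ρ x).charpoly.IsRoot y' ∧ ¬ Good (bc G V) B x y ∧
          ¬ Good (bc G V) B x y' ∧ y * y' = z ^ 2 := by
  classical
  obtain ⟨k, N, hk0, hek, hst⟩ := exists_stable G Δ (bigRep V B) ρ B.factorial (Nat.factorial_ne_zero B)
  have hle : coefAlg (bc G (dsum (bigRep V B) ρ)) 1 ≤ coefAlg (bc G (dsum V ρ)) 1 := coefAlg_big_le V ρ B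
  have hdom : IsDomain (RR (bc G ((bigRep V B).comp Δ.subtype)) (bc G (ρ.comp Δ.subtype))) := by
    have h1 := res_domain (bc G (dsum (bigRep V B) ρ)) Δ (fun r hr s hs => hΔ r (hle hr) s (hle hs))
    have h2 : (bc G (dsum (bigRep V B) ρ)).comp Δ.subtype =
        dsum (bc G ((bigRep V B).comp Δ.subtype)) (bc G (ρ.comp Δ.subtype)) := by
      rw [← dsum_bc]
      rfl
    rw [h2] at h1
    exact h1
  -- the first conditions
  obtain ⟨Z, hZ1, hZ2, hZ3, hZ4⟩ := null_union μ (bc G (dsum V ρ)) hcont Δ hΔo hΔ (ι := Fin (Fintype.card n))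
    (fun i x => (aeval (bc G ρ x ^ ((i + 1) * k)) (bc G (bigRep V B) x ^ ((i + 1) * k)).charpoly).charpoly.coeff N)
    (fun i => hle (coeff_mem_RR (bigRep V B) ρ ((i + 1) * k) N)) (fun i => by
      obtain ⟨-, x₁, hx₁, hN'⟩ := hst (i + 1) (Nat.succ_ne_zero _)
      refine ⟨x₁, hx₁, ?_⟩
      rw [aeval_bc, Polynomial.coeff_map]
      intro h0
      exact hN' ((map_eq_zero (algebraMap F G)).mp h0)) (fun i x τ => by rw [cp_conj])
  -- the second conditions
  obtain ⟨P, hP⟩ : ∃ P : G[X], P = ∏ j ∈ Finset.Icc 1 (Fintype.card n), (X ^ j - 1) := ⟨_, rfl⟩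
  have hP0 : P ≠ 0 := by
    rw [hP, Finset.prod_ne_zero_iff]
    intro j hj
    rw [Finset.mem_Icc] at hj
    exact (monic_X_pow_sub_C (1 : G) (by omega : j ≠ 0)).ne_zero
  obtain ⟨Z', hZ1', hZ2', hZ3', hZ4'⟩ := null_union μ (bc G (dsum V ρ)) hcont Δ hΔo hΔ
    (ι := {ζ : G // ζ ∈ P.roots.toFinset.erase 1}) (fun ζ x => rsl (bc G ρ) ζ x)
    (fun ζ => by
      rw [dsum_bc]
      exact rsl_mem (bc G V) (bc G ρ) ζ) (fun ζ => ⟨1, Δ.one_mem, rsl_one _ _ (Finset.mem_erase.mp ζ.2).1⟩)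
    (fun ζ x τ => rsl_conj _ _ x τ)
  refine ⟨Z ∪ Z', hZ1.union hZ1', measure_union_null hZ2 hZ2', ?_, ?_⟩
  · rintro x (hx | hx) τ
    · exact Or.inl (hZ3 x hx τ)
    · exact Or.inr (hZ3' x hx τ)
  intro x hx hxZ z hz hg
  rw [Set.mem_union, not_or] at hxZ
  by_contra hcon
  push Not at hcon
  have hgood : ∀ y, Good (bc G V) B x y → (bc G (bigRep V B) x ^ k).charpoly.IsRoot (y ^ k) := by
    intro y hy
    obtain ⟨c, hc⟩ := hek
    rw [bigRep_bc, hc, pow_mul, pow_mul]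
    exact eig_pow _ _ c (good_root (bc G V) B x y hy)
  have hzW := hgood z hg
  have hcoef : ∀ i, 1 ≤ i → i ≤ Fintype.card n →
      (aeval (ρ (x ^ i) ^ k) (bigRep V B (x ^ i) ^ k).charpoly).charpoly.coeff N ≠ 0 := by
    intro i hi hi'
    have h1 := hZ4 x hx hxZ.1 ⟨i - 1, by omega⟩
    change (aeval (bc G ρ x ^ ((i - 1 + 1) * k)) (bc G (bigRep V B) x ^ ((i - 1 + 1) * k)).charpoly).charpoly.coeff N
      ≠ 0 at h1
    rw [aeval_bc, Polynomial.coeff_map, show (i - 1 + 1) = i by omega] at h1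
    intro h0
    rw [map_pow, map_pow, ← pow_mul, ← pow_mul] at h0
    exact h1 (by rw [h0, map_zero])
  have hmz : ∀ x ∈ Δ, MZ N (aeval (ρ x ^ k) (bigRep V B x ^ k).charpoly) := by
    have h1 := (hst 1 one_ne_zero).1
    rwa [one_mul] at h1
  have hR : ∀ y y', (bc G ρ x).charpoly.IsRoot y → (bc G ρ x).charpoly.IsRoot y' → y ≠ y' →
      ∀ j, 1 ≤ j → j ≤ Fintype.card n → y ^ j ≠ y' ^ j := by
    intro y y' hy hy' hne j hj hj' hjj
    have hy0 : y' ≠ 0 := by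
      rintro rfl
      rw [zero_pow (by omega)] at hjj
      exact hne (pow_eq_zero_iff (by omega) |>.mp hjj)
    have hζ : (y / y') ^ j = 1 := by rw [div_pow, hjj, div_self (pow_ne_zero _ hy0)]
    have hζ1 : y / y' ≠ 1 := by
      intro h1
      rw [div_eq_one_iff_eq hy0] at h1
      exact hne h1
    have hmem : y / y' ∈ P.roots.toFinset.erase 1 := by
      rw [Finset.mem_erase, Multiset.mem_toFinset, mem_roots hP0]
      refine ⟨hζ1, ?_⟩
      rw [hP, IsRoot.def, eval_prod]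
      refine Finset.prod_eq_zero (Finset.mem_Icc.mpr ⟨hj, hj'⟩) ?_
      rw [eval_sub, eval_pow, eval_X, eval_one, hζ, sub_self]
    refine hZ4' x hx hxZ.2 ⟨_, hmem⟩ (rsl_root _ _ x y' hy' ?_)
    change (bc G ρ x).charpoly.IsRoot (y / y' * y')
    rwa [div_mul_cancel₀ _ hy0]
  have hcard : 1 ≤ Fintype.card n := by
    by_contra hc
    have h1 : Fintype.card n = 0 := by omega
    have h2 := Matrix.charpoly_natDegree_eq_dim (bc G ρ x)
    rw [h1] at h2
    have h3 := (Polynomial.Monic.natDegree_eq_zero (Matrix.charpoly_monic (bc G ρ x))).mp h2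
    rw [h3, IsRoot.def, eval_one] at hz
    exact one_ne_zero hz
  have hN0 : N ≠ 0 := by
    rintro rfl
    have h1 := hcoef 1 le_rfl hcard
    rw [pow_one] at h1
    exact h1 (mz_of_root (bigRep V B) ρ k x z hz hzW)
  apply hnot
  intro i i'
  have h6 := core_tan (G := G) Δ (bigRep V B) ρ hirr hdom N k hk0 (Nat.pos_of_ne_zero hN0) hmz
    (tan_zero_gen (G := G) Δ (bigRep V B) ρ hirr N k hk0 hN0 hmz x hx hcoef hR z hz hzW (by
      intro y y' hy hy' hyy
      by_cases hgy : Good (bc G V) B x y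
      · exact Or.inl (hgood y hgy)
      · by_cases hgy' : Good (bc G V) B x y'
        · exact Or.inr (hgood y' hgy')
        · exact absurd hyy (hcon y y' hy hy' hgy hgy'))) i i'
  rw [bigRep_comp, bigRep_bc] at h6
  exact coefAlg_bigRep_le _ B h6

end

end Pool.Agent.H60OE
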