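import Mathlib
import Pool.Agent.H60OE.NullG
import Pool.Agent.H40LT.Dense

/-!
# A good eigenvalue is the geometric mean of two bad ones: the theorem for compact groups
-/

set_option autoImplicit false
set_option linter.unusedSectionVars false
set_option linter.style.haveILetI false

namespace Pool.Agent.H60OE

open Module Matrix Polynomial Pool.Agent.H40GO Pool.Agent.H40LT Topology MeasureTheory

section

variable {F : Type*} [Field F] [CharZero F] [TopologicalSpace F] {G : Type*} [Field G] [Algebra F G]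
  [TopologicalSpace G] [IsTopologicalRing G] [T2Space G] [IsAlgClosed G] {Γ : Type*} [Group Γ] [TopologicalSpace Γ]
  [IsTopologicalGroup Γ] [CompactSpace Γ] [MeasurableSpace Γ] [BorelSpace Γ]

theorem mean_main (hFG : Continuous (algebraMap F G)) (μ : Measure Γ) [IsFiniteMeasure μ] [μ.IsMulLeftInvariant]
    [μ.InnerRegularCompactLTTop] {N n : ℕ} (V : Γ →* Matrix (Fin N) (Fin N) F) (hV : Continuous V)
    (ρ : Γ →* Matrix (Fin n) (Fin n) F) (hρ : Continuous ρ) (hirr : Irr ρ) :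
    ∃ Δ : Subgroup Γ, Δ.Normal ∧ IsOpen (Δ : Set Γ) ∧ (Rigid (bc G (dsum V ρ)) ⊤ → Δ = ⊤) ∧
      (Geo V ρ → ∃ B, ∀ σ, ∀ z, (bc G ρ σ).charpoly.IsRoot z → Good (bc G V) B σ z) ∧
      (¬ Geo V ρ → ∀ B, ∃ Z : Set Γ, IsClosed Z ∧ μ Z = 0 ∧ (∀ x ∈ Z, ∀ τ, τ * x * τ⁻¹ ∈ Z) ∧
        ∀ x ∈ Δ, x ∉ Z → ∀ z, (bc G ρ x).charpoly.IsRoot z → Good (bc G V) B x z →
          ∃ y y', (bc G ρ x).charpoly.IsRoot y ∧ (bc G ρ x).charpoly.IsRoot y' ∧ ¬ Good (bc G V) B x y ∧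
            ¬ Good (bc G V) B x y' ∧ y * y' = z ^ 2) := by
  have hU : Continuous (bc G (dsum V ρ)) := by
    rw [dsum_bc]
    exact cont_dsum _ _ (bc_cont (G := G) hFG V hV) (bc_cont (G := G) hFG ρ hρ)
  obtain ⟨Δ, hΔn, hΔo, hΔ, hΔt⟩ := exists_delta (bc G (dsum V ρ)) hU
  refine ⟨Δ, hΔn, hΔo, hΔt, ?_, fun hgeo B => ?_⟩
  · rintro ⟨a, b, d, θ, -, hθ, h⟩
    exact good_of_subQuot (G := G) V ρ a b d θ hθ h
  · refine mean_null μ V ρ hirr (cont_coefAlg _ hU) Δ hΔo hΔ (fun h => hgeo ?_) B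
    exact geo_of_mem (G := G) V ρ hirr Δ hΔo h

end

end Pool.Agent.H60OE
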